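import Pool.Agent.Lib.EL.KitA

open Set WithZero Pool.Agent.Lib.MP_e39d36_ag Pool.Agent.Lib.MP_e39d36_ag.Var
  Pool.Agent.Lib.MV.End
open scoped NNReal

set_option linter.unusedSectionVars false
set_option linter.unusedVariables false
set_option linter.style.haveILetI false

noncomputable section

namespace Pool.Agent.Lib.EL

variable {K F : Type} [Field K] [Field F] [Algebra ℂ K] [Algebra ℂ F] {B : Var K} {X : Var F}
  {Λ : Type} [AddCommGroup Λ]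

namespace CEL_

variable (G : Geo B X Λ)

/-- Both sums move off the zero section. -/
def O2 (b : Λ) : Prop := b ≠ 0 → G.Off 1 b ∧ G.Off 2 b

variable {G}

lemma of_pr {b : Λ} (h : G.Pr b) : O2 G b :=
  fun h0 => ⟨G.pair b h0 h 1 (Or.inl rfl), G.pair b h0 h 2 (Or.inr rfl)⟩

lemma diag {a c : Λ} (ha : G.Pr a) (hc : G.Pr c) (h : c = 0 ∨ ¬G.Mt a ∧ ¬G.Mt c) :
    O2 G (a + c) := by
  by_cases h1 : c = 0
  · simpa [h1] using of_pr ha
  by_cases h2 : a = 0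
  · simpa [h2] using of_pr hc
  obtain ⟨h3, h4⟩ := h.resolve_left h1
  obtain ⟨M, h5⟩ := G.sq a c
  have h6 : ∀ b, b ≠ 0 → G.s b (G.σ 0) = 0 := fun b hb =>
    Finsupp.single_eq_of_ne fun h => hb (G.σ_inj _ h.symm)
  obtain ⟨D, N, a1, a2, a3, a4⟩ := G.pair a h2 ha 1 (Or.inl rfl)
  refine fun _ => ⟨⟨G.s a + G.s c, -M, add_nonneg (G.s_nonneg _) (G.s_nonneg _),
    by rw [Finsupp.add_apply, h6 a h2, h6 c h1, add_zero],
    by rw [map_add, G.dis a h2 h3, G.dis c h1 h4, add_zero], ?_⟩,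
    D + G.s c, N - M, add_nonneg a1 (G.s_nonneg _), by rw [Finsupp.add_apply, a2, h6 c h1, add_zero],
    by rw [map_add, a3, G.dis c h1 h4, add_zero], ?_⟩
  · refine (LE.of_eq ?_).trans ((h5.symm.sub (LE.refl (G.pb M))).trans (LE.of_eq ?_))
    · abel
    · rw [map_neg]; abel
  · refine ((a4.add (LE.refl _)).trans (LE.of_eq ?_)).trans
      ((h5.symm.add (LE.refl (G.s 0 + G.pb N - G.pb M))).trans (LE.of_eq ?_))
    · abel
    · rw [map_sub]; abel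

/-- Indicator vectors. -/
def v (i : Bool × Bool × Bool) : ℤ × ℤ × ℤ := (i.1.toInt, i.2.1.toInt, i.2.2.toInt)

/-- The standard chain. -/
def w : Fin 4 → ℤ × ℤ × ℤ := ![(0, 0, 0), (1, 0, 0), (1, 1, 0), (1, 1, 1)]

/-- Comparable subsets. -/
abbrev Cp (i j : Bool × Bool × Bool) : Prop := i ≤ j ∨ j ≤ i

lemma d1 : ∀ i j, Cp i j → (∃ k l, v j - v i = w l - w k) ∨ v j - v i = (1, 0, 1) ∨
    v j - v i = (-1, 0, -1) := by decide +kernel

lemma d2 : ∀ i j k, v j - v i = (1, 0, 1) ∨ v j - v i = (-1, 0, -1) →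
    v k - v i = (1, 0, 1) ∨ v k - v i = (-1, 0, -1) → j = k := by decide +kernel

lemma d3 : ∀ i j k, Cp i j → Cp i k → Cp j k → ∃ a b c : Fin 3,
    let u : ℤ × ℤ × ℤ → ℤ × ℤ := fun z => (z.1, z.2.1)
    u (v j - v i) = u (w b.castSucc - w a.castSucc) ∧
      u (v k - v i) = u (w c.castSucc - w a.castSucc) ∨
    u (v j - v i) = u (w a.castSucc - w b.castSucc) ∧
      u (v k - v i) = u (w a.castSucc - w c.castSucc) := by decide +kernel

lemma sum_ind (n : ℕ) (ρ : ℤ) (h0 : 0 ≤ ρ) (h : ρ ≤ n) :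
    ∑ t ∈ Finset.range n, (decide ((t : ℤ) < ρ)).toInt = ρ := by
  obtain ⟨ρ, rfl⟩ := Int.eq_ofNat_of_zero_le h0
  obtain ⟨k, rfl⟩ := Nat.exists_eq_add_of_le (Int.ofNat_le.1 h)
  rw [Finset.sum_range_add, Finset.sum_congr rfl (g := fun _ => 1) (by simp +contextual),
    Finset.sum_eq_zero (s := Finset.range k) fun x _ => by
      rw [decide_eq_false (by omega)]; rfl]
  simp

lemma core (p : Fin 4 → Λ) (h0 : AddSubgroup.closure {a | ∃ i j, a = p j - p i} = ⊤)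
    (h1 : ∀ i j, G.Pr (p j - p i))
    (h2 : ∀ i j k, G.Mt (p j - p i) → G.Mt (p k - p i) → p j = p k)
    (h3 : p 3 = p 2 ∨ ∀ i j, ¬G.Mt (p j - p i)) : G.Cells := by
  let φ : ℤ × ℤ × ℤ →+ Λ := AddMonoidHom.mk'
    (fun z => z.1 • (p 1 - p 0) + z.2.1 • (p 2 - p 1) + z.2.2 • (p 3 - p 2)) fun a b => by
      simp only [Prod.fst_add, Prod.snd_add]; module
  have e : ∀ i, p i = p 0 + φ (w i) := fun i => by fin_cases i <;> simp [φ, w]
  have d : ∀ i j, φ (w j - w i) = p j - p i := fun i j => by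
    rw [e i, e j, add_sub_add_left_eq_sub, map_sub]
  have a1 : ∀ i j, Cp i j → O2 G (φ (v j) - φ (v i)) := fun i j h => by
    rw [← map_sub]
    rcases d1 i j h with ⟨k, l, h⟩ | h | h <;> rw [h]
    · exact d k l ▸ of_pr (h1 _ _)
    · simpa [φ] using diag (h1 0 1) (h1 2 3) (h3.imp sub_eq_zero.2 fun h => ⟨h _ _, h _ _⟩)
    · simpa [φ] using diag (h1 1 0) (h1 3 2)
        (h3.imp (fun h => sub_eq_zero.2 h.symm) fun h => ⟨h _ _, h _ _⟩)
  have a2 : ∀ i j k, Cp i j → Cp i k → Cp j k → G.Mt (φ (v j) - φ (v i)) →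
      G.Mt (φ (v k) - φ (v i)) → φ (v j) = φ (v k) := fun i j k b1 b2 b3 b4 b5 => by
    rw [← map_sub] at b4 b5
    rcases h3 with h3 | h3
    · have b6 : ∀ {z z' : ℤ × ℤ × ℤ}, (z.1, z.2.1) = (z'.1, z'.2.1) → φ z = φ z' := fun h => by
        simp only [Prod.mk.injEq] at h
        simp [φ, h3, h.1, h.2]
      rw [← sub_left_inj (a := φ (v i)), ← map_sub, ← map_sub]
      obtain ⟨a, b, c, ⟨h, h'⟩ | ⟨h, h'⟩⟩ := d3 i j k b1 b2 b3 <;>
        rw [b6 h, d] at b4 ⊢ <;> rw [b6 h', d] at b5 ⊢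
      · rw [h2 _ _ _ b4 b5]
      · rw [h2 a.castSucc b.castSucc c.castSucc (G.mt_neg _ (by rwa [neg_sub]))
          (G.mt_neg _ (by rwa [neg_sub]))]
    · rw [d2 i j k ((d1 i j b1).resolve_left fun ⟨k, l, h⟩ => h3 _ _ (d k l ▸ h ▸ b4))
        ((d1 i k b2).resolve_left fun ⟨k, l, h⟩ => h3 _ _ (d k l ▸ h ▸ b5))]
  refine ⟨range (φ ∘ v), finite_range _, fun n a => ?_⟩
  obtain ⟨z, rfl⟩ : a ∈ φ.range := (AddSubgroup.closure_le _).2
    (by rintro _ ⟨i, j, rfl⟩; exact ⟨_, d i j⟩) (h0 ▸ AddSubgroup.mem_top a)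
  let ι : ℕ → Bool × Bool × Bool := fun t => (decide ((t : ℤ) < z.1 % (n + 1 : ℕ)),
    decide ((t : ℤ) < z.2.1 % (n + 1 : ℕ)), decide ((t : ℤ) < z.2.2 % (n + 1 : ℕ)))
  have a3 : ∀ s t, Cp (ι s) (ι t) := fun s t => by
    simp only [Cp, ι, Prod.mk_le_mk, Bool.le_iff_imp, decide_eq_true_eq]
    omega
  have a4 : ∀ x : ℤ, ∑ t ∈ Finset.range (n + 1), (decide ((t : ℤ) < x % (n + 1 : ℕ))).toInt =
      x % (n + 1 : ℕ) := fun x => sum_ind _ _ (Int.emod_nonneg _ (by omega))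
    (Int.emod_lt_of_pos _ (by omega)).le
  refine ⟨φ (z.1 / (n + 1 : ℕ), z.2.1 / (n + 1 : ℕ), z.2.2 / (n + 1 : ℕ)),
    (Finset.range (n + 1)).val.map fun t => φ (v (ι t)), by simp, ?_, ?_, ?_, ?_⟩
  · rw [← Finset.sum_eq_multiset_sum, ← map_sum, ← map_nsmul, ← map_add]
    congr 1
    ext <;> simp only [Prod.fst_add, Prod.snd_add, Prod.fst_sum, Prod.snd_sum, v, ι, a4,
      Prod.smul_mk, nsmul_eq_mul, Int.emod_add_mul_ediv]
  all_goals simp only [Multiset.mem_map]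
  · rintro _ ⟨t, -, rfl⟩
    exact ⟨_, rfl⟩
  · rintro _ ⟨s, -, rfl⟩ _ ⟨t, -, rfl⟩ h
    exact a1 _ _ (a3 s t) (sub_ne_zero.2 h.symm)
  · rintro _ ⟨s, -, rfl⟩ _ ⟨t, -, rfl⟩ _ ⟨u, -, rfl⟩
    exact a2 _ _ _ (a3 _ _) (a3 _ _) (a3 _ _)

end CEL_

theorem st_CEL (G : Geo B X Λ) : G.St_CEL := by
  rintro r P ⟨h0, h1, h2, h3, h4⟩
  refine CEL_.core (fun i => P ⟨min i r, by omega⟩) ?_ (fun _ _ => h2 _ _) (fun _ _ _ => h3 _ _ _) ?_
  · rw [eq_top_iff, ← h1]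
    refine AddSubgroup.closure_mono ?_
    rintro _ ⟨i, j, rfl⟩
    exact ⟨⟨i, by omega⟩, ⟨j, by omega⟩, by
      simp [min_eq_left (Nat.lt_succ_iff.1 i.2), min_eq_left (Nat.lt_succ_iff.1 j.2)]⟩
  · rcases h0.lt_or_eq with h | h
    · exact Or.inl (congrArg P (Fin.ext (by simp; omega)))
    · exact Or.inr fun _ _ => h4 h _ _

end Pool.Agent.Lib.EL
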