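import Pool.Agent.Lib.EL.KitG

open Set WithZero Polynomial Pool.Agent.Lib.MP_e39d36_ag Pool.Agent.Lib.MP_e39d36_ag.Var
  Pool.Agent.Lib.MV.End

set_option linter.unusedSectionVars false
set_option linter.unusedVariables false
set_option linter.style.haveILetI false

noncomputable section

namespace Pool.Agent.Lib.EL

attribute [local instance] Classical.propDecidable

variable {K F : Type} [Field K] [Field F] [Algebra ℂ K] [Algebra ℂ F] [Algebra K F]
  [IsScalarTower ℂ K F]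

theorem st_CH0 (M : Ell K F) : M.St_CH0 := by
  intro Φ C
  have hy := M.y_ne
  have hl := M.l_ne C
  have hO := Φ.horO
  have hle : M.X.O ((Φ.S 0).ξ C) ≤ M.X.O Φ.O.1 := Φ.S_zero ▸ (Φ.S 0).le C
  have hp := (Φ.S 0).p_ξ C
  have h0 : M.X.ord (M.l C) Φ.O.1 = 0 := hO.ord _
  have h1 : LocOf (Rg (algebraMap K F) (M.B.O C.1) (M.x / (M.l C * M.y)) (1 / (M.l C ^ 3 * M.y)))
      (M.X.O ((Φ.S 0).ξ C)) := by
    refine (M.wei' hp).resolve_left fun h => ?_
    have := ord_nonneg (hle (h.1 mem_rg.2.1))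
    rw [ord_mul (pow_ne_zero _ hl) M.x_ne, Var.ord_pow, Φ.toHz.ord_x, h0] at this
    omega
  obtain ⟨-, hs, ht⟩ := rg_le.1 h1.1
  have h2 : ∀ E : M.X.PD, M.X.ord (1 / (M.l C ^ 3 * M.y)) E.1 =
      -(3 * M.X.ord (M.l C) E.1 + M.X.ord M.y E.1) := fun E => by
    rw [one_div, ord_inv, ord_mul (pow_ne_zero _ hl) hy, Var.ord_pow]
    simp
  have h4 : Un (M.X.O ((Φ.S 0).ξ C)) (M.l C ^ 3 * M.y * (M.x / (M.l C * M.y)) ^ 3) := by
    have h5 := neg_mem (add_mem (mul_mem (M.l_mul_mem hp 4 (M.hf C)) hs)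
      (mul_mem (M.l_mul_mem hp 6 (M.hg C)) ht))
    have h6 := (M.X.isLoc _).add_un Un.one (mul_mem ht h5) fun h => by
      have := ord_un ((h.of_mul ht h5).mono hle)
      rw [h2, h0, Φ.toHz.ord_y] at this
      omega
    refine (congrArg _ ?_).mp h6
    field_simp
    linear_combination M.eqn
  have h5 : M.x / (M.l C * M.y) ≠ 0 := div_ne_zero M.x_ne (mul_ne_zero hl hy)
  refine ⟨h1, .mk' h5 fun E hE => ?_, h4⟩
  have h6 := ord_un (h4.mono hE)
  rw [ord_mul (mul_ne_zero (pow_ne_zero _ hl) hy) (pow_ne_zero _ h5),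
    ord_mul (pow_ne_zero _ hl) hy, Var.ord_pow, Var.ord_pow] at h6
  by_cases h7 : E = Φ.O
  · rw [h7, h0, Φ.toHz.ord_y] at h6
    rw [h7, Finsupp.single_eq_same]
    omega
  rw [Finsupp.single_eq_of_ne h7]
  rcases Φ.vert E with h8 | ⟨C', rfl⟩
  · have h9 := ord_nonneg (Φ.toHz.y_mem h8 h7)
    have h10 := ord_nonneg (hE hs)
    rw [show M.X.ord (M.l C) E.1 = 0 from h8.ord _] at h6
    omega
  · obtain rfl := Φ.toVt.eq_of_le hp hE
    rw [Φ.toVt.ord_l, Φ.toVt.ord_y] at h6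
    omega

end Pool.Agent.Lib.EL
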