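import Pool.Agent.Lib.EL.KitA
import Pool.Agent.Lib.PK1.DIMK

open Set WithZero Pool.Agent.Lib.MP_e39d36_ag Pool.Agent.Lib.MP_e39d36_ag.Var
  Pool.Agent.Lib.MV.End

set_option linter.unusedSectionVars false
set_option linter.unusedVariables false
set_option linter.style.haveILetI false

noncomputable section

namespace Pool.Agent.Lib.EL

namespace CUT_

lemma indep {A A' : Type} [CommRing A] [CommRing A'] [IsDomain A'] [Algebra ℂ A] [Algebra ℂ A']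
    (φ : A →ₐ[ℂ] A') (hφ : Function.Surjective φ) {d : ℕ} (hd : d ≤ Algebra.trdeg ℂ A') :
    ∃ a : Fin d → A, ∀ F : MvPolynomial (Fin d) ℂ, F ≠ 0 → φ (MvPolynomial.aeval a F) ≠ 0 := by
  obtain ⟨s, hs⟩ := exists_isTranscendenceBasis ℂ A'
  rw [← hs.cardinalMk_eq_trdeg, ← Cardinal.mk_fin d] at hd
  obtain ⟨e⟩ := (Cardinal.le_def _ _).1 hd
  choose a ha using fun j : Fin d => hφ (e j).1
  refine ⟨a, fun F hF h => hF ?_⟩
  have h1 := hs.1.comp e e.injective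
  refine algebraicIndependent_iff.1 h1 F ?_
  rw [← h, MvPolynomial.comp_aeval_apply]
  congr 2
  funext j
  exact (ha j).symm

lemma cut {A A' : Type} [CommRing A] [CommRing A'] [IsDomain A'] [Algebra ℂ A] [Algebra ℂ A']
    [Algebra.FiniteType ℂ A'] (φ : A →ₐ[ℂ] A') (hφ : Function.Surjective φ) (q : Ideal A)
    [q.IsPrime] (hq : RingHom.ker φ ≤ q) {g : A} (hg : g ∈ q) {d : ℕ}
    (hd : (d + 1 : ℕ) ≤ Algebra.trdeg ℂ A') :
    ∃ P : Ideal A, P.IsPrime ∧ RingHom.ker φ ≤ P ∧ P ≤ q ∧ g ∈ P ∧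
      ∃ a : Fin d → A, ∀ F : MvPolynomial (Fin d) ℂ, F ≠ 0 → MvPolynomial.aeval a F ∉ P := by
  haveI : (q.map φ).IsPrime := Ideal.map_isPrime_of_surjective hφ hq
  obtain ⟨P, h1, h2⟩ := Ideal.exists_minimalPrimes_le (I := Ideal.span {φ g}) (J := q.map φ)
    ((Ideal.span_singleton_le_iff_mem _).2 (Ideal.mem_map_of_mem _ hg))
  haveI := h1.isPrime
  haveI : IsNoetherianRing A' := Algebra.FiniteType.isNoetherianRing ℂ A'
  obtain ⟨n, hn⟩ := PK1.DIMK.exists_trdeg (k := ℂ) (A := A')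
  obtain ⟨a, m, h3, h4, h5⟩ := PK1.DIMK.exists_height P hn
  have h6 : P.height ≤ 1 := Ideal.height_le_one_of_isPrincipal_of_mem_minimalPrimes _ _ h1
  rw [h3, Nat.cast_le_one] at h6
  rw [hn, Nat.cast_le] at hd
  obtain ⟨b, hb⟩ := indep ((Ideal.Quotient.mkₐ ℂ P).comp φ)
    ((Ideal.Quotient.mkₐ_surjective ℂ P).comp hφ) (d := d) (by rw [h4, Nat.cast_le]; omega)
  refine ⟨P.comap φ, inferInstance, fun z hz => ?_, ?_,
    h1.1.2 (Ideal.mem_span_singleton_self _), b, fun F hF h => hb F hF ?_⟩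
  · rw [Ideal.mem_comap, RingHom.mem_ker.1 hz]
    exact P.zero_mem
  · refine (Ideal.comap_mono h2).trans ?_
    rw [Ideal.comap_map_of_surjective _ hφ]
    exact sup_le le_rfl hq
  · exact Ideal.Quotient.eq_zero_iff_mem.2 h

end CUT_

variable {K : Type} [Field K] [Algebra ℂ K]

theorem st_CUT (Y : Var K) : St_CUT Y := by
  intro Q m d G x s hG hx hxs hs
  have hi := ch_spec x
  have hi' := locOf_of_le (hi.1.trans hxs)
  let γ := CMap.res s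
  let ψ : Y.A (ch x) →ₐ[ℂ] _ := ⟨γ.hom.comp (Subring.inclusion hi'.1), γ.const⟩
  have hfr : ∀ z, ∃ a ∈ ψ.range, ∃ b ∈ ψ.range, b ≠ 0 ∧ z * b = a := fun z => by
    obtain ⟨a, ha, rfl⟩ := CMap.res_surj s z
    obtain ⟨b, h1, h2, h3⟩ := hi'.2 a ha
    exact ⟨_, ⟨⟨_, h3⟩, rfl⟩, _, ⟨⟨b, h1⟩, rfl⟩, CMap.τ_ne (γ := γ) h2,
      (mul_comm _ _).trans (γ.mul _ h2.2.1 _ ha).symm⟩
  haveI : Algebra.FiniteType ℂ (Y.A (ch x)) := ⟨(Subalgebra.fg_top _).2 (Y.fg _)⟩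
  haveI : Algebra.FiniteType ℂ ψ.range :=
    Algebra.FiniteType.of_surjective ψ.rangeRestrict ψ.rangeRestrict_surjective
  have hd := Indep.le_trdeg γ hs
  rw [← PK1.DIMK.trdeg_sub ψ.range hfr] at hd
  have hk : ∀ b : Y.A (ch x), Un (Y.O s) b → b ∉ RingHom.ker ψ.rangeRestrict := fun b hb h =>
    CMap.τ_ne (γ := γ) hb (congrArg Subtype.val (RingHom.mem_ker.1 h))
  have hk' : ∀ b : Y.A (ch x), b ∉ RingHom.ker ψ.rangeRestrict → Un (Y.O s) b := fun b h =>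
    CMap.un_of_ne (γ := γ) (hi'.1 b.2) fun h1 => h (RingHom.mem_ker.2 (Subtype.ext h1))
  obtain ⟨P, h1, h2, h3, h4, a, h5⟩ := @CUT_.cut _ _ _ _ _ _ _ _ ψ.rangeRestrict
    ψ.rangeRestrict_surjective (mx (Y.isLoc x) hi.1)
    (inferInstanceAs (mx (Y.isLoc x) hi.1).IsPrime) (fun b hb hu => hk b (hu.mono hxs) hb)
    ⟨_, Q.div_mem hG (ch x)⟩ (fun hu => (Q.notMem_van hG hi.1).2 hu hx) d hd
  obtain ⟨t, h6, h7⟩ := @exists_pt_prime _ _ _ Y (ch x) P h1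
  refine ⟨t, hi.le h6.1 fun b hb hu => (h7 ⟨b, hb⟩).2 fun h => h3 h hu,
    h6.le hi'.1 fun b hb hu => hk' ⟨b, hb⟩ fun h => (h7 ⟨b, hb⟩).1 hu (h2 h),
    of_not_not fun h => (h7 ⟨_, Q.div_mem hG (ch x)⟩).1 ((Q.notMem_van hG h6.1).1 h) h4,
    fun j => a j, fun j => h6.1 (a j).2, fun F hF => ?_⟩
  have := (h7 (MvPolynomial.aeval a F : Y.A (ch x))).2 (h5 F hF)
  exact MvPolynomial.comp_aeval_apply a (Y.A (ch x)).val F ▸ this

end Pool.Agent.Lib.EL
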