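import Pool.Agent.Lib.EL.KitG

open Set WithZero Polynomial Pool.Agent.Lib.MP_e39d36_ag Pool.Agent.Lib.MP_e39d36_ag.Var
  Pool.Agent.Lib.MV.End

set_option linter.unusedSectionVars false
set_option linter.unusedVariables false
set_option linter.style.haveILetI false

noncomputable section

namespace Pool.Agent.Lib.EL

attribute [local instance] Classical.propDecidable

variable {K F : Type} [Field K] [Field F] [Algebra ℂ K] [Algebra ℂ F] [Algebra K F]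
  [IsScalarTower ℂ K F]

namespace EQV_

variable {Y : Var F} {ξ η : Y.Pt} {V : Y.PD}

lemma mul_nu {u w : F} (h1 : u ∈ Y.O η) (h2 : w ∈ Y.nu η) : u * w ∈ Y.nu η :=
  ⟨mul_mem h1 h2.1, fun h3 => h2.2 (h3.of_mul' h1 h2.1)⟩

/-- The local ring of a point plus the maximal ideal of a prime through it. -/
def ring (h : Y.O ξ ≤ Y.O V.1) : Subring F where
  carrier := {w | ∃ o ∈ Y.O ξ, w - o ∈ Y.nu V.1}
  zero_mem' := ⟨0, zero_mem _, by simp⟩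
  one_mem' := ⟨1, one_mem _, by simp⟩
  add_mem' := by
    rintro a b ⟨o, h1, h2⟩ ⟨o', h3, h4⟩
    exact ⟨_, add_mem h1 h3, add_sub_add_comm a b o o' ▸ add_mem h2 h4⟩
  neg_mem' := by
    rintro a ⟨o, h1, h2⟩
    exact ⟨_, neg_mem h1, by simpa only [neg_sub_neg, neg_sub] using neg_mem h2⟩
  mul_mem' := by
    rintro a b ⟨o, h1, h2⟩ ⟨o', h3, h4⟩
    refine ⟨_, mul_mem h1 h3, (congrArg (· ∈ _) ?_).mp (add_mem (mul_nu (h h1) h4)
      (mul_nu (add_mem h4.1 (h h3)) h2))⟩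
    ring

lemma pos {W : Subring F} (h1 : Y.O ξ ≤ W) (h2 : ∀ n ∈ Y.nu V.1, n ∈ W) (h3 : Y.O ξ ≤ Y.O V.1)
    {t w u : F} {n : ℤ} (ht : t ∈ Y.O ξ) (ht' : Un (Y.O V.1) t) (hw : Un (Y.O V.1) w)
    (hu : Un (Y.O ξ) u) (h : w - u * t ^ n ∈ Y.nu V.1) : w / t ∈ W ∨ w⁻¹ ∈ W := by
  rcases le_or_gt n 0 with hn | hn
  · obtain ⟨k, rfl⟩ := Int.exists_eq_neg_ofNat hn
    have h4 := mul_mem hu.2.2 (pow_mem ht k)
    refine Or.inr ((congrArg (· ∈ W) ?_).mp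
      (sub_mem (h1 h4) (h2 _ (mul_nu (mul_mem hw.2.2 (h3 h4)) h))))
    have := hw.1
    have := hu.1
    have := ht'.1
    rw [zpow_neg, zpow_natCast]
    field_simp
    ring
  · obtain ⟨k, rfl⟩ := Int.eq_succ_of_zero_lt hn
    refine Or.inl ((congrArg (· ∈ W) ?_).mp
      (add_mem (h1 (mul_mem hu.2.1 (pow_mem ht k))) (h2 _ (mul_nu ht'.2.2 h))))
    have := ht'.1
    rw [zpow_add_one₀ this, zpow_natCast]
    field_simp
    ring

end EQV_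

open EQV_ in
theorem st_EQV (M : Ell K F) : M.St_EQV := by
  rintro hF Φ e c0 ⟨p1, p2, p3, p4, p5⟩ a C
  obtain ⟨c1, c2, c3⟩ := c0 C
  obtain ⟨hV, f0⟩ := hF (Φ.S 0) Φ.toVt C
  obtain ⟨hV', f1⟩ := hF (Φ.S a) Φ.toVt C
  have hy := M.y_ne
  have hl := M.l_ne C
  obtain ⟨-, hs, ht⟩ := rg_le.1 c1.1
  set s := M.x / (M.l C * M.y) with es
  have hO : M.X.O ((Φ.S 0).ξ C) ≤ M.X.O Φ.O.1 := Φ.S_zero ▸ (Φ.S 0).le C
  have s0 : ¬Un (M.X.O ((Φ.S 0).ξ C)) s := fun h => by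
    have := ord_un (h.mono hO)
    rw [← c2.eq hO, Finsupp.single_eq_same] at this
    omega
  have s1 : Un (M.X.O (Φ.V C).1) s := un_iff_ord.2 ⟨c2.1, by
    rw [← c2.eq hV, Finsupp.single_eq_of_ne (Φ.toVt.hor_iff.1 Φ.horO C).symm]⟩
  have r1 : M.X.O ((Φ.S 0).ξ C) ≤ ring hV := fun o h => ⟨o, h, by simp⟩
  have r2 : ∀ n ∈ M.X.nu (Φ.V C).1, n ∈ ring hV := fun n h => ⟨0, zero_mem _, by simpa using h⟩
  have r3 : ∀ w ∈ M.X.O ((Φ.S 0).ξ C), w⁻¹ ∈ ring hV → w ≠ 0 → Un (M.X.O (Φ.V C).1) w →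
      Un (M.X.O ((Φ.S 0).ξ C)) w := by
    rintro w h1 ⟨o, h2, h3⟩ h0 h4
    refine Un.of_mul (((M.X.isLoc _) _ (mul_mem h1 h2)).resolve_right fun h5 => ?_) h1 h2
    exact (mul_nu h4.2.1 h3).2 (by rw [mul_sub, mul_inv_cancel₀ h0]; exact h5.mono hV)
  have r4 : ∀ w, Un (M.X.O (Φ.V C).1) w → w / s ∈ ring hV ∨ w⁻¹ ∈ ring hV := fun w hw => by
    obtain ⟨n, u, h1, h2⟩ := f0 s (Φ.S_zero ▸ c2) w hw
    exact pos r1 r2 hV hs s1 hw h1 h2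
  have r5 : ∀ w, w ∈ ring hV ∨ w⁻¹ ∈ ring hV := fun w => by
    by_cases h0 : w = 0
    · simp [h0]
    rcases lt_trichotomy (M.X.ord w (Φ.V C).1) 0 with h | h | h
    · exact Or.inr (r2 _ (ordGe_one.1 (Or.inr (by rw [ord_inv]; omega))))
    · exact (r4 w (un_iff_ord.2 ⟨h0, h⟩)).imp_left fun h1 => by
        simpa [c2.1] using mul_mem h1 (r1 hs)
    · exact Or.inl (r2 _ (ordGe_one.1 (Or.inr h)))
  let σ := Φ.τ a
  let τ := Φ.τ (-a)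
  have t1 : ∀ w, σ (τ w) = w := fun w => by
    rw [← AlgEquiv.mul_apply, ← Φ.τ_add, add_neg_cancel, Φ.τ_zero, AlgEquiv.one_apply]
  have t2 : ∀ w (E : M.X.PD), M.X.ord (σ w) (e a E).1 = M.X.ord w E.1 := (p1 a).2
  have t3 : ∀ w (E : M.X.PD), M.X.ord (τ w) E.1 = M.X.ord w (e a E).1 := fun w E => by
    rw [← t2, t1]
  have t4 : ∀ w n, σ w ∈ ordGe (Φ.V C) n ↔ w ∈ ordGe (Φ.V C) n := fun w n => by
    rw [mem_ordGe, mem_ordGe, ← t2 w, p3, map_eq_zero]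
  have t5 : ∀ w, Un (M.X.O (Φ.V C).1) (σ w) ↔ Un (M.X.O (Φ.V C).1) w := fun w => by
    rw [un_iff_ord, un_iff_ord, ← t2 w, p3, _root_.map_ne_zero]
  let W : ValuationSubring F :=
    ⟨(ring hV).comap σ.toRingEquiv.toRingHom, fun w => by simpa using r5 (σ w)⟩
  have w0 : ∀ w, w ∈ W.toSubring ↔ σ w ∈ ring hV := fun _ => Iff.rfl
  have w1 : ∀ n ∈ M.X.nu (Φ.V C).1, n ∈ W.toSubring := fun n h =>
    r2 _ (ordGe_one.1 ((t4 _ _).2 (ordGe_one.2 h)))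
  have w2 : ∀ c, algebraMap K F c ∈ W.toSubring ↔ c ∈ M.B.O C.1 := fun c => by
    rw [w0, σ.commutes]
    refine ⟨fun ⟨o, h1, h2⟩ => ?_, fun h => r1 ((Φ.S 0).θ_mem h)⟩
    rw [← ordGe_zero, ← Φ.toVt.θ_ordGe, ordGe_zero]
    simpa using add_mem h2.1 (hV h1)
  obtain ⟨η, hη⟩ := M.X.exists_ctr_val W fun c => by
    rw [IsScalarTower.algebraMap_apply ℂ K F]
    exact (w2 _).2 (M.B.const_mem _ c)
  have e1 : M.p η = C.1 := M.B.sep _ _ _ (M.B.isLoc C.1)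
    (Subring.ext (S := W.toSubring.comap (algebraMap K F)) w2 ▸ (M.dom η).trans
      ⟨fun _ h => hη.1 h, fun z hz hu => un_comap.2 (hη.2 _ hz (un_comap.1 hu))⟩) Dom.refl
  have e2 : e a (Φ.S a).E = Φ.O := by rw [p2, sub_self, Φ.S_zero]
  have hx' := mul_ne_zero (pow_ne_zero 2 hl) M.x_ne
  have hy' := mul_ne_zero (pow_ne_zero 3 hl) hy
  have e3 : ∀ E : M.X.PD, M.X.O η ≤ M.X.O E.1 → -2 * Φ.s a E ≤ M.X.ord (τ (M.l C ^ 2 * M.x)) E.1 ∧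
      -3 * Φ.s a E ≤ M.X.ord (τ (M.l C ^ 3 * M.y)) E.1 := fun E hE => by
    rw [t3, t3, ord_mul (pow_ne_zero 2 hl) M.x_ne, ord_mul (pow_ne_zero 3 hl) hy, Var.ord_pow,
      Var.ord_pow]
    by_cases h : E = (Φ.S a).E
    · rw [h, e2, Finsupp.single_eq_same, Φ.toHz.ord_x, Φ.toHz.ord_y, Ell.l, Φ.horO.ord]
      omega
    rw [Finsupp.single_eq_of_ne h]
    rcases Φ.vert (e a E) with h1 | ⟨C', h1⟩
    · have h2 : e a E ≠ Φ.O := fun h2 => h ((e a).injective (h2.trans e2.symm))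
      have h3 := ord_nonneg (Φ.toHz.x_mem h1 h2)
      have h4 := ord_nonneg (Φ.toHz.y_mem h1 h2)
      rw [Ell.l, h1.ord]
      omega
    · obtain rfl := (e a).injective (h1.trans (p3 a C').symm)
      obtain rfl := Φ.toVt.eq_of_le e1 hE
      rw [p3, Φ.toVt.ord_l, Φ.toVt.ord_x, Φ.toVt.ord_y]
      omega
  have s2 : s⁻¹ ∉ ring hV := fun h => s0 (r3 s hs h c2.1 s1)
  have e4 : η = (Φ.S a).ξ C := (Φ.S a).uniq C η (of_not_not fun h => by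
    have h1 := (w0 _).1 (hη.1 (hartogs (f := τ (M.l C ^ 2 * M.x)) fun E hE => by
      simpa [Finsupp.single_eq_of_ne fun h1 : E = (Φ.S a).E => h (h1 ▸ hE)] using (e3 E hE).1))
    rw [t1] at h1
    refine s2 ((congrArg (· ∈ _) ?_).mp (mul_mem (mul_mem h1 (r1 hs)) (r1 c3.2.2)))
    have := M.x_ne
    rw [es]
    field_simp) e1
  subst e4
  have q1 := (M.cX (Φ.s a)).lf ((Φ.S a).ξ C)
  set r := lf (Φ.s a) ((Φ.S a).ξ C)
  have q2 := q1.mem (Finsupp.single_nonneg.2 zero_le_one)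
  have q3 : Un (M.X.O (Φ.V C).1) r := un_iff_ord.2 ⟨q1.1, by
    rw [← q1.eq hV', Finsupp.single_eq_of_ne (Φ.toVt.hor_iff.1 (Φ.S a).hor C).symm]⟩
  have q4 : r / τ s ∈ W.toSubring := by
    rw [w0, map_div₀, t1]
    refine (r4 _ ((t5 r).2 q3)).resolve_right fun h => ?_
    have := ord_un ((hη.2 r q2 ⟨q1.1, hη.1 q2, (w0 _).2 (by rwa [map_inv₀])⟩).mono ((Φ.S a).le C))
    rw [← q1.eq ((Φ.S a).le C), Finsupp.single_eq_same] at this
    omega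
  have q5 : Un (M.X.O (Φ.V C).1) (τ s) := (t5 _).1 (by rwa [t1])
  have q6 : τ s / r ∈ W.toSubring := by
    obtain ⟨n, u, h1, h2⟩ := f1 r q1 _ q5
    exact (pos hη.1 w1 hV' q2 q3 q5 h1 h2).resolve_right fun h => s2 (by
      simpa only [w0, map_inv₀, t1] using h)
  have q7 : ∀ (n : ℕ) w, w ≠ 0 → (∀ E : M.X.PD, M.X.O ((Φ.S a).ξ C) ≤ M.X.O E.1 →
      -n * Φ.s a E ≤ M.X.ord (τ w) E.1) → r ^ n * τ w ∈ M.X.O ((Φ.S a).ξ C) :=
    fun n w h0 h => hartogs fun E hE => by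
      have := h E hE
      rw [ord_mul (pow_ne_zero _ q1.1) ((_root_.map_ne_zero τ).2 h0), Var.ord_pow, ← q1.eq hE]
      linarith
  have q8 := q7 2 _ hx' fun E hE => (e3 E hE).1
  have q9 : ∀ w, Un (M.X.O ((Φ.S 0).ξ C)) w → Un W.toSubring (τ w) := fun w h =>
    ⟨(_root_.map_ne_zero τ).2 h.1, (w0 _).2 ((t1 w).symm ▸ r1 h.2.1), (w0 _).2 (by
      rw [map_inv₀, t1]; exact r1 h.2.2)⟩
  have q10 := hη.2 _ (q7 3 _ hy' fun E hE => (e3 E hE).2) (by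
    refine (congrArg _ ?_).mp ((Un.pow ⟨div_ne_zero q1.1 q5.1, q4, by rwa [inv_div]⟩ 3).mul
      (q9 _ c3))
    have := q5.1
    rw [map_mul τ _ (s ^ 3), map_pow τ s]
    field_simp)
  have q11 := (_root_.map_ne_zero τ).2 hy'
  have q12 := q1.1
  have q13 : Rg (algebraMap K F) (M.B.O C.1) s (1 / (M.l C ^ 3 * M.y)) ≤
      (M.X.O ((Φ.S a).ξ C)).comap τ.toRingEquiv.toRingHom := by
    refine rg_le.2 ⟨fun c hc => ?_, ?_, ?_⟩
    · exact (congrArg (· ∈ _) (τ.commutes c)).mpr ((Φ.S a).θ_mem hc)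
    · change τ _ ∈ M.X.O _
      refine (congrArg (· ∈ _) ?_).mp (q10.div_mem (mul_mem q2 q8))
      rw [show s = M.l C ^ 2 * M.x / (M.l C ^ 3 * M.y) by rw [es]; field_simp, map_div₀]
      field_simp
    · change τ _ ∈ M.X.O _
      refine (congrArg (· ∈ _) ?_).mp (q10.div_mem (pow_mem q2 3))
      rw [map_div₀, map_one]
      field_simp
  exact c1.le q13 fun b hb hu => un_comap.2 (hη.2 _ (q13 hb) (q9 b hu))

end Pool.Agent.Lib.EL
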