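import Pool.Agent.Lib.EL.KitA

open Set WithZero Pool.Agent.Lib.MP_e39d36_ag Pool.Agent.Lib.MP_e39d36_ag.Var
  Pool.Agent.Lib.MV.End Pool.Agent.Lib.MP_cc3443_ag

set_option linter.unusedSectionVars false
set_option linter.unusedVariables false
set_option linter.style.haveILetI false

noncomputable section

namespace Pool.Agent.Lib.EL

variable {K F : Type} [Field K] [Field F] [Algebra ℂ K] [Algebra ℂ F]

namespace EXZ_

theorem const {z : F} (h : ∀ P : Place F, z ∈ P.O) : z ∈ (algebraMap ℂ F).range := by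
  have h1 : IsIntegral (algebraMap ℂ F).range z := isIntegral_of_val fun V hV => by
    by_cases h0 : V = ⊤
    · rw [h0]
      exact ValuationSubring.mem_top z
    · exact h ⟨V, h0, fun a => hV ⟨a, rfl⟩⟩
  letI : Algebra ℂ (algebraMap ℂ F).range := (algebraMap ℂ F).rangeRestrict.toAlgebra
  haveI : IsScalarTower ℂ (algebraMap ℂ F).range F := IsScalarTower.of_algebraMap_eq fun _ => rfl
  haveI : Algebra.IsIntegral ℂ (algebraMap ℂ F).range :=
    Algebra.isIntegral_of_surjective (algebraMap ℂ F).rangeRestrict_surjective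
  have h2 : IsIntegral ℂ z := isIntegral_trans z h1
  exact minpoly.mem_range_of_degree_eq_one ℂ z
    (IsAlgClosed.degree_eq_one_of_irreducible ℂ (minpoly.irreducible h2))

variable {Y : Var K} (γ : CMap Y F)

/-- Functions with a constant value. -/
def Cn : Subring K := ((algebraMap ℂ F).range.comap γ.hom).map (Y.O γ.c).subtype

theorem mem_Cn {a : K} : a ∈ Cn γ ↔ a ∈ Y.O γ.c ∧ γ.τ a ∈ (algebraMap ℂ F).range :=
  ⟨by rintro ⟨b, hb, rfl⟩; exact ⟨b.2, hb⟩, fun h => ⟨⟨a, h.1⟩, h.2, rfl⟩⟩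

theorem un_Cn {a : K} (h : a ∈ Cn γ) (hu : Un (Y.O γ.c) a) : Un (Cn γ) a := by
  obtain ⟨c, hc⟩ := ((mem_Cn γ).1 h).2
  exact ⟨hu.1, h, (mem_Cn γ).2 ⟨hu.2.2, c⁻¹, by rw [CMap.τ_inv' hu, map_inv₀, hc]⟩⟩

theorem main (Q : Prj Y) {G : K} (hG : G ∈ Q.Fm 1) (h : Indep γ.c 1) :
    ∃ x, Y.O x ≤ Y.O γ.c ∧ G ∈ Q.van 1 x := by
  by_contra! h0
  have h1 : ∀ x, Y.O x ≤ Y.O γ.c → Un (Y.O x) (G / Q.y (ch x)) := fun x hx => by
    simpa using (Q.notMem_van hG (ch_spec x).1).1 (h0 x hx)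
  have h2 : ∀ x, Y.O x ≤ Y.O γ.c → ∀ j, Q.y j / G ∈ Y.O x := fun x hx j => by
    have := (h1 x hx).div_mem ((ch_spec x).1 (Q.mem (ch x) j))
    rwa [div_div_div_cancel_right₀ (Q.ne _)] at this
  have h3 : ∀ j, Q.y j / G ∈ Cn γ := fun j => (mem_Cn γ).2 ⟨h2 _ le_rfl j, const fun P =>
    (CMap.mem_T.1 ((γ.dom_ctr P).1 (h2 _ (γ.ctr_le P) j))).2⟩
  have h4 : Un (Cn γ) (Q.y (ch γ.c) / G) := un_Cn γ (h3 _) (inv_div G _ ▸ (h1 _ le_rfl).inv)
  have h5 : (Y.A (ch γ.c)).toSubring ≤ Cn γ := by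
    rw [Q.A_eq]
    refine chA_le (fun a => (mem_Cn γ).2 ⟨Y.const_mem _ a, a, (γ.const a).symm⟩) fun j => ?_
    have := h4.div_mem (h3 j)
    rwa [div_div_div_cancel_right₀ (div_ne_zero_iff.1 h4.1).2] at this
  have h6 : Y.O γ.c ≤ Cn γ := (ch_spec γ.c).le h5 fun b hb hu => un_Cn γ (h5 hb) hu
  obtain ⟨a, h7, h8⟩ := h
  obtain ⟨c, hc⟩ := ((mem_Cn γ).1 (h6 (h7 0))).2
  have h9 := h8 (MvPolynomial.X 0 - MvPolynomial.C c) fun h => by
    simpa using congrArg (MvPolynomial.eval fun _ => c + 1) h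
  rw [map_sub, MvPolynomial.aeval_X, MvPolynomial.aeval_C] at h9
  refine CMap.τ_ne h9 ((γ.hom.map_sub ⟨_, h7 0⟩ ⟨_, Y.const_mem _ c⟩).trans (sub_eq_zero.2 ?_))
  exact hc.symm.trans (γ.const c).symm

end EXZ_

theorem st_EXZ (Y : Var K) : St_EXZ Y := fun Q _ s hG h => EXZ_.main (CMap.res s) Q hG h

end Pool.Agent.Lib.EL
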