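import Pool.Agent.Lib.EL.KitG

open Set WithZero Polynomial Pool.Agent.Lib.MP_e39d36_ag Pool.Agent.Lib.MP_e39d36_ag.Var
  Pool.Agent.Lib.MV.End

set_option linter.unusedSectionVars false
set_option linter.unusedVariables false
set_option linter.style.haveILetI false

noncomputable section

namespace Pool.Agent.Lib.EL

attribute [local instance] Classical.propDecidable

variable {K F : Type} [Field K] [Field F] [Algebra ℂ K] [Algebra ℂ F] [Algebra K F]
  [IsScalarTower ℂ K F]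

namespace FIB_

variable {M : Ell K F} (S : M.Sec) (v : M.Vt) (C : M.B.PD)

lemma ord_eq {E : M.X.PD} (hE : M.X.O (S.ξ C) ≤ M.X.O E.1) (h : E ≠ v.V C) (a : K) :
    M.X.ord (algebraMap K F a) E.1 = 0 := by
  rcases v.vert E with h1 | ⟨C', rfl⟩
  · exact h1.ord a
  · exact absurd (congrArg v.V (v.eq_of_le (S.p_ξ C) hE)).symm h

lemma le : M.X.O (S.ξ C) ≤ M.X.O (v.V C).1 := of_not_not fun h => by
  obtain ⟨a, -, h1⟩ := exists_ord C (-1)
  have h2 : algebraMap K F a ∈ M.X.O (S.ξ C) :=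
    hartogs fun E hE => (ord_eq S v C hE fun h2 => h (h2 ▸ hE)) a |>.ge
  have h3 := ord_nonneg (S.res a ▸ S.mem C _ h2)
  omega

end FIB_

open FIB_ in
theorem st_FIB (M : Ell K F) : M.St_FIB := by
  intro S v C
  have hle := le S v C
  refine ⟨hle, fun t ht => ?_⟩
  obtain ⟨π, h0, h1⟩ := exists_ord C 1
  have htm := ht.mem (Finsupp.single_nonneg.2 zero_le_one)
  have htu : Un (M.X.O (v.V C).1) t := un_iff_ord.2 ⟨ht.1, by
    rw [← ht.eq hle, Finsupp.single_eq_of_ne (v.hor_iff.1 S.hor C).symm]⟩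
  have htn : ¬Un (M.X.O (S.ξ C)) t := fun h => by
    have := ord_un (h.mono (S.le C))
    rw [← ht.eq (S.le C), Finsupp.single_eq_same] at this
    omega
  let J : Ideal (M.X.O (S.ξ C)) := mx (M.X.isLoc _) hle
  have key : ∀ (I : Ideal (M.X.O (S.ξ C))) (a : M.X.O (S.ξ C)), I = J ⊔ Ideal.span {a} → a ∉ J →
      ∃ (n : ℕ) (u : F), Un (M.X.O (S.ξ C)) u ∧ a - u * t ^ n ∈ M.X.nu (v.V C).1 := by
    intro I
    induction I using IsNoetherian.induction with
    | hgt I ih =>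
    rintro a rfl ha
    by_cases h2 : Un (M.X.O (S.ξ C)) a
    · exact ⟨0, a, h2, by simp⟩
    obtain ⟨b, h3, h4⟩ := S.exists_eq ht a.2
    have h5 : algebraMap K F (S.γ.τ a) ∈ M.X.nu (v.V C).1 := by
      rw [← ordGe_one, v.θ_ordGe, ordGe_one]
      exact ⟨S.mem C _ a.2, fun h => h2 (S.un C _ a.2 h)⟩
    have h6 : a - ⟨t, htm⟩ * ⟨b, h3⟩ ∈ J := by
      rw [← sub_eq_iff_eq_add] at h4
      exact (h4 ▸ h5).2
    have h7 : (⟨b, h3⟩ : M.X.O (S.ξ C)) ∉ J := fun h =>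
      ha (by simpa using add_mem h6 (J.mul_mem_left ⟨t, htm⟩ h))
    obtain ⟨n, u, h8, h9⟩ := ih (J ⊔ Ideal.span {⟨b, h3⟩}) (lt_of_le_of_ne (sup_le le_sup_left (by
      rw [Ideal.span_singleton_le_iff_mem, ← sub_add_cancel a (⟨t, htm⟩ * ⟨b, h3⟩)]
      exact add_mem (Ideal.mem_sup_left h6) (Ideal.mem_sup_right
        (Ideal.mul_mem_left _ _ (Ideal.mem_span_singleton_self _))))) fun h => by
      obtain ⟨c, j, a1, a2⟩ := Ideal.mem_span_singleton_sup.1 (sup_comm J _ ▸ h ▸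
        Ideal.mem_sup_right (Ideal.mem_span_singleton_self (⟨b, h3⟩ : M.X.O (S.ξ C))))
      have a3 : (1 - c * ⟨t, htm⟩) * ⟨b, h3⟩ ∈ J := by
        have := add_mem (J.mul_mem_left c h6) a1
        rwa [show c * (a - ⟨t, htm⟩ * ⟨b, h3⟩) + j = (1 - c * ⟨t, htm⟩) * ⟨b, h3⟩ by
          linear_combination a2] at this
      refine ((inferInstance : J.IsPrime).mem_or_mem a3).resolve_right h7 (Un.mono ?_ hle)
      exact ((M.X.isLoc _) _ (mul_mem c.2 htm)).resolve_left fun h => htn (h.of_mul' c.2 htm))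
      _ rfl h7
    refine ⟨n + 1, u, h8, ?_⟩
    rw [← ordGe_one] at h5 h9 ⊢
    have := add_mem h5 (mul_ordGe (ordGe_zero.2 htu.2.1) h9)
    rwa [show algebraMap K F (S.γ.τ a) + t * (b - u * t ^ n) = a - u * t ^ (n + 1) by
      linear_combination -h4] at this
  intro w hw
  obtain ⟨b, h2, h3, h4⟩ := (locOf_of_sp hle).2 w hw.2.1
  obtain ⟨m, u, h5, h6⟩ := key _ ⟨b, h2⟩ rfl (not_not.2 h3)
  obtain ⟨n, u', h7, h8⟩ := key _ ⟨_, h4⟩ rfl (not_not.2 (h3.mul hw))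
  refine ⟨n - m, u' / u, h7.div h5, ?_⟩
  rw [← ordGe_one] at h6 h8 ⊢
  have h9 := ((h5.mono hle).mul (htu.pow m)).inv
  have := mul_ordGe (ordGe_zero.2 h9.2.1) (sub_mem h8 (mul_ordGe (ordGe_zero.2 hw.2.1) h6))
  refine (congrArg (· ∈ _) ?_).mp this
  have := h5.1
  have := ht.1
  rw [zpow_sub₀ ht.1]
  simp only [zpow_natCast]
  field_simp
  ring

end Pool.Agent.Lib.EL
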