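import Pool.Agent.Lib.EL.KitA

open Set WithZero Pool.Agent.Lib.MP_e39d36_ag Pool.Agent.Lib.MP_e39d36_ag.Var
  Pool.Agent.Lib.MV.End
open scoped NNReal

set_option linter.unusedSectionVars false
set_option linter.unusedVariables false
set_option linter.style.haveILetI false

noncomputable section

namespace Pool.Agent.Lib.EL

variable {K F : Type} [Field K] [Field F] [Algebra ℂ K] [Algebra ℂ F] {B : Var K} {X : Var F}
  {Λ : Type} [AddCommGroup Λ]

namespace GOOD_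

variable (G : Geo B X Λ)

/-- Effective, off the zero section. -/
def Z (D : Dv X) : Prop := 0 ≤ D ∧ D (G.σ 0) = 0 ∧ G.rs D = 0

open Classical in
lemma core {P : Dv X → Prop} (g : ℕ → Λ → Dv X) (b : ℕ → Dv X)
    (hb : ∀ i, i = 2 ∨ i = 3 → P (b i) ∧ ∃ N, LE (b i) (i • G.s 0 + G.pb N)) (m : Multiset Λ)
    (h : ∀ c ∈ m, (¬G.Mt c → P (G.s c)) ∧ ∀ i, i = 1 ∨ i = 2 → P (g i c) ∧
      ∃ N, LE (g i c) (i • G.s 0 + G.s c + G.pb N)) (μ : ℕ) (h1 : m.countP G.Mt ≤ μ)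
    (h2 : μ = 1 → m ≠ 0) : ∃ (n : Multiset (Dv X)) (N : Dv B), (∀ D ∈ n, P D) ∧
      LE n.sum (μ • G.s 0 + G.A m + G.pb N) := by
  induction m using Multiset.induction_on generalizing μ with
  | empty =>
    obtain ⟨i, j, rfl⟩ : ∃ i j, μ = i * 2 + j * 3 := by
      have : μ ≠ 1 := fun h => h2 h rfl
      rcases Nat.even_or_odd' μ with ⟨k, h | h⟩
      exacts [⟨k, 0, by omega⟩, ⟨k - 1, 1, by omega⟩]
    obtain ⟨a1, N, a2⟩ := hb 2 (Or.inl rfl)
    obtain ⟨a3, N', a4⟩ := hb 3 (Or.inr rfl)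
    refine ⟨Multiset.replicate i (b 2) + Multiset.replicate j (b 3), i • N + j • N', fun D hD => ?_,
      ?_⟩
    · rcases Multiset.mem_add.1 hD with h | h <;> rwa [Multiset.eq_of_mem_replicate h]
    · rw [Multiset.sum_add, Multiset.sum_replicate, Multiset.sum_replicate]
      refine ((le_nsmul a2 i).add (le_nsmul a4 j)).trans (LE.of_eq ?_)
      simp only [map_add, map_nsmul, Geo.A_zero]
      module
  | cons c m ih =>
    obtain ⟨a1, a2⟩ := h c (Multiset.mem_cons_self _ _)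
    replace ih := ih fun d hd => h d (Multiset.mem_cons_of_mem hd)
    have key : ∀ i D N, P D → LE D (i • G.s 0 + G.s c + G.pb N) → ∀ ν, μ = i + ν →
        m.countP G.Mt ≤ ν → (ν = 1 → m ≠ 0) → ∃ (n : Multiset (Dv X)) (N : Dv B),
          (∀ D ∈ n, P D) ∧ LE n.sum (μ • G.s 0 + G.A (c ::ₘ m) + G.pb N) := by
      rintro i D N b1 b2 ν rfl b3 b4
      obtain ⟨n, N', b5, b6⟩ := ih ν b3 b4
      refine ⟨D ::ₘ n, N + N', by simpa using ⟨b1, b5⟩, ?_⟩
      rw [Multiset.sum_cons]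
      refine (b2.add b6).trans (LE.of_eq ?_)
      rw [G.A_cons, map_add]
      module
    obtain ⟨a3, N, a4⟩ := a2 1 (Or.inl rfl)
    obtain ⟨a5, N', a6⟩ := a2 2 (Or.inr rfl)
    by_cases hc : G.Mt c
    · rw [Multiset.countP_cons_of_pos _ hc] at h1
      by_cases h3 : μ = 2 ∧ m = 0
      · exact key 2 _ _ a5 a6 0 h3.1 (by simp [h3.2]) (by simp)
      · exact key 1 _ _ a3 a4 (μ - 1) (by omega) (by omega) fun h4 h5 => h3 ⟨by omega, h5⟩
    · rw [Multiset.countP_cons_of_neg _ hc] at h1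
      by_cases h3 : μ = 1 ∧ m = 0
      · exact key 1 _ _ a3 a4 0 h3.1 (by simp [h3.2]) (by simp)
      · exact key 0 _ 0 (a1 hc) (LE.of_eq (by simp)) μ (by simp) h1 fun h4 h5 => h3 ⟨h4, h5⟩

end GOOD_

open GOOD_ in
theorem st_GOOD (G : Geo B X Λ) : G.St_GOOD := by
  classical
  intro T hT
  have h1 : ∀ i c, ∃ D, G.Off i c → Z G D ∧ ∃ N, LE D (i • G.s 0 + G.s c + G.pb N) := fun i c => by
    by_cases h : G.Off i c
    · obtain ⟨D, N, a1, a2, a3, a4⟩ := h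
      exact ⟨D, fun _ => ⟨⟨a1, a2, a3⟩, N, a4⟩⟩
    · exact ⟨0, fun h' => absurd h' h⟩
  have h2 : ∀ i, ∃ D, i = 2 ∨ i = 3 → Z G D ∧ ∃ N, LE D (i • G.s 0 + G.pb N) := fun i => by
    by_cases h : i = 2 ∨ i = 3
    · obtain ⟨D, N, a1, a2, a3, a4⟩ := G.bas i h
      exact ⟨D, fun _ => ⟨⟨a1, a2, a3⟩, N, a4⟩⟩
    · exact ⟨0, fun h' => absurd h' h⟩
  choose g hg using h1
  choose b hb using h2
  let U : Λ → Set (Dv X) := fun a => (fun c => G.s (c - a)) '' T ∪ (b '' {2, 3} ∪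
    (fun p : ℕ × Λ => g p.1 (p.2 - a)) '' ({1, 2} ×ˢ T))
  let S : Set (Dv X) := {D | (∃ a ∈ T, D ∈ push (G.e (-a)) '' U a) ∧ 0 ≤ D ∧
    ∃ (m : Multiset Λ) (N : Dv B), m ≠ 0 ∧ LE D (G.A m + G.pb N)}
  have hS : ∀ a ∈ T, ∀ D ∈ U a, 0 ≤ D → ∀ m N, m ≠ 0 → LE D (G.A m + G.pb N) →
      push (G.e (-a)) D ∈ S := fun a ha D hD h0 m N hm h =>
    ⟨⟨a, ha, D, hD, rfl⟩, push_nonneg h0, m.map (· - -a), N, by simpa using hm, by
      simpa only [map_add, G.push_A, G.push_pb] using h.push (G.ps (-a))⟩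
  have hs : ∀ a ∈ T, ∀ c ∈ T, push (G.e (-a)) (G.s (c - a)) ∈ S := fun a ha c hc =>
    hS a ha _ (Or.inl ⟨c, hc, rfl⟩) (G.s_nonneg _) {c - a} 0 (by simp)
      (LE.of_eq (by simp [Geo.A]))
  refine ⟨S, (hT.biUnion fun a _ => Finite.image (push (G.e (-a))) (s := U a) ((hT.image _).union
    (((toFinite _).image _).union (((toFinite _).prod hT).image _)))).subset
      fun D hD => mem_iUnion₂.2 (by simpa only [exists_prop] using hD.1), fun D hD => hD.2,
    fun a ha => by simpa [G.push_s] using hs a ha a ha, fun m hm h2 => ?_⟩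
  obtain ⟨a, ha, h3⟩ := m.toFinset.exists_max_image m.count
    (Multiset.toFinset_nonempty.2 (by rintro rfl; simp at h2))
  rw [Multiset.mem_toFinset] at ha
  have h4 : m = Multiset.replicate (m.count a) a + m.filter (· ≠ a) := by
    rw [← Multiset.filter_eq', Multiset.filter_add_not]
  obtain ⟨n, N, h5, h6⟩ := core G (P := fun D => Z G D ∧ push (G.e (-a)) D ∈ S) g b
    (fun i hi => by
      obtain ⟨a1, N, a2⟩ := hb i hi
      exact ⟨⟨a1, hS a (hm.1 a ha) _ (Or.inr (Or.inl ⟨i, hi, rfl⟩)) a1.1 (Multiset.replicate i 0) N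
        (by rcases hi with rfl | rfl <;> simp) (by rwa [G.A_replicate])⟩, N, a2⟩)
    ((m.filter (· ≠ a)).map (· - a)) (fun c' hc' => by
      obtain ⟨c, hc, rfl⟩ := Multiset.mem_map.1 hc'
      obtain ⟨a1, a2⟩ := Multiset.mem_filter.1 hc
      have a3 := sub_ne_zero.2 a2
      refine ⟨fun h => ⟨⟨G.s_nonneg _, Finsupp.single_eq_of_ne fun h => a3 (G.σ_inj _ h.symm),
        G.dis _ a3 h⟩, hs a (hm.1 a ha) c (hm.1 c a1)⟩, fun i hi => ?_⟩
      obtain ⟨a4, N, a5⟩ := hg i (c - a) (by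
        rcases hi with rfl | rfl
        exacts [(hm.2.1 a ha c a1 a2.symm).1, (hm.2.1 a ha c a1 a2.symm).2])
      exact ⟨⟨a4, hS a (hm.1 a ha) _ (Or.inr (Or.inr ⟨(i, c), ⟨hi, hm.1 c a1⟩, rfl⟩)) a4.1
        ((c - a) ::ₘ Multiset.replicate i 0) N Multiset.cons_ne_zero
        (by rwa [G.A_cons, G.A_replicate, add_comm (G.s _)])⟩, N, a5⟩) (m.count a) (by
      rw [Multiset.countP_map, Multiset.filter_filter]
      by_cases h : ∃ c ∈ m, G.Mt (c - a)
      · obtain ⟨c, hc, h⟩ := h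
        refine le_trans ?_ (h3 c (Multiset.mem_toFinset.2 hc))
        rw [Multiset.count_eq_card_filter_eq]
        refine Multiset.card_le_card (Multiset.le_filter.2 ⟨Multiset.filter_le _ _, fun d hd => ?_⟩)
        obtain ⟨a1, a2⟩ := Multiset.mem_filter.1 hd
        exact hm.2.2 a ha c hc d a1 h a2.1
      · rw [Multiset.filter_eq_nil.2 fun c hc h' => h ⟨c, hc, h'.1⟩]
        simp) fun h5 h6 => by
      rw [h5, Multiset.map_eq_zero.1 h6] at h4
      simp [h4] at h2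
  have h7 : (n.map (push (G.e (-a)))).sum = push (G.e (-a)) n.sum := (map_multiset_sum _ _).symm
  refine ⟨a, ha, n.map (push (G.e (-a))), N, fun D hD => ?_, ?_, ?_, ?_⟩
  · obtain ⟨D, h8, rfl⟩ := Multiset.mem_map.1 hD
    exact (h5 D h8).2
  · rw [h7, show G.σ a = G.e (-a) (G.σ 0) by simp [G.e_σ], push_at]
    exact msum_apply_zero fun D hD => (h5 D hD).1.2.1
  · rw [h7, G.push_neg', map_multiset_sum]
    refine Multiset.sum_eq_zero fun D hD => ?_
    obtain ⟨D, h8, rfl⟩ := Multiset.mem_map.1 hD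
    exact (h5 D h8).1.2.2
  · rw [h7]
    refine (h6.push (G.ps (-a))).trans (LE.of_eq ?_)
    conv_rhs => rw [h4]
    simp [G.push_A, G.push_pb, push_single, G.e_σ, G.A_add, G.A_replicate]

end Pool.Agent.Lib.EL
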