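import Pool.Agent.Lib.EL.KitG

open Set WithZero Polynomial Pool.Agent.Lib.MP_e39d36_ag Pool.Agent.Lib.MP_e39d36_ag.Var
  Pool.Agent.Lib.MV.End

set_option linter.unusedSectionVars false
set_option linter.unusedVariables false
set_option linter.style.haveILetI false

noncomputable section

namespace Pool.Agent.Lib.EL

attribute [local instance] Classical.propDecidable

variable {K F : Type} [Field K] [Field F] [Algebra ℂ K] [Algebra ℂ F] [Algebra K F]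
  [IsScalarTower ℂ K F]

theorem st_INT (M : Ell K F) : M.St_INT := by
  intro hF Φ rs c0 hr a b h C
  obtain ⟨c1, c2, c3⟩ := c0 C
  have hy := M.y_ne
  have hl := M.l_ne C
  have hO : M.X.O ((Φ.S 0).ξ C) ≤ M.X.O Φ.O.1 := Φ.S_zero ▸ (Φ.S 0).le C
  have hV := (hF (Φ.S 0) Φ.toVt C).1
  have hp := (Φ.S 0).p_ξ C
  obtain ⟨-, hs, ht⟩ := rg_le.1 c1.1
  have hx := Φ.x_S a b h
  have hy' := Φ.y_S a b h
  set P := Φ.S (.some a b h)
  have hs0 : M.x / (M.l C * M.y) ∈ M.X.nu Φ.O.1 :=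
    ordGe_one.1 (Or.inr (by rw [← c2.eq hO, Finsupp.single_eq_same]))
  have hne : (Φ.S 0).E ≠ P.E := fun h1 => by
    have := ord_nonneg (add_mem hx.1 (P.hor a))
    rw [sub_add_cancel, ← h1, Φ.S_zero, Φ.toHz.ord_x] at this
    omega
  have key : ∀ r, LocEq (Finsupp.single P.E 1) ((Φ.S 0).ξ C) r →
      rs (Finsupp.single P.E 1) C = M.B.ord ((Φ.S 0).γ.τ r) C.1 := fun r h1 => by
    rw [hr _ C r h1, Finsupp.single_eq_of_ne hne, zpow_zero, _root_.div_one]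
  refine ⟨fun ha => ?_, fun ha => ?_⟩
  · rw [key 1 (.mk' one_ne_zero fun E hE => ?_), CMap.τ_one, ord_one]
    rw [ord_one]
    refine Finsupp.single_eq_of_ne ?_
    rintro rfl
    have h1 := mul_mem (neg_mem (M.l_mul_mem hp 2 ha)) hs
    have h2 := ((M.X.isLoc _).add_un c3 (mul_mem h1 hs) fun h2 =>
      hs0.2 ((h2.of_mul' h1 hs).mono hO)).mono hE
    have h3 := mul_ordGe (ordGe_one.2 hx) (ordGe_zero.2 (mul_mem (pow_mem (P.hor (lf M.L C.1)) 2)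
      (pow_mem (hE hs) 2)))
    refine (ordGe_one.1 h3).2 ((congrArg _ ?_).mp h2)
    rw [← Ell.l]
    field_simp
    ring
  obtain ⟨a0, b0, e, e0, e1, e2⟩ := M.nonint_pt (M.eqn_iff.1 h) ha
  have l0 := (M.locEq_l C).1
  have x1 : M.x ∈ M.X.O P.E.1 := by simpa using add_mem hx.1 (P.hor a)
  have y1 : Un (M.X.O P.E.1) M.y := by
    simpa using (M.X.isLoc _).add_un (P.hor.un b0) hy'.1 hy'.2
  have l1 : Un (M.X.O P.E.1) (M.l C) := P.hor.un l0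
  have s1 : M.x / (M.l C * M.y) - algebraMap K F (a / (lf M.L C.1 * b)) ∈ M.X.nu P.E.1 := by
    have := mul_ordGe (ordGe_zero.2 ((l1.mul y1).mul (P.hor.un b0)).2.2) (sub_mem
      (mul_ordGe (ordGe_zero.2 (P.hor b)) (ordGe_one.2 hx))
      (mul_ordGe (ordGe_zero.2 (P.hor a)) (ordGe_one.2 hy')))
    refine ordGe_one.1 ((congrArg (· ∈ _) ?_).mp this)
    have := (P.hor.un b0).1
    rw [map_div₀, map_mul, ← Ell.l]
    field_simp
    ring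
  have s2 : M.B.ord (a / (lf M.L C.1 * b)) C.1 = e := by
    rw [ord_div a0 (mul_ne_zero l0 b0), ord_mul l0 b0, M.ord_lf]
    omega
  have s3 : a / (lf M.L C.1 * b) ∈ M.B.nu C.1 := ordGe_one.1 (Or.inr (by omega))
  have d1 : LocOf _ (M.X.O (P.ξ C)) := (M.wei' (P.p_ξ C)).resolve_left fun h1 => by
    have := ord_nonneg (P.mem C _ (h1.1 mem_rg.2.1))
    rw [P.τ_mul (pow_mem l1.2.1 2) x1, P.τ_eq hx, Ell.l, ← map_pow, P.res,
      ord_mul (pow_ne_zero _ l0) a0, Var.ord_pow, M.ord_lf] at this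
    omega
  obtain ⟨-, ds, dt⟩ := rg_le.1 d1.1
  have d2 : M.x / (M.l C * M.y) ∈ M.X.nu (P.ξ C) := ⟨ds, fun h1 => s3.2 (P.τ_eq s1 ▸ P.τ_un h1)⟩
  have d3 : 1 / (M.l C ^ 3 * M.y) ∈ M.X.nu (P.ξ C) := ⟨dt, fun h1 => by
    have := ord_un (P.τ_un h1.inv)
    rw [one_div, inv_inv, P.τ_mul (pow_mem l1.2.1 3) y1.2.1, P.τ_eq hy', Ell.l, ← map_pow, P.res,
      ord_mul (pow_ne_zero _ l0) b0, Var.ord_pow, M.ord_lf] at this
    omega⟩
  have m1 : ∀ (ξ : M.X.Pt) (u w : F), u ∈ M.X.O ξ → w ∈ M.X.nu ξ → u * w ∈ M.X.nu ξ :=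
    fun ξ u w h1 h2 => ⟨mul_mem h1 h2.1, fun h3 => h2.2 (h3.of_mul' h1 h2.1)⟩
  have c4 : M.x / (M.l C * M.y) ∈ M.X.nu ((Φ.S 0).ξ C) := ⟨hs, fun h1 => hs0.2 (h1.mono hO)⟩
  have c5 : 1 / (M.l C ^ 3 * M.y) ∈ M.X.nu ((Φ.S 0).ξ C) := ⟨ht, fun h1 => c4.2 (Un.of_pow (n := 3)
    ((congrArg _ (by field_simp)).mp (h1.mul c3)) hs (by simp))⟩
  have d4 : M.X.O ((Φ.S 0).ξ C) ≤ M.X.O (P.ξ C) := c1.le d1.1 fun w hw hu => by
    obtain ⟨c, h1, α, h2, β, h3, rfl⟩ := Ell.rg_eq hw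
    rw [add_assoc] at hu ⊢
    have h4 := add_mem (m1 _ _ _ (c1.1 h2) c4) (m1 _ _ _ (c1.1 h3) c5)
    have h5 := add_mem (m1 _ _ _ (d1.1 h2) d2) (m1 _ _ _ (d1.1 h3) d3)
    have h6 := ((M.X.isLoc _).of_add ((Φ.S 0).θ_mem h1) h4.1 hu).resolve_right h4.2
    rw [M.θ_un (hp ▸ h1), hp, ← P.p_ξ C, ← M.θ_un (P.p_ξ C ▸ h1)] at h6
    exact (M.X.isLoc _).add_un h6 h5.1 h5.2
  have d5 := d4.trans (P.le C)
  have d6 := P.uniq C _ d5 hp
  have r1 := (M.cX (Finsupp.single P.E 1)).lf ((Φ.S 0).ξ C)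
  set r := lf (Finsupp.single P.E 1) ((Φ.S 0).ξ C)
  have r2 := r1.mem (Finsupp.single_nonneg.2 zero_le_one)
  have r3 := sub_mem hs ((Φ.S 0).θ_mem s3.1)
  have r4 := P.div_mem (d6 ▸ r1) (d6 ▸ r3) s1
  rw [← d6] at r4
  obtain ⟨α, r5, r6⟩ := (Φ.S 0).exists_eq (Φ.S_zero ▸ c2) r2
  have r7 : (Φ.S 0).γ.τ r ∈ ordGe C 1 := ordGe_one.2 ⟨(Φ.S 0).mem C _ r2, fun h1 => by
    have := ord_un (((Φ.S 0).un C _ r2 h1).mono d5)
    rw [← r1.eq d5, Finsupp.single_eq_same] at this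
    omega⟩
  have r8 : Un (M.X.O ((Φ.S 0).ξ C))
      ((M.x / (M.l C * M.y) - algebraMap K F (a / (lf M.L C.1 * b))) / r) := by
    refine Un.of_mul' (((M.X.isLoc _) _ (mul_mem r5 r4)).resolve_right fun h1 => ?_) r5 r4
    have h2 : Un (M.X.O (Φ.V C).1) (M.x / (M.l C * M.y)) := un_iff_ord.2 ⟨c2.1, by
      rw [← c2.eq hV, Finsupp.single_eq_of_ne (Φ.toVt.hor_iff.1 Φ.horO C).symm]⟩
    have h3 := add_mem (Φ.toVt.θ_ordGe.2 (ordGe_one.2 s3))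
      (mul_ordGe (ordGe_zero.2 (hV r4)) (Φ.toVt.θ_ordGe.2 r7))
    refine (ordGe_one.1 h3).2 ((congrArg _ ?_).mp (h2.mul (h1.mono hV)))
    have h4 := div_mul_cancel₀ (M.x / (M.l C * M.y) - algebraMap K F (a / (lf M.L C.1 * b))) r1.1
    linear_combination -h4 + (M.x / (M.l C * M.y) - algebraMap K F (a / (lf M.L C.1 * b))) / r * r6
  rw [key _ (r1.of_un r8), (Φ.S 0).τ_eq (a := -(a / (lf M.L C.1 * b)))
    (by simpa [Φ.S_zero] using hs0), ord_neg, s2]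
  omega

end Pool.Agent.Lib.EL
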