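import Pool.Agent.Lib.EL.KitG

open Set WithZero Polynomial Pool.Agent.Lib.MP_e39d36_ag Pool.Agent.Lib.MP_e39d36_ag.Var
  Pool.Agent.Lib.MV.End Pool.Agent.Lib.MP_cc3443_ag

set_option linter.unusedSectionVars false
set_option linter.unusedVariables false
set_option linter.style.haveILetI false

noncomputable section

namespace Pool.Agent.Lib.EL

attribute [local instance] Classical.propDecidable

variable {K F : Type} [Field K] [Field F] [Algebra ℂ K] [Algebra ℂ F] [Algebra K F]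
  [IsScalarTower ℂ K F]

namespace LIFT_

variable {M : Ell K F} (S : M.Sec)

/-- Functions whose restriction to the section is regular at `b`. -/
def T (b : M.B.Pt) : Subring F := ((M.B.O b).comap S.γ.hom).map (M.X.O S.γ.c).subtype

variable {S} {b b' : M.B.Pt} {a : F} {ξ ξ' : M.X.Pt}

lemma mem_T : a ∈ T S b ↔ a ∈ M.X.O S.E.1 ∧ S.γ.τ a ∈ M.B.O b :=
  ⟨by rintro ⟨b, hb, rfl⟩; exact ⟨S.c_eq ▸ b.2, hb⟩, fun h => ⟨⟨a, S.c_eq ▸ h.1⟩, h.2, rfl⟩⟩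

lemma τ_inv (h : Un (M.X.O S.E.1) a) : S.γ.τ a⁻¹ = (S.γ.τ a)⁻¹ := CMap.τ_inv' (S.c_eq ▸ h)

lemma un_T : Un (T S b) a ↔ a ∈ M.X.O S.E.1 ∧ Un (M.B.O b) (S.γ.τ a) := by
  refine ⟨fun h => ?_, fun ⟨h1, h2⟩ => ?_⟩
  · have h3 : Un (M.X.O S.E.1) a := h.mono fun _ h => (mem_T.1 h).1
    exact ⟨h3.2.1, S.τ_ne h3, (mem_T.1 h.2.1).2, τ_inv h3 ▸ (mem_T.1 h.2.2).2⟩
  · have h3 : Un (M.X.O S.E.1) a := S.c_eq ▸ CMap.un_of_ne (S.c_eq ▸ h1) h2.1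
    exact ⟨h3.1, mem_T.2 ⟨h1, h2.2.1⟩, mem_T.2 ⟨h3.2.2, (τ_inv h3).symm ▸ h2.2.2⟩⟩

lemma isLoc_T : IsLoc (T S b) := fun a ha => by
  obtain ⟨h1, h2⟩ := mem_T.1 ha
  refine (M.B.isLoc _ _ h2).imp (fun h => un_T.2 ⟨h1, h⟩) fun h =>
    un_T.2 ⟨sub_mem (one_mem _) h1, ?_⟩
  rwa [S.τ_eq (a := 1 - S.γ.τ a) (by simpa using neg_mem (S.sub_τ h1))]

lemma mono (h : M.B.O b ≤ M.B.O b') (h1 : Dom (M.X.O ξ) (T S b)) (h2 : Dom (M.X.O ξ') (T S b')) :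
    M.X.O ξ ≤ M.X.O ξ' := by
  obtain ⟨y, h3, h4⟩ := exists_gen (x := ξ) (isLoc_T (S := S) (b := b'))
    fun w hw => mem_T.2 ((mem_T.1 (h1.1 hw)).imp_right fun h5 => h h5)
  rwa [M.X.sep _ _ _ isLoc_T h3 h2] at h4

lemma dom (C : M.B.PD) : Dom (M.X.O (S.ξ C)) (T S C.1) :=
  ⟨fun w hw => mem_T.2 ⟨S.le C hw, S.mem C w hw⟩, fun w hw hu => S.un C w hw (un_T.1 hu).2⟩

lemma locEq {rs : Dv M.X →+ Dv M.B} (hr : S.IsRs rs) (h1 : Dom (M.X.O ξ) (T S b)) {D : Dv M.X}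
    (h : LocEq D ξ a) : Un (M.X.O S.E.1) (a / S.z ^ D S.E) ∧
      LocEq (rs D) b (S.γ.τ (a / S.z ^ D S.E)) := by
  have h2 : Un (M.X.O S.E.1) (a / S.z ^ D S.E) :=
    un_iff_ord.2 ⟨div_ne_zero h.1 (zpow_ne_zero _ S.z_ne), by
      rw [ord_div h.1 (zpow_ne_zero _ S.z_ne), ← h.eq fun _ h => (mem_T.1 (h1.1 h)).1, ord_zpow,
        S.ord_z]
      simp⟩
  exact ⟨h2, .mk' (S.τ_ne h2) fun C hC => hr _ C a (h.mono (mono hC h1 (dom C)))⟩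

variable (S) in
lemma reg : ∃ Z : Set M.B.PD, Z.Finite ∧ ∀ b, (∀ C ∈ Z, ∀ C' ∈ Z, M.B.O b ≤ M.B.O C.1 →
    M.B.O b ≤ M.B.O C'.1 → C = C') → ∃ ξ, Dom (M.X.O ξ) (T S b) := by
  choose t ht using M.X.fg
  refine ⟨⋃ i, ⋃ w ∈ t i, {C | M.B.ord (S.γ.τ w) C.1 ≠ 0},
    finite_iUnion fun i => (t i).finite_toSet.biUnion fun w _ => finite_ord _, fun b hb => ?_⟩
  obtain ⟨i, h1, h2⟩ : ∃ i, (M.X.A i).toSubring ≤ M.X.O S.E.1 ∧ ∀ w ∈ t i, ∀ C : M.B.PD,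
      M.B.O b ≤ M.B.O C.1 → 0 ≤ M.B.ord (S.γ.τ w) C.1 := by
    by_cases h : ∃ C ∈ ⋃ i, ⋃ w ∈ t i, {C : M.B.PD | M.B.ord (S.γ.τ w) C.1 ≠ 0},
        M.B.O b ≤ M.B.O C.1
    · obtain ⟨C, h1, h2⟩ := h
      obtain ⟨i, hi⟩ := M.X.chart (S.ξ C)
      refine ⟨i, hi.1.trans (S.le C), fun w hw C' h3 => of_not_not fun h4 => h4 ?_⟩
      rw [← hb C h1 C' (mem_iUnion.2 ⟨i, mem_iUnion₂.2 ⟨w, hw, fun h => h4 h.ge⟩⟩) h2 h3]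
      exact ord_nonneg (S.mem C _ (hi.1 (ht i ▸ Algebra.subset_adjoin hw)))
    · obtain ⟨i, hi⟩ := M.X.chart S.E.1
      exact ⟨i, hi.1, fun w hw C h3 => of_not_not fun h4 =>
        h ⟨C, mem_iUnion.2 ⟨i, mem_iUnion₂.2 ⟨w, hw, fun h => h4 h.ge⟩⟩, h3⟩⟩
  refine (exists_centre (i := i) isLoc_T fun w hw => ?_).imp fun _ h => h.1
  have h3 : ∀ w ∈ t i, w ∈ M.X.O S.E.1 := fun w hw => h1 (ht i ▸ Algebra.subset_adjoin hw)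
  rw [Subalgebra.mem_toSubring, ← ht i] at hw
  induction hw using Algebra.adjoin_induction with
  | mem w hw => exact mem_T.2 ⟨h3 w hw, hartogs (h2 w hw)⟩
  | algebraMap c => exact mem_T.2 ⟨M.X.const_mem _ c, S.γ.const c ▸ M.B.const_mem _ c⟩
  | add _ _ _ _ a1 a2 => exact add_mem a1 a2
  | mul _ _ _ _ a1 a2 => exact mul_mem a1 a2

end LIFT_

open LIFT_ in
theorem st_LIFT (M : Ell K F) : M.St_LIFT := by
  intro S rs hr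
  obtain ⟨Z, h1, h2⟩ := reg S
  refine ⟨Z, h1, fun F' _ _ _ γ ⟨h3, h4⟩ => ?_⟩
  obtain ⟨c, hc⟩ := h2 γ.c fun C hC _ _ h => absurd h (h3 C hC)
  choose ξ hξ using fun P => h2 _ (h4 P)
  have a1 : ∀ w ∈ M.X.O c, w ∈ M.X.O S.E.1 ∧ S.γ.τ w ∈ M.B.O γ.c := fun w h => mem_T.1 (hc.1 h)
  let γ' : CMap M.X F' :=
    { c := c, τ := fun w => γ.τ (S.γ.τ w)
      add := fun a ha b hb => by
        rw [S.τ_add (a1 a ha).1 (a1 b hb).1, γ.add _ (a1 a ha).2 _ (a1 b hb).2]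
      mul := fun a ha b hb => by
        rw [S.τ_mul (a1 a ha).1 (a1 b hb).1, γ.mul _ (a1 a ha).2 _ (a1 b hb).2]
      const := fun a => by rw [S.γ.const, γ.const]
      zero := fun a ha h => γ.zero _ (a1 a ha).2 fun h' => h (hc.2 a ha (un_T.2 ⟨(a1 a ha).1, h'⟩)) }
  have a2 : ∀ P, γ'.ctr P = ξ P := fun P => CMap.ctr_eq ⟨fun w hw =>
    CMap.mem_T.2 ⟨mono (γ.ctr_le P) (hξ P) hc hw,
      (CMap.mem_T.1 ((γ.dom_ctr P).1 (mem_T.1 ((hξ P).1 hw)).2)).2⟩, fun w hw hu => by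
    obtain ⟨b1, b2⟩ := mem_T.1 ((hξ P).1 hw)
    obtain ⟨b3, b4⟩ := CMap.un_T.1 hu
    exact (hξ P).2 w hw (un_T.2 ⟨b1, (γ.dom_ctr P).2 _ b2
      (CMap.un_T.2 ⟨(un_T.1 (b3.mono hc.1)).2, b4⟩)⟩)⟩
  refine ⟨γ', fun D => ?_⟩
  have a3 := fun P => locEq hr (hξ P) ((M.cX D).lf _)
  have a4 := locEq hr hc ((M.cX D).lf _)
  rw [CMap.deg_eq (M.cB _) (fun P => (a3 P).2) a4.2, CMap.deg]
  refine finsum_congr fun P => ?_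
  rw [a2, div_eq_mul_inv (S.γ.τ _), ← τ_inv a4.1, ← S.τ_mul (a3 P).1.2.1 a4.1.2.2,
    ← div_eq_mul_inv, div_div_div_cancel_right₀ (zpow_ne_zero _ S.z_ne)]

end Pool.Agent.Lib.EL
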