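import Pool.Agent.Lib.EL.KitA

open Set WithZero Pool.Agent.Lib.MP_e39d36_ag Pool.Agent.Lib.MP_e39d36_ag.Var
  Pool.Agent.Lib.MV.End
open scoped NNReal

set_option linter.unusedSectionVars false
set_option linter.unusedVariables false
set_option linter.style.haveILetI false

noncomputable section

namespace Pool.Agent.Lib.EL

variable {K F : Type} [Field K] [Field F] [Algebra ℂ K] [Algebra ℂ F] {B : Var K} {X : Var F}
  {Λ : Type} [AddCommGroup Λ]

namespace PEEL_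

variable (G : Geo B X Λ)

lemma base (a : Λ) {f : F} (h0 : f ≠ 0) (h : ∀ E, (∀ C, E ≠ G.V C) → 0 ≤ G.s a E + X.ord f E.1) :
    ∃ c, f = G.θ c := by
  obtain ⟨c, hc⟩ := G.one (G.τ a f) ((map_ne_zero _).2 h0) (fun E h1 h2 => by
    have h3 := h (G.e (-a) E) (G.e_vert h1)
    rw [← G.e_neg' a E, (G.ps a).2]
    rwa [Finsupp.single_eq_of_ne, zero_add] at h3
    exact fun h4 => h2 (by rw [← G.e_neg' a E, h4, G.e_σ, sub_self])) (by
    have h3 := h (G.σ a) (G.σ_V a)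
    rw [← sub_self a, ← G.e_σ, (G.ps a).2]
    rw [Finsupp.single_eq_same] at h3
    omega)
  exact ⟨c, (G.τ a).injective (hc.trans (G.τ_θ a c).symm)⟩

lemma fin (A : Dv X) (hA : ∀ C, A (G.V C) = 0) {M : Dv B} {c : K}
    (h : 0 ≤ A + G.pb M + X.div (G.θ c)) : 0 ≤ M + B.div c := fun C => by
  simpa [← G.pb_div, G.pb_V, hA] using h (G.V C)

end PEEL_

open PEEL_ in
theorem st_PEEL (G : Geo B X Λ) : G.St_PEEL := by
  classical
  rintro T S ⟨-, h2, h3, h4⟩ m
  induction hk : m.card using Nat.strong_induction_on generalizing m with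
  | _ k ih =>
  intro hm M f E h0 h5 h6
  have key : ∀ c, f = G.θ c → (∀ a ∈ m, G.s a E = 0) → ∃ (n : Multiset (Dv X)) (M' : Dv B),
      (∀ D ∈ n, D ∈ S ∧ D E = 0) ∧ 0 ≤ M' ∧ G.pb M' E = 0 ∧
        LE (G.A m + G.pb M) (n.sum + G.pb M') := by
    rintro c rfl h7
    have h8 : ∀ D ∈ m.map G.s, D ∈ S ∧ D E = 0 := fun D hD => by
      obtain ⟨a, ha, rfl⟩ := Multiset.mem_map.1 hD
      exact ⟨h3 a (hm.1 a ha), h7 a ha⟩
    refine ⟨m.map G.s, M + B.div c, h8, fin G _ (G.A_V m) h5, ?_, ?_⟩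
    · have h9 : G.A m E = 0 := msum_apply_zero fun D hD => (h8 D hD).2
      simpa [G.pb_div, h9] using h6
    · rw [map_add, G.pb_div, ← add_assoc]
      exact (le_div h0).symm
  rcases Nat.lt_or_ge m.card 2 with h7 | h7
  · rcases Nat.le_one_iff_eq_zero_or_eq_one.1 (Nat.lt_succ_iff.1 h7) with h8 | h8
    · obtain rfl := Multiset.card_eq_zero.1 h8
      obtain ⟨c, hc⟩ := base G 0 h0 fun E hE => by
        have := h5 E
        have h9 : (0 : ℤ) ≤ G.s 0 E := G.s_nonneg 0 E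
        simp only [G.pb_h _ _ hE, Geo.A_zero, Finsupp.add_apply, div_apply, Finsupp.coe_zero,
          Pi.zero_apply] at this
        omega
      exact key c hc (by simp)
    · obtain ⟨a, rfl⟩ := Multiset.card_eq_one.1 h8
      obtain ⟨c, hc⟩ := base G a h0 fun E hE => by simpa [G.pb_h _ _ hE, Geo.A] using h5 E
      refine key c hc fun b hb => ?_
      obtain rfl := Multiset.mem_singleton.1 hb
      refine Finsupp.single_eq_of_ne ?_
      rintro rfl
      simp [hc, ← G.pb_div, G.pb_σ, Geo.A] at h6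
  obtain ⟨a, ha, n, N, h8, h9, h10, φ, h11, h12⟩ := h4 m hm h7
  obtain ⟨m', rfl⟩ := Multiset.exists_cons_of_mem ha
  have step : ∀ f : F, f ≠ 0 → 0 ≤ G.A (a ::ₘ m') + G.pb M + X.div f →
      (G.A (a ::ₘ m') + G.pb M + X.div f) E = 0 →
      0 < (G.A (a ::ₘ m') + G.pb M + X.div f) (G.σ a) → ∃ (n : Multiset (Dv X)) (M' : Dv B),
      (∀ D ∈ n, D ∈ S ∧ D E = 0) ∧ 0 ≤ M' ∧ G.pb M' E = 0 ∧
        LE (G.A (a ::ₘ m') + G.pb M) (n.sum + G.pb M') := fun f b0 b1 b2 b3 => by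
    have b4 : G.s a E = 0 := Finsupp.single_eq_of_ne (by rintro rfl; omega)
    have b5 : ∀ b ∈ m', b ∈ a ::ₘ m' := fun b => Multiset.mem_cons_of_mem
    rw [G.A_cons, add_assoc, add_assoc, ← add_assoc (G.A m')] at b1 b2 b3
    obtain ⟨n', M', c1, c2, c3, c4⟩ := ih m'.card (by simp [← hk]) m' rfl
      ⟨fun b hb => hm.1 b (b5 b hb), fun b hb c hc => hm.2.1 b (b5 b hb) c (b5 c hc),
        fun b hb c hc d hd => hm.2.2 b (b5 b hb) c (b5 c hc) d (b5 d hd)⟩ M f E b0 (fun E' => by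
        have := b1 E'
        by_cases h : E' = G.σ a
        · rw [Finsupp.add_apply, Finsupp.single_eq_same] at b3
          rw [h, Finsupp.coe_zero, Pi.zero_apply]
          omega
        · rwa [Finsupp.add_apply, Finsupp.single_eq_of_ne h, zero_add] at this)
      (by rwa [Finsupp.add_apply, b4, zero_add] at b2)
    refine ⟨G.s a ::ₘ n', M', fun D hD => ?_, c2, c3, ?_⟩
    · rcases Multiset.mem_cons.1 hD with rfl | hD
      exacts [⟨h3 a (hm.1 a ha), b4⟩, c1 D hD]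
    · rw [G.A_cons, Multiset.sum_cons, add_assoc, add_assoc]
      exact (LE.refl _).add c4
  rcases (show (0 : ℤ) ≤ _ from h5 (G.σ a)).lt_or_eq with h13 | h13
  · exact step f h0 h5 h6 h13
  have h14 : ∀ w, w ≠ 0 → G.A (a ::ₘ m') + G.pb M + X.div (φ * w) =
      n.sum + G.pb (M - N) + X.div w := fun w hw => by
    rw [h12, div_mul h11 hw, map_sub]
    abel
  obtain ⟨w, rfl⟩ : ∃ w, f = φ * w := ⟨f / φ, (mul_div_cancel₀ _ h11).symm⟩
  have hw := right_ne_zero_of_mul h0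
  rw [h14 w hw] at h5 h6 h13
  have h15 : G.e a (G.σ a) = G.σ 0 := by rw [G.e_σ, sub_self]
  have h16 : X.ord w (G.σ a).1 = 0 := by simpa [h9, G.pb_σ] using h13.symm
  obtain ⟨c, c0, c1, c2⟩ := G.rs_un (G.τ a w)
    (un_iff_ord.2 ⟨(map_ne_zero _).2 hw, by rw [← h15, (G.ps a).2, h16]⟩)
  have c3 := G.rs_eff _ (push_nonneg (e := G.e a) h5) (by rw [← h15, push_at, ← h13])
  rw [map_add, map_add, map_add, map_add, h10, G.push_pb, G.rs_pb, (G.ps a).push_div, c1,
    zero_add] at c3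
  have c4 : G.θ c ≠ 0 := (map_ne_zero _).2 c0
  have c5 : 0 ≤ n.sum := Multiset.sum_nonneg fun D hD => (h2 D (h8 D hD)).1
  have c6 : n.sum + G.pb (M - N) + X.div (G.θ c) = n.sum + G.pb (M - N + B.div c) := by
    rw [map_add, G.pb_div, add_assoc]
  have c7 : ∀ E', (0 : ℤ) ≤ n.sum E' ∧ (0 : ℤ) ≤ G.pb (M - N + B.div c) E' :=
    fun E' => ⟨c5 E', G.pb_nonneg.2 c3 E'⟩
  by_cases c8 : n.sum E + G.pb (M - N + B.div c) E = 0
  · have := c7 E
    refine ⟨n, _, fun D hD => ⟨h8 D hD, apply_zero_of_msum (fun D hD => (h2 D (h8 D hD)).1)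
      (by omega) D hD⟩, c3, by omega, ?_⟩
    rw [← c6, ← h14 _ c4]
    exact (le_div (mul_ne_zero h11 c4)).symm
  have c9 : ∀ E', G.θ c ∈ ordGe E'
      ((n.sum E' + G.pb (M - N + B.div c) E') - (n.sum + G.pb (M - N)) E') := fun E' =>
    Or.inr (by
      have := DFunLike.congr_fun c6 E'
      simp only [Finsupp.add_apply, div_apply] at this ⊢
      omega)
  simp only [Finsupp.add_apply, div_apply] at h6
  obtain ⟨d0, d1⟩ := ord_eq_of_sub (E := E) hw (b := w - G.θ c) (by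
    rw [sub_sub_cancel_left]
    refine neg_mem (ordGe_mono (c9 E) ?_)
    have := c7 E
    rw [Finsupp.add_apply]
    omega)
  refine step _ (mul_ne_zero h11 d0) ?_ ?_ ?_ <;> rw [h14 _ d0]
  · intro E'
    have d2 := (mem_ordGe' d0).1 (sub_mem (show w ∈ ordGe E' (-(n.sum + G.pb (M - N)) E') from
      Or.inr (neg_le_iff_add_nonneg'.2 (h5 E'))) (ordGe_mono (c9 E') (by have := c7 E'; omega)))
    exact neg_le_iff_add_nonneg'.1 d2
  · simpa only [Finsupp.add_apply, div_apply, d1] using h6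
  · rw [← G.τ_θ a c, ← map_sub, ← ordGe_one, mem_ordGe' ((map_ne_zero _).2 d0), ← h15,
      (G.ps a).2] at c2
    simp only [Finsupp.add_apply, div_apply, h9, G.pb_σ]
    omega

end Pool.Agent.Lib.EL
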