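import Pool.Agent.Lib.EL.KitG

open Set WithZero Polynomial Pool.Agent.Lib.MP_e39d36_ag Pool.Agent.Lib.MP_e39d36_ag.Var
  Pool.Agent.Lib.MV.End

set_option linter.unusedSectionVars false
set_option linter.unusedVariables false
set_option linter.style.haveILetI false

noncomputable section

namespace Pool.Agent.Lib.EL

attribute [local instance] Classical.propDecidable

variable {K F : Type} [Field K] [Field F] [Algebra ℂ K] [Algebra ℂ F] [Algebra K F]
  [IsScalarTower ℂ K F]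

theorem st_PERM (M : Ell K F) : M.St_PERM := by
  intro Φ h
  have t0 : ∀ a b w, Φ.τ a (Φ.τ b w) = Φ.τ (a + b) w := fun a b w => by
    rw [Φ.τ_add, AlgEquiv.mul_apply]
  have t1 : ∀ a w, Φ.τ a (Φ.τ (-a) w) = w := fun a w => by
    rw [t0, add_neg_cancel, Φ.τ_zero, AlgEquiv.one_apply]
  have h1 : ∀ u (E : M.X.PD), ∃ E' : M.X.PD, ∀ w, M.X.ord w E'.1 = M.X.ord (Φ.τ (-u) w) E.1 :=
    fun u E => by
      rcases Φ.vert E with h1 | ⟨C, rfl⟩
      · obtain ⟨E', h2⟩ := Φ.place ((val E).comap (Φ.τ (-u)).toRingEquiv.toRingHom)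
          ((isV E).1.comp (Φ.τ (-u)).surjective) fun a =>
            (congrArg (val E) ((Φ.τ (-u)).commutes a)).trans_le (((isV E).2 _).1 (h1 a))
        exact ⟨E', fun w => by rw [ord_val, ord_val, h2]; rfl⟩
      · exact ⟨_, fun w => (h _ C w).symm⟩
  choose e he using h1
  have h2 : ∀ u E, e (-u) (e u E) = E := fun u E => pd_ext fun w => by
    rw [he, he, neg_neg, t0, neg_add_cancel, Φ.τ_zero, AlgEquiv.one_apply]
  have h3 : ∀ a w, M.X.ord w (Φ.S a).E.1 = M.X.ord (Φ.τ a w) Φ.O.1 := fun a w => by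
    rw [← Φ.ord_S a, t0, neg_add_cancel, Φ.τ_zero, AlgEquiv.one_apply]
  refine ⟨fun u => ⟨e u, e (-u), h2 u, fun E => by simpa using h2 (-u) E⟩,
    fun u => ⟨fun c => ?_, fun w E => ?_⟩, fun u a => pd_ext fun w => ?_,
    fun u C => pd_ext fun w => (he _ _ _).trans (h _ C w), h2, fun E => pd_ext fun w => ?_⟩
  · rw [IsScalarTower.algebraMap_apply ℂ K F]
    exact (Φ.τ u).commutes _
  · refine (he _ _ _).trans (congrArg (M.X.ord · E.1) ?_)
    simpa using t1 (-u) w
  · rw [Equiv.coe_fn_mk, he, h3, h3, t0, sub_eq_add_neg]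
  · rw [Equiv.coe_fn_mk, he, neg_zero, Φ.τ_zero, AlgEquiv.one_apply]

end Pool.Agent.Lib.EL
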