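import Pool.Agent.Lib.EL.KitA

open Set Filter Topology Pool.Agent.Lib.MP_e39d36_ag Pool.Agent.Lib.MP_e39d36_ag.Var
  Pool.Agent.Lib.MV.End

namespace Pool.Agent.Lib.EL

variable {K : Type} [Field K] [Algebra ℂ K]

theorem st_RAT (Y : Var K) : St_RAT Y := by
  intro Γ hc
  refine closure_minimal (s := (Γ.cone {D | Mov D.1} : Set Γ.N1)) (fun v hv => ?_) isClosed_closure
  induction hv using Submodule.span_induction with
  | mem x hx =>
    obtain ⟨D, hD, rfl⟩ := hx
    exact subset_closure ⟨1, D.1, one_pos, hD, by rw [Nat.cast_one, one_smul, nc_eq]⟩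
  | zero => exact subset_closure ⟨1, 0, one_pos, mov_zero, by rw [smul_zero, map_zero]⟩
  | add x y _ _ hx hy =>
    refine map_mem_closure₂ continuous_add hx hy ?_
    rintro a ⟨k, D, h1, h2, h3⟩ b ⟨k', D', h1', h2', h3'⟩
    refine ⟨k * k', k' • D + k • D', mul_pos h1 h1', mov_add (mov_nsmul h2 _) (mov_nsmul h2' _), ?_⟩
    rw [map_add, map_nsmul, map_nsmul, ← h3, ← h3', ← Nat.cast_smul_eq_nsmul ℝ,
      ← Nat.cast_smul_eq_nsmul ℝ, smul_smul, smul_smul, smul_add, Nat.cast_mul, mul_comm (k' : ℝ)]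
  | smul t x _ hx =>
    refine isClosed_closure.closure_subset (map_mem_closure (continuous_const_smul t) hx ?_)
    rintro a ⟨k, D, h1, h2, h3⟩
    refine mem_closure_of_tendsto (((tendsto_nat_floor_mul_div_atTop t.2).comp
      tendsto_natCast_atTop_atTop).smul_const a) ?_
    filter_upwards [eventually_gt_atTop 0] with m hm
    refine ⟨k * m, ⌊t.1 * m⌋₊ • D, mul_pos h1 hm, mov_nsmul h2 _, ?_⟩
    rw [map_nsmul, ← h3, ← Nat.cast_smul_eq_nsmul ℝ, smul_smul, smul_smul, Function.comp_apply,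
      Nat.cast_mul, mul_assoc, mul_div_cancel₀ _ (Nat.cast_ne_zero.2 hm.ne'), mul_comm]

end Pool.Agent.Lib.EL
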