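import Pool.Agent.Lib.EL.KitG

open Set WithZero Polynomial Pool.Agent.Lib.MP_e39d36_ag Pool.Agent.Lib.MP_e39d36_ag.Var
  Pool.Agent.Lib.MV.End

set_option linter.unusedSectionVars false
set_option linter.unusedVariables false
set_option linter.style.haveILetI false

noncomputable section

namespace Pool.Agent.Lib.EL

attribute [local instance] Classical.propDecidable

variable {K F : Type} [Field K] [Field F] [Algebra ℂ K] [Algebra ℂ F] [Algebra K F]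
  [IsScalarTower ℂ K F]

namespace RS_

variable {M : Ell K F} (S : M.Sec) {D : Dv M.X} {C : M.B.PD} {h h' : F}

lemma un (hh : LocEq D (S.ξ C) h) : Un (M.X.O S.E.1) (h / S.z ^ D S.E) :=
  un_iff_ord.2 ⟨div_ne_zero hh.1 (zpow_ne_zero _ S.z_ne), by
    rw [ord_div hh.1 (zpow_ne_zero _ S.z_ne), ← hh.eq (S.le C), ord_zpow, S.ord_z]; simp⟩

lemma indep (hh : LocEq D (S.ξ C) h) (hh' : LocEq D (S.ξ C) h') :
    M.B.ord (S.γ.τ (h / S.z ^ D S.E)) C.1 = M.B.ord (S.γ.τ (h' / S.z ^ D S.E)) C.1 := by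
  have h1 := hh.un hh'
  rw [← div_mul_div_cancel₀ hh'.1, S.τ_mul (S.le C h1.2.1) (un S hh').2.1,
    ord_mul (S.τ_un h1).1 (S.τ_ne (un S hh')), ord_un (S.τ_un h1), zero_add]

lemma fin (D : Dv M.X) :
    {C : M.B.PD | M.B.ord (S.γ.τ (lf D (S.ξ C) / S.z ^ D S.E)) C.1 ≠ 0}.Finite := by
  have g0 := zpow_ne_zero (D S.E) S.z_ne
  have h1 : ∀ i : M.X.ι, ∃ r, (M.X.A i).toSubring ≤ M.X.O S.E.1 → r ∈ (M.X.A i).toSubring ∧
      Un (M.X.O S.E.1) r ∧ ∀ E : M.X.PD, (M.X.A i).toSubring ≤ M.X.O E.1 →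
        D E ≠ M.X.ord (S.z ^ D S.E) E.1 → 1 ≤ M.X.ord r E.1 := by
    intro i
    by_cases hi : (M.X.A i).toSubring ≤ M.X.O S.E.1
    · obtain ⟨r, h1, h2, h3⟩ := exists_fix (locOf_of_le hi)
        (S := {E | (M.X.A i).toSubring ≤ M.X.O E.1 ∧ D E ≠ M.X.ord (S.z ^ D S.E) E.1})
        ((D - M.X.div _).support.finite_toSet.subset fun E hE => by simpa [sub_eq_zero] using hE.2)
        (fun E hE => hE.1) (fun E hE h => hE.2 (by rw [← pd_eq h, ord_zpow, S.ord_z, mul_one]))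
        fun _ => 1
      exact ⟨r, fun _ => ⟨h1, h2, fun E h4 h5 => h3 E ⟨h4, h5⟩⟩⟩
    · exact ⟨0, fun h => absurd h hi⟩
  choose r hr using h1
  refine (Set.finite_iUnion fun i => finite_ord (X := M.B) (S.γ.τ (r i))).subset fun C hC => ?_
  by_contra h2
  simp only [mem_iUnion, mem_ofPred_eq, not_exists, not_not] at h2
  obtain ⟨i, hi⟩ := M.X.chart (S.ξ C)
  obtain ⟨h3, h4, h5⟩ := hr i (hi.1.trans (S.le C))
  have h6 := S.un C _ (hi.1 h3) (un_iff_ord.2 ⟨S.τ_ne h4, h2 i⟩)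
  refine hC (ord_un (S.τ_un (((M.cX D).lf _).un (.mk' g0 fun E hE => ?_))))
  by_contra h7
  have := h5 E (hi.1.trans hE) h7
  rw [ord_un (h6.mono hE)] at this
  omega

end RS_

open RS_ in
theorem st_RS (M : Ell K F) : M.St_RS := fun S => by
  refine ⟨AddMonoidHom.mk' (fun D => Finsupp.ofSupportFinite _ (fin S D)) fun D D' =>
    Finsupp.ext fun C => ?_, fun D C h hh => indep S ((M.cX D).lf _) hh⟩
  have h1 := (M.cX D).lf (S.ξ C)
  have h2 := (M.cX D').lf (S.ξ C)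
  refine (indep S ((M.cX _).lf _) (h1.add h2)).trans ?_
  rw [Finsupp.add_apply, zpow_add₀ S.z_ne, mul_div_mul_comm, S.τ_mul (un S h1).2.1 (un S h2).2.1,
    ord_mul (S.τ_ne (un S h1)) (S.τ_ne (un S h2))]
  rfl

end Pool.Agent.Lib.EL
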