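import Pool.Agent.Lib.EL.B_RS

open Set WithZero Polynomial Pool.Agent.Lib.MP_e39d36_ag Pool.Agent.Lib.MP_e39d36_ag.Var
  Pool.Agent.Lib.MV.End

set_option linter.unusedSectionVars false
set_option linter.unusedVariables false
set_option linter.style.haveILetI false

noncomputable section

namespace Pool.Agent.Lib.EL

attribute [local instance] Classical.propDecidable

variable {K F : Type} [Field K] [Field F] [Algebra ℂ K] [Algebra ℂ F] [Algebra K F]
  [IsScalarTower ℂ K F]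

theorem st_RSP (M : Ell K F) : M.St_RSP := by
  refine ⟨fun v => ?_, fun S v rs pb hr hp => ?_, fun Φ rs c0 hr => Finsupp.ext fun C => ?_, ?_⟩
  · have h1 : Function.Injective v.V := fun C C' h1 => Subtype.ext (by rw [← v.pV, h1, v.pV])
    exact ⟨Finsupp.mapDomain.addMonoidHom v.V, fun N C => Finsupp.mapDomain_apply h1 N C,
      fun N E h => Finsupp.mapDomain_of_notMem_range N E fun ⟨C, h2⟩ => h C h2.symm⟩
  · have h1 : ∀ w, w ≠ 0 → S.γ.τ (w / S.z ^ M.X.ord w S.E.1) ≠ 0 ∧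
        rs (M.X.div w) = M.B.div (S.γ.τ (w / S.z ^ M.X.ord w S.E.1)) := fun w hw =>
      ⟨S.τ_ne (un_iff_ord.2 ⟨div_ne_zero hw (zpow_ne_zero _ S.z_ne), by
        rw [ord_div hw (zpow_ne_zero _ S.z_ne), ord_zpow, S.ord_z]; simp⟩),
        Finsupp.ext fun C => hr _ C w (locEq_div hw)⟩
    refine ⟨fun a => Finsupp.ext fun E => ?_, fun N => Finsupp.ext fun C => ?_,
      fun D h2 h3 C => ?_, h1, ?_, fun w hw => ?_⟩
    · rcases v.vert E with h | ⟨C, rfl⟩
      · rw [hp.2 _ _ (v.hor_iff.1 h), div_apply, h.ord]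
      · rw [hp.1, div_apply, div_apply, v.ordV]
    · have h2 := (M.cB N).lf C.1
      rw [hr _ C (algebraMap K F (lf N C.1)) (.mk' ((_root_.map_ne_zero _).2 h2.1) fun E hE => ?_),
        hp.2 _ _ (v.hor_iff.1 S.hor), zpow_zero, _root_.div_one, S.res, h2.eq le_rfl]
      rcases v.vert E with h | ⟨C', rfl⟩
      · rw [hp.2 _ _ (v.hor_iff.1 h), h.ord]
      · obtain rfl := v.eq_of_le (S.p_ξ C) hE
        rw [hp.1, v.ordV, h2.eq le_rfl]
    · have h4 := (M.cX D).lf (S.ξ C)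
      rw [hr _ C _ h4, h3, zpow_zero, _root_.div_one]
      exact ord_nonneg (S.mem C _ (h4.mem h2))
    · rintro _ D ⟨w, hw, rfl⟩
      exact ⟨_, (h1 w hw).1, by rw [map_add, (h1 w hw).2]⟩
    · have := h1 w hw.1
      rw [ord_un hw, zpow_zero, _root_.div_one] at this
      exact ⟨_, this.1, this.2, S.sub_τ hw.2.1⟩
  · have h1 := M.x_ne
    have h2 := M.y_ne
    have h3 := M.l_ne C
    rw [hr _ C _ (c0 C).2.1, Φ.S_zero, Finsupp.single_eq_same, Φ.z_zero, zpow_one,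
      show M.x / (M.l C * M.y) / (M.x / M.y) = (M.l C)⁻¹ by field_simp, Ell.l, ← map_inv₀,
      (Φ.S 0).res, ord_inv, M.ord_lf]
    rfl
  rintro Φ rs e b hq ⟨p1, p2, p3, p4, p5⟩ hr D C h hh
  have t1 : ∀ w, Φ.τ b (Φ.τ (-b) w) = w := fun w => by
    rw [← AlgEquiv.mul_apply, ← Φ.τ_add, add_neg_cancel, Φ.τ_zero, AlgEquiv.one_apply]
  have t2 : ∀ w (E : M.X.PD), M.X.ord (Φ.τ (-b) w) E.1 = M.X.ord w (e b E).1 := fun w E => by
    rw [← t1 w, show M.X.ord (Φ.τ b _) _ = _ from (p1 b).2 _ E, t1]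
  have h1 := (M.cX (push (e b) D)).lf ((Φ.S 0).ξ C)
  have h2 : LocEq D ((Φ.S b).ξ C) (Φ.τ (-b) (lf (push (e b) D) ((Φ.S 0).ξ C))) :=
    .mk' ((_root_.map_ne_zero _).2 h1.1) fun E hE => by
      rw [t2, ← h1.eq fun w hw => ?_, push_at]
      have := ordGe_zero.2 (hE (hq b C w hw))
      rwa [mem_ordGe, t2, map_eq_zero, ← mem_ordGe, ordGe_zero] at this
  have h3 : push (e b) D (Φ.S 0).E = D (Φ.S b).E := by rw [← sub_self b, ← p2, push_at]
  rw [RS_.indep _ hh h2, Φ.γ_S _ _ (RS_.un _ h2).2.1, map_div₀, map_zpow₀, t1, Φ.z_S, t1,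
    ← Φ.z_zero, ← h3]
  exact hr _ C _ h1

end Pool.Agent.Lib.EL
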