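import Pool.Agent.Lib.EL.KitG

open Set WithZero Polynomial Pool.Agent.Lib.MP_e39d36_ag Pool.Agent.Lib.MP_e39d36_ag.Var
  Pool.Agent.Lib.MV.End

set_option linter.unusedSectionVars false
set_option linter.unusedVariables false
set_option linter.style.haveILetI false

noncomputable section

namespace Pool.Agent.Lib.EL

attribute [local instance] Classical.propDecidable

variable {K F : Type} [Field K] [Field F] [Algebra ℂ K] [Algebra ℂ F] [Algebra K F]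
  [IsScalarTower ℂ K F]

theorem st_SEC (M : Ell K F) : M.St_SEC := by
  intro E z hE h z0 z1
  choose! τ hτ using h
  have u : ∀ w a, w - algebraMap K F a ∈ M.X.nu E.1 → τ w = a := fun w a h => hE.eq_of_nu (by
    simpa using sub_mem h (hτ w (by simpa using add_mem h.1 (hE a))))
  have m : ∀ u w : F, u ∈ M.X.O E.1 → w ∈ M.X.nu E.1 → u * w ∈ M.X.nu E.1 :=
    fun u w h1 h2 => ⟨mul_mem h1 h2.1, fun h3 => h2.2 (h3.of_mul' h1 h2.1)⟩
  have r : ∀ a, τ (algebraMap K F a) = a := fun a => u _ _ (by simp)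
  let γ : CMap M.X K :=
    { c := E.1, τ := τ
      add := fun a ha b hb => u _ _ (by
        rw [map_add, add_sub_add_comm]; exact add_mem (hτ a ha) (hτ b hb))
      mul := fun a ha b hb => u _ _ ((congrArg (· ∈ _) (by rw [map_mul]; ring)).mp
        (add_mem (m _ _ ha (hτ b hb)) (m _ _ (hE (τ b)) (hτ a ha))))
      const := fun a => by rw [IsScalarTower.algebraMap_apply ℂ K F, r]
      zero := fun a ha h => u _ _ (by simpa using ⟨ha, h⟩) }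
  let T : M.B.PD → Subring F := fun C => ((M.B.O C.1).comap γ.hom).map (M.X.O E.1).subtype
  have t1 : ∀ C a, a ∈ T C ↔ a ∈ M.X.O E.1 ∧ τ a ∈ M.B.O C.1 := fun C a =>
    ⟨by rintro ⟨b, hb, rfl⟩; exact ⟨b.2, hb⟩, fun h => ⟨⟨a, h.1⟩, h.2, rfl⟩⟩
  have i : ∀ a, Un (M.X.O E.1) a → τ a⁻¹ = (τ a)⁻¹ := fun a h => CMap.τ_inv' (γ := γ) h
  have t2 : ∀ C a, a ∈ M.X.O E.1 → Un (M.B.O C.1) (τ a) → Un (T C) a := fun C a h1 h2 =>
    have h3 : Un (M.X.O E.1) a := CMap.un_of_ne (γ := γ) h1 h2.1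
    ⟨h3.1, (t1 _ _).2 ⟨h1, h2.2.1⟩, (t1 _ _).2 ⟨h3.2.2,
      (i a h3).symm ▸ h2.2.2⟩⟩
  have t3 : ∀ C a, Un (T C) a → Un (M.B.O C.1) (τ a) := fun C a h =>
    have h3 : Un (M.X.O E.1) a := h.mono fun _ h => ((t1 _ _).1 h).1
    ⟨CMap.τ_ne (γ := γ) h3, ((t1 _ _).1 h.2.1).2,
      i a h3 ▸ ((t1 _ _).1 h.2.2).2⟩
  have t4 : ∀ C, IsLoc (T C) := fun C a ha => by
    obtain ⟨h1, h2⟩ := (t1 _ _).1 ha
    refine (M.B.isLoc _ _ h2).imp (t2 C a h1) fun h => t2 C _ (sub_mem (one_mem _) h1) ?_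
    rwa [u (1 - a) (1 - τ a) (by simpa using neg_mem (hτ a h1))]
  have t5 : ∀ C, ∃ ξ, Dom (M.X.O ξ) (T C) := fun C => by
    obtain ⟨i, hi⟩ := M.X.compl E.1 (T C) (fun _ h => ((t1 _ _).1 h).1)
      (fun a => (t1 _ _).2 ⟨M.X.const_mem _ a, (show τ _ = _ from γ.const a).symm ▸ M.B.const_mem _ a⟩) fun a ha h => by
        have h1 : τ a ∉ M.B.O C.1 := fun h1 => h ((t1 _ _).2 ⟨ha, h1⟩)
        have h2 : Un (M.X.O E.1) a := CMap.un_of_ne (γ := γ) ha fun h : τ a = 0 => h1 (h ▸ zero_mem _)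
        exact ⟨h2, (t1 _ _).2 ⟨h2.2.2, (i a h2).symm ▸
          ((isV C).val _).resolve_left h1⟩⟩
    exact (exists_centre (t4 C) hi).imp fun _ h => h.1
  choose ξ hξ using t5
  have t6 : ∀ C, (T C).comap (algebraMap K F) = M.B.O C.1 := fun C => Subring.ext fun a => by
    rw [Subring.mem_comap, t1, r, and_iff_right (hE a)]
  refine ⟨⟨E, γ, z, ξ, rfl, hE, r, z0, z1, fun C w h => ((t1 _ _).1 ((hξ C).1 h)).1,
    fun C w h => ((t1 _ _).1 ((hξ C).1 h)).2,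
    fun C w h h' => (hξ C).2 w h (t2 C w ((t1 _ _).1 ((hξ C).1 h)).1 h'),
    fun C => M.B.sep _ _ _ (M.B.isLoc C.1) (t6 C ▸ (M.dom _).trans ⟨fun _ h => (hξ C).1 h,
      fun z hz hu => un_comap.2 ((hξ C).2 _ hz (un_comap.1 hu))⟩) Dom.refl,
    fun C η h1 h2 => M.X.sep _ _ _ (t4 C) ?_ (hξ C)⟩, rfl, rfl⟩
  have k : ∀ w ∈ M.X.O η, ∀ a, Un (M.B.O C.1) a → w - algebraMap K F a ∈ M.X.nu E.1 →
      Un (M.X.O η) w := fun w hw a ha h => by
    have h3 := (M.θ_un (h2 ▸ ha.2.1)).2 (h2 ▸ ha)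
    simpa using (M.X.isLoc η).add_un h3 (sub_mem hw h3.2.1) fun h4 => h.2 (h4.mono h1)
  refine ⟨fun w hw => (t1 _ _).2 ⟨h1 hw, of_not_not fun h => ?_⟩,
    fun w hw hu => k w hw _ (t3 C w hu) (hτ w (h1 hw))⟩
  have h3 := ((isV C).val _).resolve_left h
  have h4 : τ w ≠ 0 := fun h4 => h (h4 ▸ zero_mem _)
  have h5 := M.θ_mem (h2 ▸ h3)
  have h6 := (k _ (mul_mem h5 hw) 1 Un.one ((congrArg (· ∈ _) (by
    rw [mul_sub, ← map_mul, inv_mul_cancel₀ h4])).mp (m _ _ (hE (τ w)⁻¹) (hτ w (h1 hw))))).of_mul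
    h5 hw
  rw [M.θ_un (h2 ▸ h3), h2] at h6
  exact h (by simpa using h6.2.2)

end Pool.Agent.Lib.EL
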