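import Pool.Agent.Lib.EL.KitA

open Set WithZero Pool.Agent.Lib.MP_e39d36_ag Pool.Agent.Lib.MP_e39d36_ag.Var
  Pool.Agent.Lib.MV.End
open scoped NNReal

set_option linter.unusedSectionVars false
set_option linter.unusedVariables false
set_option linter.style.haveILetI false

noncomputable section

namespace Pool.Agent.Lib.EL

variable {K F : Type} [Field K] [Field F] [Algebra ℂ K] [Algebra ℂ F] {B : Var K} {X : Var F}
  {Λ : Type} [AddCommGroup Λ]

theorem st_TYPE (G : Geo B X Λ) : G.St_TYPE := by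
  rintro ⟨T, h1, h2⟩
  refine ⟨T, h1, fun D hD => ?_⟩
  obtain ⟨D', h3, h4⟩ := mov_eff hD
  obtain ⟨m, M, h5⟩ := G.exists_type h3
  replace h5 := h4.symm.trans h5
  by_cases h6 : m = 0
  · exact ⟨0, 0, M, by simp [Geo.Nice], by rwa [G.push_zero, ← h6]⟩
  obtain ⟨d, hd⟩ := Nat.exists_eq_add_one_of_ne_zero (mt Multiset.card_eq_zero.1 h6)
  obtain ⟨u, m', h7, h8, h9⟩ := h2 d m.sum
  obtain ⟨N, h10⟩ := G.A_le_A (m := m.map (· - u)) (m' := m') (by simp [hd, h7])
    (by rw [Multiset.sum_map_sub, Multiset.map_id', ← h8]; simp [hd, add_smul, add_comm])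
  refine ⟨u, m', N + M, h9, (h5.push (G.ps u)).trans ?_⟩
  rw [map_add, G.push_A, G.push_pb, map_add, ← add_assoc]
  exact h10.add (LE.refl _)

end Pool.Agent.Lib.EL
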