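import Pool.Agent.Lib.EL.Defs

open Set WithZero Polynomial Pool.Agent.Lib.MP_e39d36_ag Pool.Agent.Lib.MP_e39d36_ag.Var
  Pool.Agent.Lib.MV.End Pool.Agent.Lib.MP_cc3443_ag
open scoped NNReal

set_option linter.unusedSectionVars false
set_option linter.unusedVariables false

noncomputable section

namespace Pool.Agent.Lib.EL

attribute [local instance] Classical.propDecidable

variable {K F : Type} [Field K] [Field F] [Algebra ℂ K] [Algebra ℂ F]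

/-! ### Blocks on one model -/

section one

variable (Y : Var K)

/-- Cutting by a form through a given point. -/
def St_CUT : Prop := ∀ (Q : Prj Y) (m d : ℕ) (G : K) (x s : Y.Pt), G ∈ Q.Fm m → G ∈ Q.van m x →
  Y.O x ≤ Y.O s → Indep s (d + 1) →
    ∃ t, Y.O x ≤ Y.O t ∧ Y.O t ≤ Y.O s ∧ G ∈ Q.van m t ∧ Indep t d

/-- A form of positive degree has a zero on a positive dimensional subvariety. -/
def St_EXZ : Prop := ∀ (Q : Prj Y) (G : K) (s : Y.Pt), G ∈ Q.Fm 1 → Indep s 1 →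
  ∃ x, Y.O x ≤ Y.O s ∧ G ∈ Q.van 1 x

/-- The curve is in general position with respect to the primes of `S`. -/
def Avoid {F' : Type} [Field F'] [Algebra ℂ F'] (γ : CMap Y F') (S : Set Y.PD) : Prop :=
  (∀ C ∈ S, ¬Y.O γ.c ≤ Y.O C.1) ∧ ∀ P : Place F', ∀ C ∈ S, ∀ C' ∈ S,
    Y.O (γ.ctr P) ≤ Y.O C.1 → Y.O (γ.ctr P) ≤ Y.O C'.1 → C = C'

/-- A general curve through a point of a given prime divisor. -/
def St_CRV : Prop := ∀ (Q : Prj Y) (S : Set Y.PD) (C₀ : Y.PD), S.Countable → C₀ ∈ S →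
  ∃ c x, IsCurve c ∧ Y.O x ≤ Y.O c ∧ Y.O x ≤ Y.O C₀.1 ∧ (∀ C ∈ S, ¬Y.O c ≤ Y.O C.1) ∧
    ∀ z, Y.O z ≤ Y.O c → ∀ C ∈ S, ∀ C' ∈ S, Y.O z ≤ Y.O C.1 → Y.O z ≤ Y.O C'.1 → C = C'

/-- A general curve with positive degree. -/
def St_CURVE : Prop := ∀ (Q : Prj Y) (S : Set Y.PD) (D : Dv Y), S.Countable → Cart D → 0 ≤ D →
  D ≠ 0 → (∀ C, D C ≠ 0 → C ∈ S) → ∃ (F' : Type) (_ : Field F') (_ : Algebra ℂ F') (_ : IsFF F')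
    (γ : CMap Y F'), Avoid Y γ S ∧ 0 < γ.deg D

/-- Gordan's lemma for divisors. -/
def St_GOR0 : Prop := ∀ S₀ : Set (Dv Y), S₀.Finite → (∀ A ∈ S₀, 0 ≤ A) →
  ∃ S : Set (Dv Y), S.Finite ∧ (∀ A ∈ S, Mov A) ∧ ∀ D : Dv Y,
    (∀ E, ∃ (k : ℕ) (n : Multiset (Dv Y)), 0 < k ∧ (∀ A ∈ n, A ∈ S₀ ∧ A E = 0) ∧
      LE (k • D) n.sum) →
    ∃ (k : ℕ) (n : Multiset (Dv Y)), 0 < k ∧ (∀ A ∈ n, A ∈ S) ∧ LE (k • D) n.sum

/-- The closed movable cone is the closure of the rational multiples of movable classes. -/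
def St_RAT : Prop := ∀ (Γ : Curves Y) (hc : ∀ D : Dv Y, Cart D), (Γ.movC : Set Γ.N1) ⊆
  closure {v | ∃ (k : ℕ) (D : Dv Y), 0 < k ∧ Mov D ∧ (k : ℝ) • v = nc Γ hc D}

/-- From a covering cone to a fundamental domain. -/
def St_FIN : Prop := ∀ (Γ : Curves Y) (hc : ∀ D : Dv Y, Cart D) (Q : Prj Y) (S : Set (Dv Y)),
  FiniteDimensional ℝ Γ.N1 → S.Finite → (∀ D ∈ S, Mov D) →
    IsClosed (Submodule.span ℝ≥0 (nc Γ hc '' S) : Set Γ.N1) ∧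
    ((∀ v ∈ Γ.movE, ∃ φ T, Γ.IsPull φ T ∧ T v ∈ Submodule.span ℝ≥0 (nc Γ hc '' S)) → Cone Γ)

end one

/-! ### Abstract blocks -/

namespace Geo

variable {B : Var K} {X : Var F} {Λ : Type} [AddCommGroup Λ] (G : Geo B X Λ)

def St_CEL : Prop := ∀ (r : ℕ) (P : Fin (r + 1) → Λ), G.Gens P → G.Cells

/-- Movable divisors are translates of sums of sections in good position. -/
def St_TYPE : Prop := G.Cells → ∃ T : Set Λ, T.Finite ∧ ∀ D, Mov D →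
  ∃ u m M, G.Nice T m ∧ LE (push (G.e u) D) (G.A m + G.pb M)

/-- The members of `S` move sums of sections in good position off one of them. -/
def Good (T : Set Λ) (S : Set (Dv X)) : Prop := S.Finite ∧
  (∀ D ∈ S, 0 ≤ D ∧ ∃ (m : Multiset Λ) (N : Dv B), m ≠ 0 ∧ LE D (G.A m + G.pb N)) ∧
  (∀ a ∈ T, G.s a ∈ S) ∧ ∀ m, G.Nice T m → 2 ≤ m.card → ∃ a ∈ m, ∃ (n : Multiset (Dv X))
    (N : Dv B), (∀ D ∈ n, D ∈ S) ∧ n.sum (G.σ a) = 0 ∧ G.rs (push (G.e a) n.sum) = 0 ∧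
      LE n.sum (G.A m + G.pb N)

def St_GOOD : Prop := ∀ T : Set Λ, T.Finite → ∃ S, G.Good T S

def St_PEEL : Prop := ∀ T S, G.Good T S → ∀ m, G.Nice T m → ∀ (M : Dv B) (f : F) (E : X.PD),
  f ≠ 0 → 0 ≤ G.A m + G.pb M + X.div f → (G.A m + G.pb M + X.div f) E = 0 →
    ∃ (n : Multiset (Dv X)) (M' : Dv B), (∀ D ∈ n, D ∈ S ∧ D E = 0) ∧ 0 ≤ M' ∧ G.pb M' E = 0 ∧
      LE (G.A m + G.pb M) (n.sum + G.pb M')

def St_GOR : Prop := St_GOR0 X → St_GOR0 B → MD (oV B) → ∀ S₀, G.FinG S₀ → ∃ S SB, G.Gor S SB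

variable (Γ : Curves X) (hc : ∀ D : Dv X, Cart D)

def St_HT : Prop := G.Num Γ hc → Nontrivial Λ → Nonempty (G.Ht Γ hc)

def St_FAC : Prop := AddGroup.FG Λ → ∀ H : G.Ht Γ hc, H.Fac

def St_PUL : Prop := ∀ H : G.Ht Γ hc, H.Fac → H.Pul

def St_FD : Prop := AddGroup.FG Λ → Prj B → (∀ M : Dv B, Cart M) → ∀ S SB, G.Gor S SB →
  FiniteDimensional ℝ Γ.N1

/-- Effective classes of degree zero are vertical. -/
def St_EFF : Prop := ∀ H : G.Ht Γ hc,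
  (∀ v ∈ Γ.cone {D | 0 ≤ D.1}, 0 ≤ H.dd v ∧ (H.dd v = 0 → ∀ b, H.vv b v = 0)) ∧
  ∀ S : Set (Dv X), S.Finite → (∀ D ∈ S, Mov D) → ∀ b, ∃ c : ℝ,
    ∀ v ∈ Submodule.span ℝ≥0 (nc Γ hc '' S), |H.vv b v| ≤ c * H.dd v

/-- The vertical part of a movable class. -/
def St_LIM0 : Prop := Prj B → (∀ M : Dv B, Cart M) → ∀ H : G.Ht Γ hc, H.Fac → ∀ S₀ S SB,
  G.FinG S₀ → G.Gor S SB → ∃ Ψ : Γ.N1 →ₗ[ℝ] Γ.N1,
    (∀ D, Mov D → Ψ (nc Γ hc D) ∈ Submodule.span ℝ≥0 (nc Γ hc '' S)) ∧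
    ∀ v, H.dd v = 0 → (∀ b, H.vv b v = 0) → Ψ v = v

/-- Limits of positive degree. -/
def St_LIM1 : Prop := St_RAT X → G.St_EFF Γ hc → FiniteDimensional ℝ Γ.N1 → ∀ H : G.Ht Γ hc,
  H.Fac → H.Pul → ∀ S SB, G.Gor S SB → IsClosed (Submodule.span ℝ≥0 (nc Γ hc '' S) : Set Γ.N1) →
    ∀ v ∈ Γ.movC, 0 < H.dd v → ∃ φ T, Γ.IsPull φ T ∧ T v ∈ Submodule.span ℝ≥0 (nc Γ hc '' S)

end Geo

/-! ### Geometric blocks -/

variable [Algebra K F] [IsScalarTower ℂ K F]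

namespace Ell

variable (M : Ell K F)

def St_VINF : Prop := ∃ v, M.Inf v

def St_PLACE : Prop := ∀ v : Valuation F ℤᵐ⁰, Function.Surjective v →
  (∀ a : K, v (algebraMap K F a) ≤ 1) → ∃ E : M.X.PD, val E = v

def St_AFF : Prop := ∀ O, M.Hor O → M.Inf (val O) →
  (∀ E, M.Hor E → E ≠ O → LocOf M.R0 (M.X.O E.1)) ∧
  ∀ w, (∀ E, M.Hor E → E ≠ O → 0 ≤ M.X.ord w E.1) → w ∈ M.R0

/-- The Gauss valuation over a prime of the base. -/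
def Gs (C : M.B.PD) (w : Valuation F ℤᵐ⁰) : Prop := Function.Surjective w ∧
  ∀ (p q : K[X]) (n : ℤ), (M.el p q = 0 ∨ n ≤ od w (M.el p q)) ↔
    (∀ i : ℕ, p.coeff i ∈ ordGe C (n + 2 * i * M.L C)) ∧
      ∀ i : ℕ, q.coeff i ∈ ordGe C (n + (2 * i + 3) * M.L C)

def St_GAUSS : Prop := ∀ C, ∃ w, M.Gs C w

def St_VT : Prop := M.St_GAUSS → Nonempty M.Hz → Nonempty M.Vt

/-- Points with transcendental abscissa give embeddings of the function field. -/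
def St_EMB : Prop := (∀ a b : F, (∀ q : K[X], aeval a q = 0 → q = 0) →
  b ^ 2 = a ^ 3 + algebraMap K F M.f * a + algebraMap K F M.g →
    ∃ φ : F →ₐ[K] F, φ M.x = a ∧ φ M.y = b) ∧
  ∀ φ ψ : F →ₐ[K] F, φ M.x = ψ M.x → φ M.y = ψ M.y → φ = ψ

def St_TAU : Prop := M.St_EMB → Nonempty M.Tr

def St_SEC : Prop := ∀ (E : M.X.PD) (z : F), M.Hor E →
  (∀ w ∈ M.X.O E.1, ∃ a : K, w - algebraMap K F a ∈ M.X.nu E.1) → z ≠ 0 → M.X.ord z E.1 = 1 →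
    ∃ S : M.Sec, S.E = E ∧ S.z = z

def St_RES : Prop := ∀ H : M.Hz,
  (∀ w ∈ M.X.O H.O.1, ∃ a : K, w - algebraMap K F a ∈ M.X.nu H.O.1) ∧
  ∀ (T : M.Tr) a b h, T.τ (.some a b h) M.x - algebraMap K F a ∈ M.X.nu H.O.1 ∧
    T.τ (.some a b h) M.y - algebraMap K F b ∈ M.X.nu H.O.1

def St_FAM : Prop := M.St_SEC → M.St_RES → Nonempty M.Hz → Nonempty M.Vt → Nonempty M.Tr →
  Nonempty M.Fam

def St_CH0 : Prop := ∀ Φ : M.Fam, Φ.Ch0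

def St_FIB : Prop := ∀ (S : M.Sec) (v : M.Vt), S.Fib v

def St_SMO : Prop := ∀ Φ : M.Fam, Φ.Smo

variable {M} in
/-- Translations map the integral model into the ring of the vertical prime. -/
def Fam.TV1 (Φ : M.Fam) (a : M.Pt) (C : M.B.PD) : Prop :=
  M.l C ^ 2 * Φ.τ a M.x ∈ M.X.O (Φ.V C).1 ∧
    ∀ s : K[X], Un (M.X.O (Φ.V C).1) (aeval M.x s) → Un (M.X.O (Φ.V C).1) (aeval (Φ.τ a M.x) s)

def St_TVA : Prop := M.St_FIB → ∀ Φ : M.Fam, Φ.Ch0 → Φ.Smo → ∀ a b h C,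
  a ∈ ordGe C (-2 * M.L C) → Φ.TV1 (.some a b h) C

def St_TVB : Prop := ∀ (Φ : M.Fam) a b h C, a ∉ ordGe C (-2 * M.L C) →
  Φ.τ (.some a b h) M.x - M.x ∈ ordGe (Φ.V C) (1 - 2 * M.L C) ∧ Φ.TV1 (.some a b h) C

def St_TV : Prop := ∀ Φ : M.Fam, (∀ a C, Φ.TV1 a C) → Φ.TV

variable {M} in
/-- Translations permute the prime divisors. -/
def Fam.Perm (Φ : M.Fam) (e : M.Pt → M.X.PD ≃ M.X.PD) : Prop :=
  (∀ u, Ps (Φ.τ u).toRingEquiv (e u)) ∧ (∀ u a, e u (Φ.S a).E = (Φ.S (a - u)).E) ∧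
    (∀ u C, e u (Φ.V C) = Φ.V C) ∧ (∀ u E, e (-u) (e u E) = E) ∧ ∀ E, e 0 E = E

def St_PERM : Prop := ∀ Φ : M.Fam, Φ.TV → ∃ e, Φ.Perm e

def St_EQV : Prop := M.St_FIB → ∀ (Φ : M.Fam) e, Φ.Ch0 → Φ.Perm e → Φ.Eqv

def St_RS : Prop := ∀ S : M.Sec, ∃ rs, S.IsRs rs

variable {M} in
/-- Properties of the restriction and of the pull-back. -/
structure Sec.RsP (S : M.Sec) (rs : Dv M.X →+ Dv M.B) (pb : Dv M.B →+ Dv M.X) : Prop where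
  pb_div : ∀ a, pb (M.B.div a) = M.X.div (algebraMap K F a)
  rs_pb : ∀ N, rs (pb N) = N
  rs_eff : ∀ D, 0 ≤ D → D S.E = 0 → 0 ≤ rs D
  rs_div : ∀ w, w ≠ 0 → S.γ.τ (w / S.z ^ M.X.ord w S.E.1) ≠ 0 ∧
    rs (M.X.div w) = M.B.div (S.γ.τ (w / S.z ^ M.X.ord w S.E.1))
  rs_LE : ∀ D D', LE D D' → LE (rs D) (rs D')
  rs_un : ∀ w, Un (M.X.O S.E.1) w →
    ∃ c, c ≠ 0 ∧ rs (M.X.div w) = M.B.div c ∧ w - algebraMap K F c ∈ M.X.nu S.E.1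

def St_RSP : Prop := (∀ v : M.Vt, ∃ pb, v.IsPb pb) ∧
  (∀ (S : M.Sec) (v : M.Vt) rs pb, S.IsRs rs → v.IsPb pb → S.RsP rs pb) ∧
  (∀ (Φ : M.Fam) rs, Φ.Ch0 → (Φ.S 0).IsRs rs → rs (Finsupp.single Φ.O 1) = -M.L) ∧
  ∀ (Φ : M.Fam) rs e b, Φ.Eqv → Φ.Perm e → (Φ.S 0).IsRs rs →
    (Φ.S b).IsRs (rs.comp (push (e b)).toAddMonoidHom)

def St_INT : Prop := M.St_FIB → ∀ (Φ : M.Fam) rs, Φ.Ch0 → (Φ.S 0).IsRs rs → Φ.Int rs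

/-- Orders of `y - v`, `y + v` and of the factors of the norm. -/
def Core (O : M.X.PD) : Prop := ∀ E, M.Hor E → E ≠ O → ∀ u u' v : K[X], v ^ 2 - M.cub = u * u' →
  0 ≤ M.X.ord (aeval M.x u) E.1 ∧ 0 ≤ M.X.ord (aeval M.x u') E.1 ∧
  0 ≤ M.X.ord (M.y - aeval M.x v) E.1 ∧ 0 ≤ M.X.ord (M.y + aeval M.x v) E.1 ∧
  M.X.ord (M.y - aeval M.x v) E.1 + M.X.ord (M.y + aeval M.x v) E.1 =
    M.X.ord (aeval M.x u) E.1 + M.X.ord (aeval M.x u') E.1 ∧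
  (0 < M.X.ord (M.y - aeval M.x v) E.1 → 0 < M.X.ord (M.y + aeval M.x v) E.1 →
    M.X.ord (aeval M.x u) E.1 = 0 ∨ M.X.ord (aeval M.x u') E.1 = 0)

variable {M} in
/-- The prime of a rational point. -/
def Fam.Pts (Φ : M.Fam) : Prop := ∀ a b h, (Φ.S (.some a b h)).E ≠ Φ.O ∧ ∀ E, M.Hor E → E ≠ Φ.O →
  min (M.X.ord (M.x - algebraMap K F a) E.1) (M.X.ord (M.y - algebraMap K F b) E.1) =
    (Finsupp.single (Φ.S (.some a b h)).E (1 : ℤ)) E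

def St_DV : Prop := ∀ Φ : M.Fam, M.Core Φ.O ∧ Φ.Pts

/-- Linear equivalence on the generic fibre. -/
def HE (D D' : Dv M.X) : Prop := ∃ φ : F, φ ≠ 0 ∧ ∀ E, M.Hor E → D E = D' E + M.X.ord φ E.1

variable {M} in
/-- The divisor of a section. -/
abbrev Fam.s (Φ : M.Fam) (a : M.Pt) : Dv M.X := Finsupp.single (Φ.S a).E 1

def St_SQ : Prop := ∀ Φ : M.Fam, M.Core Φ.O → Φ.Pts → ∀ a b,
  M.HE (Φ.s (a + b) + Φ.s 0) (Φ.s a + Φ.s b)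

/-- `D` is the divisor with Mumford coordinates `u`, `v`. -/
def Mum (O : M.X.PD) (u v : K[X]) (D : Dv M.X) : Prop := D O = 0 ∧ ∀ E, M.Hor E → E ≠ O →
  D E = min (M.X.ord (aeval M.x u) E.1) (M.X.ord (M.y - aeval M.x v) E.1)

/-- Cantor reduction. -/
def St_CAN : Prop := ∀ Φ : M.Fam, M.Core Φ.O → Φ.Pts → ∀ u v D, u ≠ 0 → u ∣ v ^ 2 - M.cub →
  M.Mum Φ.O u v D → ∃ a, M.HE (D + Φ.s 0) (u.natDegree • Φ.s 0 + Φ.s a)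

def St_TYP : Prop := M.St_CAN → ∀ Φ : M.Fam, M.Core Φ.O → Φ.Pts → ∀ E, M.Hor E →
  ∃ (d : ℕ) (a : M.Pt), M.HE (Finsupp.single E 1) (d • Φ.s 0 + Φ.s a)

def St_MOV : Prop := ∀ (Φ : M.Fam) rs, Φ.Smo → Φ.Int rs → ∀ a, a ≠ 0 → ∀ C, ∃ k : ℕ, 0 < k ∧
  ∃ N, 0 ≤ N ∧ N C = 0 ∧ LE (k • (M.L + rs (Φ.s a))) N

variable {M} in
/-- `n` times the zero section plus `D` moves off the zero section. -/
def Fam.Mv (Φ : M.Fam) (rs : Dv M.X →+ Dv M.B) (pb : Dv M.B →+ Dv M.X) (D : Dv M.X) : Prop :=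
  ∃ G N, 0 ≤ G ∧ G (Φ.S 0).E = 0 ∧ rs G = 0 ∧ LE G (D + pb N)

/-- A function with prescribed poles and leading term one gives a divisor off the zero section. -/
def St_MV : Prop := ∀ (Φ : M.Fam) rs pb (n : ℕ) (D : Dv M.X) (w : F), Φ.toVt.IsPb pb →
  (Φ.S 0).RsP rs pb → rs (Φ.s 0) = -M.L → D Φ.O = 0 → (∀ C, D (Φ.V C) = 0) →
  w * (M.x / M.y) ^ n - 1 ∈ M.X.nu Φ.O.1 → (∀ E, M.Hor E → E ≠ Φ.O → 0 ≤ D E + M.X.ord w E.1) →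
  (∀ C, w ∈ ordGe (Φ.V C) (rs D C - n * M.L C)) → Φ.Mv rs pb (n • Φ.s 0 + D)

def St_BAS : Prop := M.St_MV → ∀ (Φ : M.Fam) rs pb, Φ.toVt.IsPb pb → (Φ.S 0).RsP rs pb →
  rs (Φ.s 0) = -M.L → ∀ n : ℕ, n = 2 ∨ n = 3 → Φ.Mv rs pb (n • Φ.s 0)

/-- The vertical orders of the two Morrison-Park functions. -/
def St_PV : Prop := ∀ (v : M.Vt) (a b c : K) (C : M.B.PD) (e : ℤ),
  b ^ 2 = a ^ 3 + M.f * a + M.g →
  (a ∈ ordGe C (-2 * M.L C) → e = 0 ∧ c ∈ ordGe C (-M.L C)) →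
  (a ∉ ordGe C (-2 * M.L C) → 2 * e = -M.B.ord a C.1 - 2 * M.L C ∧
    (b - c * a) ^ 2 / a ∈ ordGe C (-4 * M.L C)) →
  (M.y + algebraMap K F b) / (M.x - algebraMap K F a) + algebraMap K F c ∈
    ordGe (v.V C) (e - M.L C) ∧
  M.x + algebraMap K F c * ((M.y + algebraMap K F b) / (M.x - algebraMap K F a)) +
    algebraMap K F ((c ^ 2 + a) / 2) ∈ ordGe (v.V C) (e - 2 * M.L C)

def St_PAIR : Prop := M.St_MV → M.St_PV → ∀ (Φ : M.Fam) rs pb, Φ.toVt.IsPb pb →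
  (Φ.S 0).RsP rs pb → rs (Φ.s 0) = -M.L → Φ.Int rs → M.Core Φ.O → Φ.Pts →
  ∀ b, b ≠ 0 → MP (oV M.B) M.L b → ∀ n : ℕ, n = 1 ∨ n = 2 → Φ.Mv rs pb (n • Φ.s 0 + Φ.s b)

def St_LIFT : Prop := ∀ (S : M.Sec) rs, S.IsRs rs → ∃ Z : Set M.B.PD, Z.Finite ∧
  ∀ (F' : Type) [Field F'] [Algebra ℂ F'] [IsFF F'] (γ : CMap M.B F'), Avoid M.B γ Z →
    ∃ γ' : CMap M.X F', ∀ D, γ'.deg D = γ.deg (rs D)

end Ell

end Pool.Agent.Lib.EL
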