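import Pool.Agent.Lib.EL.SDefs
import Pool.Agent.Lib.MV.EndDefs

open Set WithZero Polynomial Pool.Agent.Lib.MP_e39d36_ag Pool.Agent.Lib.MP_e39d36_ag.Var
  Pool.Agent.Lib.MV.End

set_option linter.unusedSectionVars false
set_option linter.unusedVariables false

noncomputable section

namespace Pool.Agent.Lib.EL

attribute [local instance] Classical.propDecidable

variable {K F : Type} [Field K] [Field F] [Algebra ℂ K] [Algebra ℂ F]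

/-- Weil divisors. -/
abbrev Dv (X : Var K) : Type := X.PD →₀ ℤ

/-- Orders along prime divisors. -/
def oV (B : Var K) (a : K) (C : B.PD) : ℤ := B.ord a C.1

/-! ### The abstract layer -/

/-- What the geometry has to deliver. `σ a` is the section of the point `a`, `V C` the prime over
`C`, `pb` the pull-back, `rs` the restriction to the zero section, `e u` the translation. -/
structure Geo (B : Var K) (X : Var F) (Λ : Type) [AddCommGroup Λ] where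
  θ : K →+* F
  σ : Λ → X.PD
  V : B.PD → X.PD
  pb : Dv B →+ Dv X
  rs : Dv X →+ Dv B
  τ : Λ → RingAut F
  e : Λ → X.PD ≃ X.PD
  L : Dv B
  Mt : Λ → Prop
  Pr : Λ → Prop
  ps : ∀ u, Ps (τ u) (e u)
  τ_θ : ∀ u c, τ u (θ c) = θ c
  e_σ : ∀ u a, e u (σ a) = σ (a - u)
  e_V : ∀ u C, e u (V C) = V C
  e_neg : ∀ u E, e (-u) (e u E) = E
  e_zero : ∀ E, e 0 E = E
  pb_V : ∀ M C, pb M (V C) = M C
  pb_h : ∀ M E, (∀ C, E ≠ V C) → pb M E = 0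
  pb_div : ∀ a, pb (B.div a) = X.div (θ a)
  σ_V : ∀ a C, σ a ≠ V C
  σ_inj : ∀ a, σ a = σ 0 → a = 0
  rs_pb : ∀ M, rs (pb M) = M
  rs_O : rs (Finsupp.single (σ 0) 1) = -L
  rs_eff : ∀ D, 0 ≤ D → D (σ 0) = 0 → 0 ≤ rs D
  rs_LE : ∀ D D', LE D D' → LE (rs D) (rs D')
  rs_un : ∀ w, Un (X.O (σ 0).1) w →
    ∃ c, c ≠ 0 ∧ rs (X.div w) = B.div c ∧ w - θ c ∈ X.nu (σ 0).1
  one : ∀ w, w ≠ 0 → (∀ E, (∀ C, E ≠ V C) → E ≠ σ 0 → 0 ≤ X.ord w E.1) →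
    -1 ≤ X.ord w (σ 0).1 → ∃ c, w = θ c
  sq : ∀ a b, ∃ M, LE (Finsupp.single (σ (a + b)) 1 + Finsupp.single (σ 0) 1)
    (Finsupp.single (σ a) 1 + Finsupp.single (σ b) 1 + pb M)
  typ : ∀ E, (∀ C, E ≠ V C) → ∃ (d : ℕ) (a : Λ) (M : Dv B),
    LE (Finsupp.single E 1) (d • Finsupp.single (σ 0) 1 + Finsupp.single (σ a) 1 + pb M)
  mov : ∀ a, a ≠ 0 → ∀ C, ∃ k : ℕ, 0 < k ∧ ∃ M, 0 ≤ M ∧ M C = 0 ∧
    LE (k • (L + rs (Finsupp.single (σ a) 1))) M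
  bas : ∀ n : ℕ, n = 2 ∨ n = 3 → ∃ G N, 0 ≤ G ∧ G (σ 0) = 0 ∧ rs G = 0 ∧
    LE G (n • Finsupp.single (σ 0) 1 + pb N)
  pair : ∀ b, b ≠ 0 → Pr b → ∀ n : ℕ, n = 1 ∨ n = 2 → ∃ G N, 0 ≤ G ∧ G (σ 0) = 0 ∧ rs G = 0 ∧
    LE G (n • Finsupp.single (σ 0) 1 + Finsupp.single (σ b) 1 + pb N)
  dis : ∀ b, b ≠ 0 → ¬Mt b → rs (Finsupp.single (σ b) 1) = 0
  pr_of : ∀ b, ¬Mt b → Pr b
  mt_neg : ∀ b, Mt (-b) → Mt b
  mt_zero : ¬Mt 0

namespace Geo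

variable {B : Var K} {X : Var F} {Λ : Type} [AddCommGroup Λ] (G : Geo B X Λ)

/-- The divisor of a section. -/
abbrev s (a : Λ) : Dv X := Finsupp.single (G.σ a) 1

/-- `n` times the zero section plus the section `b` moves off the zero section. -/
def Off (n : ℕ) (b : Λ) : Prop :=
  ∃ D N, 0 ≤ D ∧ D (G.σ 0) = 0 ∧ G.rs D = 0 ∧ LE D (n • G.s 0 + G.s b + G.pb N)

/-- A sum of sections. -/
abbrev A (m : Multiset Λ) : Dv X := (m.map G.s).sum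

/-- Sections in good position. -/
def Nice (T : Set Λ) (m : Multiset Λ) : Prop := (∀ b ∈ m, b ∈ T) ∧
  (∀ a ∈ m, ∀ b ∈ m, a ≠ b → G.Off 1 (b - a) ∧ G.Off 2 (b - a)) ∧
  ∀ a ∈ m, ∀ b ∈ m, ∀ c ∈ m, G.Mt (b - a) → G.Mt (c - a) → b = c

/-- Every class of positive degree is a sum of translates of boundedly many sections in good
position. -/
def Cells : Prop := ∃ T : Set Λ, T.Finite ∧ ∀ (d : ℕ) (a : Λ), ∃ (u : Λ) (m : Multiset Λ),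
  m.card = d + 1 ∧ m.sum + (d + 1) • u = a ∧ G.Nice T m

/-- The hypothesis on generators. -/
def Gens {r : ℕ} (P : Fin (r + 1) → Λ) : Prop :=
  r ≤ 3 ∧ AddSubgroup.closure {a | ∃ i j, a = P j - P i} = ⊤ ∧ (∀ i j, G.Pr (P j - P i)) ∧
    (∀ i j k, G.Mt (P j - P i) → G.Mt (P k - P i) → P j = P k) ∧
    (r = 3 → ∀ i j, ¬G.Mt (P j - P i))

/-- Finite generation over the base, up to translation. -/
def FinG (S : Set (Dv X)) : Prop := S.Finite ∧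
  (∀ D ∈ S, 0 ≤ D ∧ ∃ (m : Multiset Λ) (N : Dv B), m ≠ 0 ∧ LE D (G.A m + G.pb N)) ∧
  ∀ D, Mov D → ∃ u, ∀ E, ∃ (n : Multiset (Dv X)) (M : Dv B), (∀ A ∈ n, A ∈ S ∧ A E = 0) ∧
    0 ≤ M ∧ G.pb M E = 0 ∧ LE (push (G.e u) D) (n.sum + G.pb M)

variable (Γ : Curves X) (hc : ∀ D : Dv X, Cart D)

/-- Numerical functionals. -/
def Num : Prop := ∃ δ : Dv B →+ ℤ, (∀ a, a ≠ 0 → δ (B.div a) = 0) ∧
  (∀ a, a ≠ 0 → 0 ≤ δ (G.rs (G.s a))) ∧ 0 < δ G.L ∧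
  ∀ b, ∃ ψ : Γ.N1 →ₗ[ℝ] ℝ, ∀ D, ψ (nc Γ hc D) = δ (G.rs (push (G.e b) D))

/-- The height pairing and the functionals it defines. -/
structure Ht where
  Bf : Λ →+ Λ →+ ℤ
  Bn : Λ →+ Λ →+ Γ.N1
  lin : Λ →+ Γ.N1
  dd : Γ.N1 →ₗ[ℝ] ℝ
  vv : Λ → Γ.N1 →ₗ[ℝ] ℝ
  pos : ∀ a, a ≠ 0 → 0 < Bf a a
  symm : ∀ a b, Bf a b = Bf b a
  nc_s : ∀ a, nc Γ hc (G.s a) = nc Γ hc (G.s 0) + lin a + nc Γ hc (G.pb (G.L + G.rs (G.s a)))
  add : ∀ a b, nc Γ hc (G.pb (G.L + G.rs (G.s (a + b)))) =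
    nc Γ hc (G.pb (G.L + G.rs (G.s a))) + nc Γ hc (G.pb (G.L + G.rs (G.s b))) + Bn a b
  dd_s : ∀ a, dd (nc Γ hc (G.s a)) = 1
  dd_pb : ∀ M, dd (nc Γ hc (G.pb M)) = 0
  vv_s : ∀ b a, vv b (nc Γ hc (G.s a)) = Bf a b
  vv_pb : ∀ b M, vv b (nc Γ hc (G.pb M)) = 0

variable {G Γ hc}

/-- Additive maps on the Mordell-Weil group factor through the functionals `vv`. -/
def Ht.Fac (H : G.Ht Γ hc) : Prop := ∃ (n : ℕ) (b : Fin n → Λ),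
  (∀ R : ℝ, {u : Λ | ∀ i, |(H.Bf u (b i) : ℝ)| ≤ R}.Finite) ∧
  ∀ φ : Λ →+ Γ.N1, ∃ w : Fin n → Γ.N1, ∀ a, φ a = ∑ i, (H.Bf a (b i) : ℝ) • w i

/-- Translations act on numerical classes. -/
def Ht.Pul (H : G.Ht Γ hc) : Prop := ∀ u, ∃ T : Γ.N1 ≃ₗ[ℝ] Γ.N1, Γ.IsPull (G.τ u) T ∧
  (∀ D, T (nc Γ hc D) = nc Γ hc (push (G.e u) D)) ∧ (∀ v, H.dd (T v) = H.dd v) ∧
  ∀ b v, H.vv b (T v) = H.vv b v - H.dd v * H.Bf u b

variable (G)

/-- Finitely many movable divisors upstairs and downstairs. -/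
def Gor (S : Set (Dv X)) (SB : Set (Dv B)) : Prop := S.Finite ∧ SB.Finite ∧ (∀ D ∈ S, Mov D) ∧
  (∀ M ∈ SB, G.pb M ∈ S) ∧
  (∀ D, Mov D → ∃ (u : Λ) (k : ℕ) (n : Multiset (Dv X)), 0 < k ∧ (∀ A ∈ n, A ∈ S) ∧
    LE (k • push (G.e u) D) n.sum) ∧
  ∀ M : Dv B, (∀ C, ∃ (k : ℕ) (M' : Dv B), 0 < k ∧ 0 ≤ M' ∧ M' C = 0 ∧ LE (k • M) M') →
    ∃ (k : ℕ) (n : Multiset (Dv B)), 0 < k ∧ (∀ A ∈ n, A ∈ SB) ∧ LE (k • M) n.sum

end Geo

/-! ### The geometric layer -/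

variable (K F) [Algebra K F] [IsScalarTower ℂ K F]

/-- A Weierstrass fibration in the language of local rings. -/
structure Ell where
  B : Var K
  X : Var F
  p : X.Pt → B.Pt
  dom : ∀ ξ, Dom (B.O (p ξ)) ((X.O ξ).comap (algebraMap K F))
  cB : ∀ D : Dv B, Cart D
  cX : ∀ D : Dv X, Cart D
  L : Dv B
  f : K
  g : K
  x : F
  y : F
  eqn : y ^ 2 = x ^ 3 + algebraMap K F f * x + algebraMap K F g
  tr : ∀ q : K[X], aeval x q = 0 → q = 0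
  disc : 4 * f ^ 3 + 27 * g ^ 2 ≠ 0
  sing : ∃ C : B.PD, B.ord (4 * f ^ 3 + 27 * g ^ 2) C.1 + 12 * L C ≠ 0
  hf : ∀ C, f ∈ ordGe C (-4 * L C)
  hg : ∀ C, g ∈ ordGe C (-6 * L C)
  nox : ∀ E : X.PD, B.O (p E.1) = ⊤ ∨ B.pd (p E.1)
  wei : ∀ ξ, B.O (p ξ) = ⊤ ∨ B.pd (p ξ) → ∀ l, LocEq L (p ξ) l →
    LocOf (Rg (algebraMap K F) (B.O (p ξ)) (algebraMap K F l ^ 2 * x) (algebraMap K F l ^ 3 * y))
      (X.O ξ) ∨
    LocOf (Rg (algebraMap K F) (B.O (p ξ)) (x / (algebraMap K F l * y))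
      (1 / (algebraMap K F l ^ 3 * y))) (X.O ξ)

variable {K F}

namespace Ell

variable (M : Ell K F)

/-- The Mordell-Weil group. -/
abbrev Pt : Type := (Wc M.f M.g).Point

/-- The cubic. -/
def cub : K[X] := Polynomial.X ^ 3 + C M.f * Polynomial.X + C M.g

/-- The element `p(x) + q(x) y`. -/
def el (p q : K[X]) : F := aeval M.x p + aeval M.x q * M.y

/-- Its norm. -/
def nm (p q : K[X]) : K[X] := p ^ 2 - q ^ 2 * M.cub

/-- Horizontal prime divisors. -/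
def Hor (E : M.X.PD) : Prop := ∀ a : K, algebraMap K F a ∈ M.X.O E.1

/-- The affine coordinate ring of the generic fibre. -/
def R0 : Subring F := Rg (algebraMap K F) ⊤ M.x M.y

/-- A local equation of `L` at a prime divisor. -/
def l (C : M.B.PD) : F := algebraMap K F (lf M.L C.1)

/-- Every function is a quotient by a polynomial in `x`. -/
def Frac : Prop := ∀ w : F, ∃ p q s : K[X], s ≠ 0 ∧ aeval M.x s * w = M.el p q

/-- The valuation at infinity. -/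
def Inf (v : Valuation F ℤᵐ⁰) : Prop := Function.Surjective v ∧
  ∀ p q : K[X], M.el p q ≠ 0 → od v (M.el p q) = -((M.nm p q).natDegree : ℤ)

/-- Horizontal primes are the places of the generic fibre. -/
structure Hz where
  O : M.X.PD
  frac : M.Frac
  inf : M.Inf (val O)
  horO : M.Hor O
  aff : ∀ E, M.Hor E → E ≠ O → LocOf M.R0 (M.X.O E.1)
  hart : ∀ w, (∀ E, M.Hor E → E ≠ O → 0 ≤ M.X.ord w E.1) → w ∈ M.R0
  place : ∀ v : Valuation F ℤᵐ⁰, Function.Surjective v → (∀ a : K, v (algebraMap K F a) ≤ 1) →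
    ∃ E : M.X.PD, val E = v

/-- The primes over the primes of the base. -/
structure Vt where
  V : M.B.PD → M.X.PD
  pV : ∀ C, M.p (V C).1 = C.1
  ordV : ∀ C a, M.X.ord (algebraMap K F a) (V C).1 = M.B.ord a C.1
  vert : ∀ E, M.Hor E ∨ ∃ C, E = V C
  gauss : ∀ C (p q : K[X]) (n : ℤ), M.el p q ∈ ordGe (V C) n ↔
    (∀ i : ℕ, p.coeff i ∈ ordGe C (n + 2 * i * M.L C)) ∧
      ∀ i : ℕ, q.coeff i ∈ ordGe C (n + (2 * i + 3) * M.L C)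

/-- Translations of the generic fibre. -/
structure Tr where
  τ : M.Pt → F ≃ₐ[K] F
  τ_zero : τ 0 = 1
  τ_add : ∀ a b, τ (a + b) = τ a * τ b
  τ_x : ∀ a b h, τ (.some a b h) M.x =
    ((M.y - algebraMap K F b) / (M.x - algebraMap K F a)) ^ 2 - M.x - algebraMap K F a
  τ_y : ∀ a b h, τ (.some a b h) M.y =
    -((M.y - algebraMap K F b) / (M.x - algebraMap K F a) * (τ (.some a b h) M.x - M.x) + M.y)

/-- A section: a horizontal prime with residue field `K`, a uniformiser and the points over the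
primes of the base. -/
structure Sec where
  E : M.X.PD
  γ : CMap M.X K
  z : F
  ξ : M.B.PD → M.X.Pt
  c_eq : γ.c = E.1
  hor : M.Hor E
  res : ∀ a : K, γ.τ (algebraMap K F a) = a
  z_ne : z ≠ 0
  ord_z : M.X.ord z E.1 = 1
  le : ∀ C, M.X.O (ξ C) ≤ M.X.O E.1
  mem : ∀ C w, w ∈ M.X.O (ξ C) → γ.τ w ∈ M.B.O C.1
  un : ∀ C w, w ∈ M.X.O (ξ C) → Un (M.B.O C.1) (γ.τ w) → Un (M.X.O (ξ C)) w
  p_ξ : ∀ C, M.p (ξ C) = C.1
  uniq : ∀ C η, M.X.O η ≤ M.X.O E.1 → M.p η = C.1 → η = ξ C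

variable {M}

/-- `rs` is the restriction of divisors to the section. -/
def Sec.IsRs (S : M.Sec) (rs : Dv M.X →+ Dv M.B) : Prop :=
  ∀ D C h, LocEq D (S.ξ C) h → rs D C = M.B.ord (S.γ.τ (h / S.z ^ D S.E)) C.1

/-- The local ring of the fibre at the point of the section is a valuation ring. -/
def Sec.Fib (S : M.Sec) (v : M.Vt) : Prop := ∀ C, M.X.O (S.ξ C) ≤ M.X.O (v.V C).1 ∧
  ∀ t, LocEq (Finsupp.single S.E 1) (S.ξ C) t → ∀ w, Un (M.X.O (v.V C).1) w →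
    ∃ (n : ℤ) (u : F), Un (M.X.O (S.ξ C)) u ∧ w - u * t ^ n ∈ M.X.nu (v.V C).1

variable (M)

/-- All sections. -/
structure Fam extends Hz M, Vt M, Tr M where
  S : M.Pt → M.Sec
  S_zero : (S 0).E = O
  z_zero : (S 0).z = M.x / M.y
  ord_S : ∀ a w, M.X.ord (τ (-a) w) (S a).E.1 = M.X.ord w O.1
  z_S : ∀ a, (S a).z = τ (-a) (M.x / M.y)
  γ_S : ∀ a w, w ∈ M.X.O (S a).E.1 → (S a).γ.τ w = (S 0).γ.τ (τ a w)
  x_S : ∀ a b h, M.x - algebraMap K F a ∈ M.X.nu (S (.some a b h)).E.1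
  y_S : ∀ a b h, M.y - algebraMap K F b ∈ M.X.nu (S (.some a b h)).E.1

variable {M}

/-- Translations fix the vertical primes. -/
def Fam.TV (Φ : M.Fam) : Prop := ∀ a C w, M.X.ord (Φ.τ a w) (Φ.V C).1 = M.X.ord w (Φ.V C).1

/-- The chart at infinity. -/
def Fam.Ch0 (Φ : M.Fam) : Prop := ∀ C,
  LocOf (Rg (algebraMap K F) (M.B.O C.1) (M.x / (M.l C * M.y)) (1 / (M.l C ^ 3 * M.y)))
    (M.X.O ((Φ.S 0).ξ C)) ∧
  LocEq (Finsupp.single Φ.O 1) ((Φ.S 0).ξ C) (M.x / (M.l C * M.y)) ∧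
  Un (M.X.O ((Φ.S 0).ξ C)) (M.l C ^ 3 * M.y * (M.x / (M.l C * M.y)) ^ 3)

/-- Integral points reduce to smooth points. -/
def Fam.Smo (Φ : M.Fam) : Prop := ∀ a b (h : (Wc M.f M.g).Nonsingular a b) C,
  a ∈ ordGe C (-2 * M.L C) →
    ¬(b ∈ ordGe C (-3 * M.L C + 1) ∧ 3 * a ^ 2 + M.f ∈ ordGe C (-4 * M.L C + 1))

/-- Translation maps the local rings along the zero section into those along a section. -/
def Fam.Eqv (Φ : M.Fam) : Prop := ∀ a C w, w ∈ M.X.O ((Φ.S 0).ξ C) →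
  Φ.τ (-a) w ∈ M.X.O ((Φ.S a).ξ C)

/-- The intersection of a section with the zero section. -/
def Fam.Int (Φ : M.Fam) (rs : Dv M.X →+ Dv M.B) : Prop :=
  ∀ a b (h : (Wc M.f M.g).Nonsingular a b) C,
    (a ∈ ordGe C (-2 * M.L C) → rs (Finsupp.single (Φ.S (.some a b h)).E 1) C = 0) ∧
    (a ∉ ordGe C (-2 * M.L C) →
      2 * rs (Finsupp.single (Φ.S (.some a b h)).E 1) C = -M.B.ord a C.1 - 2 * M.L C)

/-- `pb` is the pull-back of divisors. -/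
def Vt.IsPb (v : M.Vt) (pb : Dv M.B →+ Dv M.X) : Prop :=
  (∀ N C, pb N (v.V C) = N C) ∧ ∀ N E, (∀ C, E ≠ v.V C) → pb N E = 0

end Ell

end Pool.Agent.Lib.EL
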