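import Pool.Agent.Lib.EL.Blue

open Set WithZero Pool.Agent.Lib.MP_e39d36_ag Pool.Agent.Lib.MP_e39d36_ag.Var
  Pool.Agent.Lib.MV.End

set_option linter.unusedSectionVars false
set_option linter.unusedVariables false

noncomputable section

namespace Pool.Agent.Lib.EL

variable {K F : Type} [Field K] [Field F] [Algebra ℂ K] [Algebra ℂ F]

section one

variable {Y : Var K} {D D' : Dv Y} {a b : K} {E : Y.PD} {m n : ℤ}

lemma mem_ordGe : a ∈ ordGe E n ↔ a = 0 ∨ n ≤ Y.ord a E.1 := Iff.rfl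

lemma mem_ordGe' (h : a ≠ 0) : a ∈ ordGe E n ↔ n ≤ Y.ord a E.1 := by simp [mem_ordGe, h]

lemma ordGe_zero : a ∈ ordGe E 0 ↔ a ∈ Y.O E.1 := by
  by_cases h : a = 0
  · simp [h]
  · rw [mem_ordGe' h, (isV E).mem_iff h, ord_val]

lemma ordGe_one : a ∈ ordGe E 1 ↔ a ∈ Y.nu E.1 := by
  by_cases h : a = 0
  · simp [h]
  · rw [mem_ordGe' h]
    refine ⟨fun h1 => ⟨ordGe_zero.1 (Or.inr (by omega)), fun h2 => ?_⟩, fun h1 => ord_pos h h1.1 h1.2⟩
    have := ord_un h2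
    omega

lemma ordGe_mono (h : a ∈ ordGe E n) (hm : m ≤ n) : a ∈ ordGe E m := h.imp_right hm.trans

lemma ordGe_self (a : K) (E : Y.PD) : a ∈ ordGe E (Y.ord a E.1) := Or.inr le_rfl

lemma mul_ordGe (ha : a ∈ ordGe E m) (hb : b ∈ ordGe E n) : a * b ∈ ordGe E (m + n) := by
  by_cases h1 : a = 0
  · simp [h1]
  by_cases h2 : b = 0
  · simp [h2]
  exact Or.inr (ord_mul h1 h2 E ▸ add_le_add (ha.resolve_left h1) (hb.resolve_left h2))

lemma pow_ordGe (ha : a ∈ ordGe E m) (k : ℕ) : a ^ k ∈ ordGe E (k * m) := by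
  induction k with
  | zero => simpa using ordGe_zero.2 (one_mem _)
  | succ k ih => rw [pow_succ, Nat.cast_succ, add_mul, one_mul]; exact mul_ordGe ih ha

lemma mul_ordGe_iff (ha : a ≠ 0) : a * b ∈ ordGe E n ↔ b ∈ ordGe E (n - Y.ord a E.1) := by
  by_cases h : b = 0
  · simp [h]
  · rw [mem_ordGe' (mul_ne_zero ha h), mem_ordGe' h, ord_mul ha h]
    omega

lemma div_ordGe_iff (hb : b ≠ 0) : a / b ∈ ordGe E n ↔ a ∈ ordGe E (n + Y.ord b E.1) := by
  rw [div_eq_inv_mul, mul_ordGe_iff (inv_ne_zero hb), ord_val b⁻¹, od_inv, ← ord_val,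
    sub_neg_eq_add]

lemma un_iff_ord : Un (Y.O E.1) a ↔ a ≠ 0 ∧ Y.ord a E.1 = 0 := by
  rw [(isV E).un_iff, ord_val]

lemma ord_eq_of_sub (ha : a ≠ 0) (h : b - a ∈ ordGe E (Y.ord a E.1 + 1)) :
    b ≠ 0 ∧ Y.ord b E.1 = Y.ord a E.1 := by
  have h1 : b ∈ ordGe E (Y.ord a E.1) := by
    simpa using add_mem (ordGe_mono h (by omega)) (ordGe_self a E)
  have h2 : b ∉ ordGe E (Y.ord a E.1 + 1) := fun h2 => by
    have := (mem_ordGe' ha).1 (by simpa using sub_mem h2 h)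
    omega
  have h3 : b ≠ 0 := fun h3 => h2 (Or.inl h3)
  rw [mem_ordGe' h3] at h1 h2
  exact ⟨h3, by omega⟩

lemma ord_inv (a : K) (E : Y.PD) : Y.ord a⁻¹ E.1 = -Y.ord a E.1 := by simp [ord_val]

lemma ord_neg (a : K) (E : Y.PD) : Y.ord (-a) E.1 = Y.ord a E.1 := by simp [ord_val]

lemma ord_zpow (a : K) (k : ℤ) (E : Y.PD) : Y.ord (a ^ k) E.1 = k * Y.ord a E.1 := by
  simp [ord_val]

lemma ord_one (E : Y.PD) : Y.ord 1 E.1 = 0 := by simp [ord_val]

lemma exists_ord (E : Y.PD) (k : ℤ) : ∃ a : K, a ≠ 0 ∧ Y.ord a E.1 = k := by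
  obtain ⟨π, h1, h2⟩ := exists_unif (isV E).1
  exact ⟨π ^ k, zpow_ne_zero _ h1, by rw [ord_zpow, ord_val, h2, mul_one]⟩

lemma le_nsmul (h : LE D D') (k : ℕ) : LE (k • D) (k • D') := by
  simpa using h.zsmul k

lemma le_div (ha : a ≠ 0) : LE (D + Y.div a) D := ⟨a, ha, rfl⟩

lemma le_msum {α : Type*} {s : Multiset α} {f g : α → Dv Y} (h : ∀ i ∈ s, LE (f i) (g i)) :
    LE (s.map f).sum (s.map g).sum := by
  induction s using Multiset.induction_on with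
  | empty => exact LE.refl _
  | cons i s ih =>
    simp only [Multiset.map_cons, Multiset.sum_cons]
    exact (h i (Multiset.mem_cons_self _ _)).add (ih fun j hj => h j (Multiset.mem_cons_of_mem hj))

lemma mov_iff : Mov D ↔ ∀ E, ∃ D', 0 ≤ D' ∧ D' E = 0 ∧ LE D' D :=
  forall_congr' fun E => ⟨fun ⟨f, h1, h2, h3⟩ => ⟨_, h2, h3, le_div h1⟩, by
    rintro ⟨_, h1, h2, f, h3, rfl⟩
    exact ⟨f, h3, h1, h2⟩⟩

lemma mov_le (h : Mov D) (h' : LE D D') : Mov D' := mov_iff.2 fun E =>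
  let ⟨C, h1, h2, h3⟩ := mov_iff.1 h E
  ⟨C, h1, h2, h3.trans h'⟩

lemma mov_zero : Mov (0 : Dv Y) := mov_iff.2 fun E => ⟨0, le_rfl, rfl, LE.refl _⟩

lemma mov_add (h : Mov D) (h' : Mov D') : Mov (D + D') := mov_iff.2 fun E =>
  let ⟨C, h1, h2, h3⟩ := mov_iff.1 h E
  let ⟨C', h4, h5, h6⟩ := mov_iff.1 h' E
  ⟨C + C', add_nonneg h1 h4, by simp [h2, h5], h3.add h6⟩

lemma mov_nsmul (h : Mov D) (k : ℕ) : Mov (k • D) := by
  induction k with
  | zero => simpa using mov_zero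
  | succ k ih => rw [succ_nsmul]; exact mov_add ih h

lemma mov_msum {s : Multiset (Dv Y)} (h : ∀ D ∈ s, Mov D) : Mov s.sum :=
  Multiset.sum_induction _ _ (fun _ _ => mov_add) mov_zero h

lemma mov_eff (h : Mov D) : ∃ D', 0 ≤ D' ∧ LE D' D :=
  let ⟨f, h1, h2⟩ := h.exists_eff
  ⟨_, h2, le_div h1⟩

lemma push_single (e : Y.PD ≃ Y.PD) (E : Y.PD) (k : ℤ) :
    push e (Finsupp.single E k) = Finsupp.single (e E) k := Finsupp.equivMapDomain_single e E k

lemma push_at (e : Y.PD ≃ Y.PD) (D : Dv Y) (E : Y.PD) : push e D (e E) = D E := by simp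

lemma push_nonneg {e : Y.PD ≃ Y.PD} (h : 0 ≤ D) : 0 ≤ push e D := fun E => h _

lemma mov_push {φ : RingAut K} {e : Y.PD ≃ Y.PD} (hp : Ps φ e) (h : Mov D) : Mov (push e D) :=
  mov_iff.2 fun E =>
    let ⟨C, h1, h2, h3⟩ := mov_iff.1 h (e.symm E)
    ⟨push e C, push_nonneg h1, h2, h3.push hp⟩

lemma msum_apply_zero {s : Multiset (Dv Y)} (h : ∀ D ∈ s, D E = 0) : s.sum E = 0 :=
  Multiset.sum_induction (fun D : Dv Y => D E = 0) s (fun _ _ h1 h2 => by simp [h1, h2]) rfl h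

lemma apply_zero_of_msum {s : Multiset (Dv Y)} (h : ∀ D ∈ s, 0 ≤ D) (h0 : s.sum E = 0) :
    ∀ D ∈ s, D E = 0 := fun D hD => by
  obtain ⟨t, rfl⟩ := Multiset.exists_cons_of_mem hD
  have h1 : 0 ≤ t.sum := Multiset.sum_nonneg fun C hC => h C (Multiset.mem_cons_of_mem hC)
  have h2 : (0 : ℤ) ≤ t.sum E := h1 E
  have h3 : (0 : ℤ) ≤ D E := h D hD E
  rw [Multiset.sum_cons, Finsupp.add_apply] at h0
  omega

lemma nc_ext {Γ : Curves Y} {hc : ∀ D : Dv Y, Cart D} {W : Type*} [AddCommGroup W] [Module ℝ W]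
    {f g : Γ.N1 →ₗ[ℝ] W} (h : ∀ D, f (nc Γ hc D) = g (nc Γ hc D)) : f = g :=
  Curves.lin_ext fun D => h D.1

end one

namespace Geo

variable {B : Var K} {X : Var F} {Λ : Type} [AddCommGroup Λ] (G : Geo B X Λ)

lemma V_inj : Function.Injective G.V := fun C C' h => by
  have := G.pb_V (Finsupp.single C 1) C'
  by_contra h1
  rw [← h, G.pb_V, Finsupp.single_eq_same, Finsupp.single_eq_of_ne (Ne.symm h1)] at this
  exact one_ne_zero this

lemma pb_single (C : B.PD) (k : ℤ) : G.pb (Finsupp.single C k) = Finsupp.single (G.V C) k := by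
  classical
  ext E
  by_cases h : ∃ C', E = G.V C'
  · obtain ⟨C', rfl⟩ := h
    simp [G.pb_V, Finsupp.single_apply, G.V_inj.eq_iff]
  · rw [G.pb_h _ _ (not_exists.1 h), Finsupp.single_eq_of_ne (not_exists.1 h C)]

lemma pb_σ (M : Dv B) (a : Λ) : G.pb M (G.σ a) = 0 := G.pb_h _ _ (G.σ_V a)

lemma s_V (a : Λ) (C : B.PD) : G.s a (G.V C) = 0 := Finsupp.single_eq_of_ne (G.σ_V a C).symm

lemma s_nonneg (a : Λ) : 0 ≤ G.s a := Finsupp.single_nonneg.2 zero_le_one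

lemma pb_nonneg {M : Dv B} : 0 ≤ G.pb M ↔ 0 ≤ M := by
  refine ⟨fun h C => (h (G.V C)).trans_eq (G.pb_V M C), fun h E => ?_⟩
  by_cases h1 : ∃ C, E = G.V C
  · obtain ⟨C, rfl⟩ := h1
    exact (h C).trans_eq (G.pb_V M C).symm
  · exact (G.pb_h _ _ (not_exists.1 h1)).ge

lemma le_pb {M M' : Dv B} (h : LE M M') : LE (G.pb M) (G.pb M') := by
  obtain ⟨f, h0, rfl⟩ := h
  exact ⟨G.θ f, (map_ne_zero _).2 h0, by rw [map_add, G.pb_div]⟩

lemma mov_pb {M : Dv B} (h : Mov M) : Mov (G.pb M) := mov_iff.2 fun E => by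
  by_cases h1 : ∃ C, E = G.V C
  · obtain ⟨C, rfl⟩ := h1
    obtain ⟨N, h2, h3, h4⟩ := mov_iff.1 h C
    exact ⟨_, G.pb_nonneg.2 h2, (G.pb_V _ _).trans h3, G.le_pb h4⟩
  · obtain ⟨N, h2, h3⟩ := mov_eff h
    exact ⟨_, G.pb_nonneg.2 h2, G.pb_h _ _ (not_exists.1 h1), G.le_pb h3⟩

lemma e_neg' (u : Λ) (E : X.PD) : G.e u (G.e (-u) E) = E := by
  simpa using G.e_neg (-u) E

lemma e_symm (u : Λ) : (G.e u).symm = G.e (-u) :=
  Equiv.ext fun E => (G.e u).symm_apply_eq.2 (G.e_neg' u E).symm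

lemma σ_injective : Function.Injective G.σ := fun a b h => by
  have := congrArg (G.e b) h
  rw [G.e_σ, G.e_σ, sub_self] at this
  exact sub_eq_zero.1 (G.σ_inj _ this)

lemma e_vert {u : Λ} {E : X.PD} (h : ∀ C, E ≠ G.V C) (C : B.PD) : G.e u E ≠ G.V C := fun h1 =>
  h C ((G.e u).injective (h1.trans (G.e_V u C).symm))

lemma push_s (u a : Λ) : push (G.e u) (G.s a) = G.s (a - u) := by rw [push_single, G.e_σ]

lemma push_pb (u : Λ) (M : Dv B) : push (G.e u) (G.pb M) = G.pb M := by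
  induction M using Finsupp.induction_linear with
  | zero => simp
  | add _ _ h1 h2 => simp [h1, h2]
  | single C k => rw [pb_single, push_single, G.e_V]

lemma push_neg (u : Λ) (D : Dv X) : push (G.e (-u)) (push (G.e u) D) = D := by
  ext E
  rw [push_apply, push_apply, e_symm, e_symm, neg_neg, G.e_neg]

lemma push_neg' (u : Λ) (D : Dv X) : push (G.e u) (push (G.e (-u)) D) = D := by
  simpa using G.push_neg (-u) D

lemma push_zero (D : Dv X) : push (G.e 0) D = D := by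
  ext E
  rw [push_apply, e_symm, neg_zero, G.e_zero]

@[simp] lemma A_zero : G.A 0 = 0 := rfl

lemma A_cons (a : Λ) (m : Multiset Λ) : G.A (a ::ₘ m) = G.s a + G.A m := by simp [A]

lemma A_add (m m' : Multiset Λ) : G.A (m + m') = G.A m + G.A m' := by simp [A]

/-- Sums of sections as an additive map. -/
def Ah : Multiset Λ →+ Dv X := ⟨⟨G.A, G.A_zero⟩, G.A_add⟩

lemma A_replicate (d : ℕ) (a : Λ) : G.A (Multiset.replicate d a) = d • G.s a := by simp [A]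

lemma A_nonneg (m : Multiset Λ) : 0 ≤ G.A m := Multiset.sum_nonneg fun D hD => by
  obtain ⟨a, -, rfl⟩ := Multiset.mem_map.1 hD
  exact G.s_nonneg a

lemma A_V (m : Multiset Λ) (C : B.PD) : G.A m (G.V C) = 0 := msum_apply_zero fun D hD => by
  obtain ⟨a, -, rfl⟩ := Multiset.mem_map.1 hD
  exact G.s_V a C

lemma push_A (u : Λ) (m : Multiset Λ) : push (G.e u) (G.A m) = G.A (m.map (· - u)) := by
  simp [A, map_multiset_sum, push_s]

lemma A_le (m : Multiset Λ) : ∃ M, LE (G.A m + G.s 0) (m.card • G.s 0 + G.s m.sum + G.pb M) := by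
  induction m using Multiset.induction_on with
  | empty => exact ⟨0, LE.of_eq (by simp)⟩
  | cons a m ih =>
    obtain ⟨M, h⟩ := ih
    obtain ⟨N, h'⟩ := G.sq a m.sum
    obtain ⟨f, h1, h2⟩ := h.sub h'
    refine ⟨M - N, f, h1, ?_⟩
    rw [A_cons, Multiset.card_cons, Multiset.sum_cons, succ_nsmul, map_sub, ← sub_eq_iff_eq_add',
      ← sub_eq_iff_eq_add'.2 h2]
    abel

lemma A_le_A {m m' : Multiset Λ} (h : m.card = m'.card) (h' : m.sum = m'.sum) :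
    ∃ M, LE (G.A m) (G.A m' + G.pb M) := by
  obtain ⟨M, h1⟩ := G.A_le m
  obtain ⟨M', h2⟩ := G.A_le m'
  obtain ⟨f, h3, h4⟩ := h1.sub h2
  refine ⟨M - M', f, h3, ?_⟩
  rw [map_sub, ← sub_eq_iff_eq_add', ← sub_eq_iff_eq_add'.2 h4, h, h']
  abel

lemma single_type (E : X.PD) : ∃ m M, LE (Finsupp.single E 1) (G.A m + G.pb M) ∧
    (m = 0 → ∃ C, E = G.V C) := by
  by_cases h : ∃ C, E = G.V C
  · obtain ⟨C, rfl⟩ := h
    exact ⟨0, Finsupp.single C 1, LE.of_eq (by simp [pb_single]), fun _ => ⟨C, rfl⟩⟩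
  · obtain ⟨d, a, M, h1⟩ := G.typ E (not_exists.1 h)
    exact ⟨a ::ₘ Multiset.replicate d 0, M, by rwa [A_cons, A_replicate, add_comm (G.s a)],
      fun h => absurd h Multiset.cons_ne_zero⟩

lemma exists_type {D : Dv X} (h : 0 ≤ D) : ∃ m M, LE D (G.A m + G.pb M) := by
  choose m M h1 h2 using G.single_type
  refine ⟨∑ E ∈ D.support, (D E).toNat • m E, ∑ E ∈ D.support, (D E).toNat • M E, ?_⟩
  have h3 : G.A (∑ E ∈ D.support, (D E).toNat • m E) = ∑ E ∈ D.support, (D E).toNat • G.A (m E) :=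
    (map_sum G.Ah _ _).trans (Finset.sum_congr rfl fun E _ => map_nsmul G.Ah _ _)
  rw [h3, map_sum, ← Finset.sum_add_distrib]
  refine (LE.of_eq (Finsupp.sum_single D).symm).trans (LE.sum fun E _ => ?_)
  rw [map_nsmul, ← nsmul_add]
  refine (LE.of_eq ?_).trans (le_nsmul (h1 E) _)
  simp [Int.toNat_of_nonneg (h E)]

lemma ext_gen {Γ : Curves X} {hc : ∀ D : Dv X, Cart D} {W : Type*} [AddCommGroup W] [Module ℝ W]
    {f g : Γ.N1 →ₗ[ℝ] W} (h1 : ∀ a, f (nc Γ hc (G.s a)) = g (nc Γ hc (G.s a)))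
    (h2 : ∀ M, f (nc Γ hc (G.pb M)) = g (nc Γ hc (G.pb M))) : f = g := nc_ext fun D => by
  induction D using Finsupp.induction_linear with
  | zero => simp
  | add _ _ h3 h4 => simp [h3, h4]
  | single E k =>
    obtain ⟨m, M, h3, -⟩ := G.single_type E
    have h4 : f (nc Γ hc (G.A m)) = g (nc Γ hc (G.A m)) := by
      simp [A, map_multiset_sum, h1]
    rw [← Finsupp.smul_single_one, map_zsmul, map_zsmul, map_zsmul, h3.nc_eq Γ hc]
    simp [h2, h4]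

end Geo

end Pool.Agent.Lib.EL
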