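import Pool.Agent.Lib.EL.KitA

open Set WithZero Polynomial Pool.Agent.Lib.MP_e39d36_ag Pool.Agent.Lib.MP_e39d36_ag.Var
  Pool.Agent.Lib.MV.End

set_option linter.unusedSectionVars false
set_option linter.unusedVariables false
set_option linter.style.haveILetI false

noncomputable section

namespace Pool.Agent.Lib.EL

attribute [local instance] Classical.propDecidable

variable {K F : Type} [Field K] [Field F] [Algebra ℂ K] [Algebra ℂ F] [Algebra K F]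
  [IsScalarTower ℂ K F]

lemma rg_le {θ : K →+* F} {O : Subring K} {a b : F} {T : Subring F} :
    Rg θ O a b ≤ T ↔ (∀ c ∈ O, θ c ∈ T) ∧ a ∈ T ∧ b ∈ T := by
  simp [Rg, Subring.closure_le, subset_def, and_comm, and_assoc, or_imp,
    forall_and]

lemma mem_rg {θ : K →+* F} {O : Subring K} {a b : F} :
    (∀ c ∈ O, θ c ∈ Rg θ O a b) ∧ a ∈ Rg θ O a b ∧ b ∈ Rg θ O a b := rg_le.1 le_rfl

lemma aeval_mem {T : Subring F} {a : F} {p : K[X]} (ha : a ∈ T)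
    (h : ∀ i, algebraMap K F (p.coeff i) ∈ T) : aeval a p ∈ T := by
  rw [aeval_eq_sum_range]
  exact sum_mem fun i _ => by rw [Algebra.smul_def]; exact mul_mem (h i) (pow_mem ha i)

namespace Ell

variable (M : Ell K F)

lemma charZero (K : Type) [Field K] [Algebra ℂ K] : CharZero K :=
  charZero_of_injective_algebraMap (algebraMap ℂ K).injective

/-- The projection. -/
def mor : Mor M.B M.X := ⟨IsScalarTower.toAlgHom ℂ K F, M.p, M.dom⟩

lemma p_mono {ξ η : M.X.Pt} (h : M.X.O ξ ≤ M.X.O η) : M.B.O (M.p ξ) ≤ M.B.O (M.p η) :=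
  M.mor.mono h

lemma θ_mem {ξ : M.X.Pt} {a : K} (h : a ∈ M.B.O (M.p ξ)) : algebraMap K F a ∈ M.X.O ξ :=
  (M.dom ξ).1 h

lemma θ_un {ξ : M.X.Pt} {a : K} (h : a ∈ M.B.O (M.p ξ)) :
    Un (M.X.O ξ) (algebraMap K F a) ↔ Un (M.B.O (M.p ξ)) a :=
  ⟨M.mor.of_un h, M.mor.un⟩

lemma p_top {ξ : M.X.Pt} : M.B.O (M.p ξ) = ⊤ ↔ ∀ a : K, algebraMap K F a ∈ M.X.O ξ := by
  refine ⟨fun h a => M.θ_mem (h ▸ trivial), fun h => eq_top_iff.2 fun z _ => ?_⟩
  obtain ⟨b, h1, h2, h3⟩ := M.B.frac_O (M.p ξ) z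
  exact ((M.θ_un h1).1 ⟨(_root_.map_ne_zero _).2 h2, h _, map_inv₀ (algebraMap K F) b ▸ h _⟩).mem_of_mul h3

lemma aeval_ne {q : K[X]} (h : q ≠ 0) : aeval M.x q ≠ 0 := fun h1 => h (M.tr q h1)

lemma x_sub_ne (a : K) : M.x - algebraMap K F a ≠ 0 := by
  simpa using M.aeval_ne (X_sub_C_ne_zero a)

lemma x_ne : M.x ≠ 0 := by simpa using M.x_sub_ne 0

lemma aeval_cub (a : F) :
    aeval a M.cub = a ^ 3 + algebraMap K F M.f * a + algebraMap K F M.g := by simp [cub]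

lemma y_sq : M.y ^ 2 = aeval M.x M.cub := by rw [aeval_cub, M.eqn]

lemma cub_monic : M.cub.Monic := by unfold cub; monicity!

lemma cub_deg : M.cub.natDegree = 3 := by unfold cub; compute_degree!

lemma y_ne : M.y ≠ 0 := fun h => M.aeval_ne M.cub_monic.ne_zero (by rw [← y_sq, h]; simp)

variable {p q p' q' : K[X]}

lemma el_add : M.el (p + p') (q + q') = M.el p q + M.el p' q' := by simp only [el, map_add]; ring

lemma el_sub : M.el (p - p') (q - q') = M.el p q - M.el p' q' := by simp only [el, map_sub]; ring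

lemma el_mul : M.el (p * p' + q * q' * M.cub) (p * q' + q * p') = M.el p q * M.el p' q' := by
  simp only [el, map_add, map_mul, ← y_sq]; ring

lemma el_smul (s : K[X]) : M.el (s * p) (s * q) = aeval M.x s * M.el p q := by
  simp only [el, map_mul]; ring

lemma el_conj : M.el p q * M.el p (-q) = aeval M.x (M.nm p q) := by
  simp only [el, nm, map_sub, map_mul, map_pow, map_neg, ← y_sq]; ring

lemma el_left : M.el p 0 = aeval M.x p := by simp [el]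

lemma el_y : M.el 0 1 = M.y := by simp [el]

lemma nm_mul : M.nm (p * p' + q * q' * M.cub) (p * q' + q * p') = M.nm p q * M.nm p' q' := by
  simp only [nm]; ring

lemma nm_left : (M.nm p 0).natDegree = 2 * p.natDegree := by simp [nm, natDegree_pow]

lemma nm_deg (h : q ≠ 0) :
    (M.nm p q).natDegree = max (2 * p.natDegree) (2 * q.natDegree + 3) := by
  have h1 : (q ^ 2 * M.cub).natDegree = 2 * q.natDegree + 3 := by
    rw [natDegree_mul (pow_ne_zero _ h) M.cub_monic.ne_zero, natDegree_pow, cub_deg]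
  have h2 : (p ^ 2).natDegree = 2 * p.natDegree := natDegree_pow _ _
  rcases lt_or_gt_of_ne (show 2 * p.natDegree ≠ 2 * q.natDegree + 3 by omega) with h3 | h3
  · rw [nm, natDegree_sub_eq_right_of_natDegree_lt (by omega), h1, max_eq_right h3.le]
  · rw [nm, natDegree_sub_eq_left_of_natDegree_lt (by omega), h2, max_eq_left h3.le]

lemma nm_eq_zero : M.nm p q = 0 ↔ p = 0 ∧ q = 0 := by
  refine ⟨fun h => ?_, by rintro ⟨rfl, rfl⟩; simp [nm]⟩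
  obtain rfl : q = 0 := of_not_not fun h1 => by
    have := M.nm_deg (p := p) h1
    rw [h, natDegree_zero] at this
    omega
  simpa [nm] using h

lemma el_eq_zero : M.el p q = 0 ↔ p = 0 ∧ q = 0 :=
  ⟨fun h => M.nm_eq_zero.1 (M.tr _ (by rw [← el_conj, h, zero_mul])),
    by rintro ⟨rfl, rfl⟩; simp [el]⟩

lemma el_inj (h : M.el p q = M.el p' q') : p = p' ∧ q = q' := by
  simpa only [sub_eq_zero] using M.el_eq_zero.1 (M.el_sub.trans (sub_eq_zero.2 h))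

lemma el_mem {T : Subring F} (hx : M.x ∈ T) (hy : M.y ∈ T) (h : ∀ a, algebraMap K F a ∈ T) :
    M.el p q ∈ T :=
  add_mem (aeval_mem hx fun _ => h _) (mul_mem (aeval_mem hx fun _ => h _) hy)

lemma mem_R0 {w : F} : w ∈ M.R0 ↔ ∃ p q, w = M.el p q := by
  refine ⟨fun h => ?_, ?_⟩
  · induction h using Subring.closure_induction with
    | mem z hz =>
      rcases hz with ⟨a, -, rfl⟩ | rfl | rfl
      exacts [⟨C a, 0, by simp [el]⟩, ⟨Polynomial.X, 0, by simp [el]⟩, ⟨0, 1, M.el_y.symm⟩]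
    | zero => exact ⟨0, 0, by simp [el]⟩
    | one => exact ⟨1, 0, by simp [el]⟩
    | add _ _ _ _ h1 h2 =>
      obtain ⟨p, q, rfl⟩ := h1
      obtain ⟨p', q', rfl⟩ := h2
      exact ⟨_, _, M.el_add.symm⟩
    | neg _ _ h1 =>
      obtain ⟨p, q, rfl⟩ := h1
      exact ⟨-p, -q, by simp only [el, map_neg]; ring⟩
    | mul _ _ _ _ h1 h2 =>
      obtain ⟨p, q, rfl⟩ := h1
      obtain ⟨p', q', rfl⟩ := h2
      exact ⟨_, _, M.el_mul.symm⟩
  · rintro ⟨p, q, rfl⟩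
    exact M.el_mem mem_rg.2.1 mem_rg.2.2 fun a => mem_rg.1 a trivial

lemma frac_of {b w : F} (hb : b ∈ M.R0) (h0 : b ≠ 0) (hw : b * w ∈ M.R0) :
    ∃ p q s : K[X], s ≠ 0 ∧ aeval M.x s * w = M.el p q := by
  obtain ⟨p, q, rfl⟩ := M.mem_R0.1 hb
  obtain ⟨p', q', h⟩ := M.mem_R0.1 (mul_mem (M.mem_R0.2 ⟨p, -q, rfl⟩) hw)
  exact ⟨p', q', _, mt M.nm_eq_zero.1 (mt M.el_eq_zero.2 h0), by rw [← h, ← el_conj]; ring⟩

theorem frac : M.Frac := fun w => by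
  let T := Pool.Agent.Lib.MP_e39d36_ag.frac M.R0 (nonZeroDivisors F)
  have h1 : ∀ a ∈ T, a⁻¹ ∈ T := by
    rintro a ⟨b, h1, h2, h3⟩
    by_cases h4 : a = 0
    · simp [h4]
    · exact ⟨b * a, h3, mul_mem h2 (mem_nonZeroDivisors_of_ne_zero h4), by simpa [h4] using h1⟩
  have h2 : ∀ a, algebraMap K F a ∈ T := fun a => le_frac (mem_rg.1 a trivial)
  have hx : M.x ∈ T := le_frac mem_rg.2.1
  have hy : M.y ∈ T := le_frac mem_rg.2.2
  obtain ⟨η, hη⟩ := M.X.exists_top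
  have h3 : ∀ R, R ≤ T → LocOf R (M.X.O η) → w ∈ T := fun R h3 h4 => by
    obtain ⟨b, h5, h6, h7⟩ := h4.2 w (hη ▸ trivial)
    simpa [h6.1] using mul_mem (h1 _ (h3 h5)) (h3 h7)
  obtain ⟨b, h4, h5, h6⟩ : w ∈ T := by
    rcases M.wei η (Or.inl (M.p_top.2 fun _ => hη ▸ trivial)) _ ((M.cB _).lf _) with h | h
    · exact h3 _ (rg_le.2 ⟨fun c _ => h2 c, mul_mem (pow_mem (h2 _) _) hx,
        mul_mem (pow_mem (h2 _) _) hy⟩) h
    · refine h3 _ (rg_le.2 ⟨fun c _ => h2 c, ?_, ?_⟩) h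
      · rw [div_eq_mul_inv]
        exact mul_mem hx (h1 _ (mul_mem (h2 _) hy))
      · rw [one_div]
        exact h1 _ (mul_mem (pow_mem (h2 _) _) hy)
  exact M.frac_of h4 (nonZeroDivisors.ne_zero h5) h6

variable {a b : K} {C : M.B.PD} {E : M.X.PD}

lemma eqn_iff : (Wc M.f M.g).Nonsingular a b ↔ b ^ 2 = a ^ 3 + M.f * a + M.g := by
  haveI := charZero K
  rw [← WeierstrassCurve.Affine.equation_iff_nonsingular_of_Δ_ne_zero,
    WeierstrassCurve.Affine.equation_iff]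
  · simp [Wc]
  · intro h
    apply M.disc
    simp only [Wc, WeierstrassCurve.Δ, WeierstrassCurve.b₂, WeierstrassCurve.b₄,
      WeierstrassCurve.b₆, WeierstrassCurve.b₈] at h
    linear_combination (-1 / 16 : K) * h

lemma rhs_mem (ha : a ∈ ordGe C (-2 * M.L C)) :
    a ^ 3 + M.f * a + M.g ∈ ordGe C (-6 * M.L C) :=
  add_mem (add_mem (ordGe_mono (pow_ordGe ha 3) (by omega))
    (ordGe_mono (mul_ordGe (M.hf C) ha) (by omega))) (M.hg C)

lemma int_pt (h : b ^ 2 = a ^ 3 + M.f * a + M.g) (ha : a ∈ ordGe C (-2 * M.L C)) :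
    b ∈ ordGe C (-3 * M.L C) := by
  refine or_iff_not_imp_left.2 fun h0 => ?_
  have := (mem_ordGe' (pow_ne_zero 2 h0)).1 (h ▸ M.rhs_mem ha)
  rw [Var.ord_pow] at this
  omega

lemma nonint_pt (h : b ^ 2 = a ^ 3 + M.f * a + M.g) (ha : a ∉ ordGe C (-2 * M.L C)) :
    a ≠ 0 ∧ b ≠ 0 ∧ ∃ e : ℤ, 0 < e ∧ M.B.ord a C.1 = -2 * M.L C - 2 * e ∧
      M.B.ord b C.1 = -3 * M.L C - 3 * e := by
  have h0 : a ≠ 0 := fun h => ha (Or.inl h)
  rw [mem_ordGe' h0] at ha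
  obtain ⟨h1, h2⟩ := ord_eq_of_sub (E := C) (pow_ne_zero 3 h0) (b := b ^ 2) (by
    rw [h, add_assoc, add_sub_cancel_left, Var.ord_pow]
    exact add_mem (ordGe_mono (mul_ordGe (M.hf C) (ordGe_self a C)) (by omega))
      (ordGe_mono (M.hg C) (by omega)))
  rw [Var.ord_pow, Var.ord_pow] at h2
  exact ⟨h0, fun h => h1 (by simp [h]), M.B.ord a C.1 - M.B.ord b C.1 - M.L C, by omega,
    by omega, by omega⟩

lemma locEq_l (C : M.B.PD) : LocEq M.L C.1 (lf M.L C.1) := (M.cB _).lf _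

lemma l_ne (C : M.B.PD) : M.l C ≠ 0 := (_root_.map_ne_zero _).2 (M.locEq_l C).1

lemma ord_lf (C : M.B.PD) : M.B.ord (lf M.L C.1) C.1 = M.L C := ((M.locEq_l C).eq le_rfl).symm

lemma wei' {ξ : M.X.Pt} (h : M.p ξ = C.1) :
    LocOf (Rg (algebraMap K F) (M.B.O C.1) (M.l C ^ 2 * M.x) (M.l C ^ 3 * M.y)) (M.X.O ξ) ∨
    LocOf (Rg (algebraMap K F) (M.B.O C.1) (M.x / (M.l C * M.y)) (1 / (M.l C ^ 3 * M.y)))
      (M.X.O ξ) := by
  have := M.wei ξ (Or.inr (h ▸ C.2)) (lf M.L C.1) (by rw [h]; exact M.locEq_l C)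
  rwa [h] at this

lemma lf_mul_mem (n : ℕ) (h : a ∈ ordGe C (-n * M.L C)) : lf M.L C.1 ^ n * a ∈ M.B.O C.1 :=
  ordGe_zero.1 (ordGe_mono (mul_ordGe (pow_ordGe (ordGe_self _ C) n) h) (by simp [M.ord_lf]))

lemma l_mul_mem {ξ : M.X.Pt} (hp : M.p ξ = C.1) (n : ℕ) (h : a ∈ ordGe C (-n * M.L C)) :
    M.l C ^ n * algebraMap K F a ∈ M.X.O ξ := by
  rw [Ell.l, ← map_pow, ← map_mul]
  exact M.θ_mem (hp ▸ M.lf_mul_mem n h)

lemma rg_eq {θ : K →+* F} {O : Subring K} {s t w : F} (h : w ∈ Rg θ O s t) :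
    ∃ c ∈ O, ∃ α ∈ Rg θ O s t, ∃ β ∈ Rg θ O s t, w = θ c + α * s + β * t := by
  induction h using Subring.closure_induction with
  | mem z hz =>
    rcases hz with ⟨a, ha, rfl⟩ | rfl | rfl
    exacts [⟨a, ha, 0, zero_mem _, 0, zero_mem _, by simp⟩,
      ⟨0, zero_mem _, 1, one_mem _, 0, zero_mem _, by simp⟩,
      ⟨0, zero_mem _, 0, zero_mem _, 1, one_mem _, by simp⟩]
  | zero => exact ⟨0, zero_mem _, 0, zero_mem _, 0, zero_mem _, by simp⟩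
  | one => exact ⟨1, one_mem _, 0, zero_mem _, 0, zero_mem _, by simp⟩
  | add _ _ _ _ h1 h2 =>
    obtain ⟨c, a1, α, a2, β, a3, rfl⟩ := h1
    obtain ⟨c', b1, α', b2, β', b3, rfl⟩ := h2
    exact ⟨_, add_mem a1 b1, _, add_mem a2 b2, _, add_mem a3 b3, by rw [map_add]; ring⟩
  | neg _ _ h1 =>
    obtain ⟨c, a1, α, a2, β, a3, rfl⟩ := h1
    exact ⟨_, neg_mem a1, _, neg_mem a2, _, neg_mem a3, by rw [map_neg]; ring⟩
  | mul u u' hu hu' h1 h2 =>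
    obtain ⟨c, a1, α, a2, β, a3, rfl⟩ := h1
    obtain ⟨c', b1, α', b2, β', b3, h⟩ := h2
    exact ⟨_, mul_mem a1 b1, _, add_mem (mul_mem (mem_rg.1 c a1) b2) (mul_mem a2 hu'), _,
      add_mem (mul_mem (mem_rg.1 c a1) b3) (mul_mem a3 hu'), by
        rw [map_mul]; linear_combination θ c * h⟩

variable {M}

lemma Hor.un (h : M.Hor E) (ha : a ≠ 0) : Un (M.X.O E.1) (algebraMap K F a) :=
  ⟨(_root_.map_ne_zero _).2 ha, h _, map_inv₀ (algebraMap K F) a ▸ h _⟩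

lemma Hor.ord (h : M.Hor E) (a : K) : M.X.ord (algebraMap K F a) E.1 = 0 := by
  by_cases ha : a = 0
  · simp [ha, ord_val]
  · exact ord_un (h.un ha)

lemma Hor.eq_of_nu (h : M.Hor E) (h' : algebraMap K F a - algebraMap K F b ∈ M.X.nu E.1) :
    a = b := of_not_not fun h1 => h'.2 (map_sub (algebraMap K F) a b ▸ h.un (sub_ne_zero.2 h1))

namespace Hz

variable (H : M.Hz)

lemma ord_el (h : M.el p q ≠ 0) : M.X.ord (M.el p q) H.O.1 = -((M.nm p q).natDegree : ℤ) := by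
  rw [ord_val, H.inf.2 _ _ h]

lemma ord_aeval (h : p ≠ 0) : M.X.ord (aeval M.x p) H.O.1 = -2 * p.natDegree := by
  rw [← el_left, H.ord_el (by rw [el_left]; exact M.aeval_ne h), nm_left]
  simp

lemma ord_x : M.X.ord M.x H.O.1 = -2 := by simpa using H.ord_aeval X_ne_zero

lemma ord_y : M.X.ord M.y H.O.1 = -3 := by
  rw [← el_y, H.ord_el (by rw [el_y]; exact M.y_ne), M.nm_deg one_ne_zero]
  simp

lemma el_ordGe {n : ℕ} (hp : 2 * p.natDegree ≤ n) (hq : q = 0 ∨ 2 * q.natDegree + 3 ≤ n) :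
    M.el p q ∈ ordGe H.O (-n) := by
  refine or_iff_not_imp_left.2 fun h0 => ?_
  rw [H.ord_el h0]
  by_cases h : q = 0
  · rw [h, nm_left]; omega
  · rw [M.nm_deg h]; have := hq.resolve_left h; omega

lemma el_mem (h : M.Hor E) (h' : E ≠ H.O) : M.el p q ∈ M.X.O E.1 :=
  (H.aff E h h').1 (M.mem_R0.2 ⟨p, q, rfl⟩)

lemma x_mem (h : M.Hor E) (h' : E ≠ H.O) : M.x ∈ M.X.O E.1 := (H.aff E h h').1 mem_rg.2.1

lemma y_mem (h : M.Hor E) (h' : E ≠ H.O) : M.y ∈ M.X.O E.1 := (H.aff E h h').1 mem_rg.2.2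

lemma one {w : F} (h : ∀ E, M.Hor E → E ≠ H.O → 0 ≤ M.X.ord w E.1) (h' : -1 ≤ M.X.ord w H.O.1) :
    ∃ c, w = algebraMap K F c := by
  obtain ⟨p, q, rfl⟩ := M.mem_R0.1 (H.hart w h)
  by_cases h0 : M.el p q = 0
  · exact ⟨0, by simp [h0]⟩
  rw [H.ord_el h0] at h'
  obtain rfl : q = 0 := of_not_not fun h1 => by rw [M.nm_deg h1] at h'; omega
  rw [nm_left] at h'
  exact ⟨p.coeff 0, by rw [el_left, eq_C_of_natDegree_eq_zero (p := p) (by omega)]; simp⟩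

end Hz

namespace Vt

variable (v : M.Vt)

lemma θ_ordGe {n : ℤ} : algebraMap K F a ∈ ordGe (v.V C) n ↔ a ∈ ordGe C n := by
  simp [mem_ordGe, v.ordV]

lemma not_hor (C : M.B.PD) : ¬M.Hor (v.V C) := fun h => by
  obtain ⟨a, -, h1⟩ := exists_ord C 1
  rw [← v.ordV, h.ord] at h1
  omega

lemma hor_iff : M.Hor E ↔ ∀ C, E ≠ v.V C :=
  ⟨fun h C h1 => v.not_hor C (h1 ▸ h), fun h => (v.vert E).resolve_right (not_exists.2 h)⟩

lemma eq_of_le {ξ : M.X.Pt} {C' : M.B.PD} (h : M.p ξ = C.1) (h' : M.X.O ξ ≤ M.X.O (v.V C').1) :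
    C = C' := pd_eq (by simpa [h, v.pV] using M.p_mono h')

lemma ord_l (C : M.B.PD) : M.X.ord (M.l C) (v.V C).1 = M.L C := (v.ordV _ _).trans (M.ord_lf C)

lemma aeval_ordGe {n : ℤ} :
    aeval M.x p ∈ ordGe (v.V C) n ↔ ∀ i : ℕ, p.coeff i ∈ ordGe C (n + 2 * i * M.L C) := by
  rw [← el_left, v.gauss]
  simp

lemma y_ordGe {n : ℤ} : M.y ∈ ordGe (v.V C) n ↔ n ≤ -3 * M.L C := by
  rw [← el_y, v.gauss]
  refine ⟨fun h => ?_, fun h => ⟨by simp, fun i => ?_⟩⟩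
  · have := h.2 0
    rw [coeff_one_zero, mem_ordGe' one_ne_zero, ord_one] at this
    omega
  · rcases i with _ | i
    · rw [coeff_one_zero, mem_ordGe' one_ne_zero, ord_one]
      omega
    · simp [coeff_one]

lemma ord_y (C : M.B.PD) : M.X.ord M.y (v.V C).1 = -3 * M.L C :=
  le_antisymm (v.y_ordGe.1 (ordGe_self _ _)) ((mem_ordGe' M.y_ne).1 (v.y_ordGe.2 le_rfl))

lemma x_sub_ordGe {n : ℤ} :
    M.x - algebraMap K F a ∈ ordGe (v.V C) n ↔ n ≤ -2 * M.L C ∧ a ∈ ordGe C n := by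
  rw [show M.x - algebraMap K F a = aeval M.x (Polynomial.X - Polynomial.C a) by simp, aeval_ordGe]
  refine ⟨fun h => ⟨?_, by simpa using h 0⟩, fun h i => ?_⟩
  · have := h 1
    simp only [coeff_sub, coeff_X_one, coeff_C_succ, sub_zero, mem_ordGe' one_ne_zero,
      ord_one] at this
    omega
  · rcases i with _ | _ | i
    · simpa using h.2
    · simp only [coeff_sub, zero_add, coeff_X_one, coeff_C_succ, sub_zero, mem_ordGe' one_ne_zero,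
        ord_one]
      omega
    · simp [coeff_X]

lemma ord_x_sub (ha : a ∈ ordGe C (-2 * M.L C)) :
    M.X.ord (M.x - algebraMap K F a) (v.V C).1 = -2 * M.L C :=
  le_antisymm (v.x_sub_ordGe.1 (ordGe_self _ _)).1
    ((mem_ordGe' (M.x_sub_ne a)).1 (v.x_sub_ordGe.2 ⟨le_rfl, ha⟩))

lemma ord_x (C : M.B.PD) : M.X.ord M.x (v.V C).1 = -2 * M.L C := by
  simpa using v.ord_x_sub (a := 0) (C := C) (zero_mem _)

lemma ord_x_sub' (ha : a ∉ ordGe C (-2 * M.L C)) :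
    M.X.ord (M.x - algebraMap K F a) (v.V C).1 = M.B.ord a C.1 := by
  have h0 : a ≠ 0 := fun h => ha (Or.inl h)
  rw [mem_ordGe' h0] at ha
  exact le_antisymm ((mem_ordGe' h0).1 (v.x_sub_ordGe.1 (ordGe_self _ _)).2)
    ((mem_ordGe' (M.x_sub_ne a)).1 (v.x_sub_ordGe.2 ⟨by omega, ordGe_self _ _⟩))

lemma eval_ordGe {n : ℤ} (h : ∀ i : ℕ, p.coeff i ∈ ordGe C (n + 2 * i * M.L C))
    (ha : a ∈ ordGe C (-2 * M.L C)) : p.eval a ∈ ordGe C n := by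
  rw [eval_eq_sum_range]
  exact sum_mem fun i _ => ordGe_mono (mul_ordGe (h i) (pow_ordGe ha i)) (by ring_nf; rfl)

lemma le_of_HE {pb : Dv M.B →+ Dv M.X} (hp : v.IsPb pb) {D D' : Dv M.X} (h : M.HE D D') :
    ∃ N, LE D (D' + pb N) := by
  obtain ⟨φ, h0, h⟩ := h
  have h1 : Function.Injective v.V := fun C C' h1 => Subtype.ext (by rw [← v.pV, h1, v.pV])
  refine ⟨Finsupp.comapDomain v.V (D - D' - M.X.div φ) h1.injOn, φ, h0, Finsupp.ext fun E => ?_⟩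
  rcases v.vert E with h2 | ⟨C, rfl⟩
  · simp [hp.2 _ _ (v.hor_iff.1 h2), h E h2]
  · simp [hp.1]
    ring

end Vt

namespace Sec

variable (S : M.Sec) {w t : F}

lemma τ_add {w' : F} (h : w ∈ M.X.O S.E.1) (h' : w' ∈ M.X.O S.E.1) :
    S.γ.τ (w + w') = S.γ.τ w + S.γ.τ w' := S.γ.add _ (S.c_eq ▸ h) _ (S.c_eq ▸ h')

lemma τ_mul {w' : F} (h : w ∈ M.X.O S.E.1) (h' : w' ∈ M.X.O S.E.1) :
    S.γ.τ (w * w') = S.γ.τ w * S.γ.τ w' := S.γ.mul _ (S.c_eq ▸ h) _ (S.c_eq ▸ h')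

lemma τ_nu (h : w ∈ M.X.nu S.E.1) : S.γ.τ w = 0 := S.γ.zero _ (S.c_eq ▸ h.1) (S.c_eq ▸ h.2)

lemma τ_ne (h : Un (M.X.O S.E.1) w) : S.γ.τ w ≠ 0 := CMap.τ_ne (S.c_eq ▸ h)

lemma τ_eq (h : w - algebraMap K F a ∈ M.X.nu S.E.1) : S.γ.τ w = a := by
  rw [← sub_add_cancel w (algebraMap K F a), S.τ_add h.1 (S.hor a), S.τ_nu h, S.res, zero_add]

lemma sub_τ (h : w ∈ M.X.O S.E.1) : w - algebraMap K F (S.γ.τ w) ∈ M.X.nu S.E.1 := by
  refine ⟨sub_mem h (S.hor _), fun h1 => S.τ_ne h1 ?_⟩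
  rw [sub_eq_add_neg, ← map_neg, S.τ_add h (S.hor _), S.res, add_neg_cancel]

lemma θ_mem (h : a ∈ M.B.O C.1) : algebraMap K F a ∈ M.X.O (S.ξ C) := M.θ_mem (S.p_ξ C ▸ h)

lemma τ_un (h : Un (M.X.O (S.ξ C)) w) : Un (M.B.O C.1) (S.γ.τ w) :=
  ⟨S.τ_ne (h.mono (S.le C)), S.mem C _ h.2.1,
    CMap.τ_inv' (γ := S.γ) (S.c_eq ▸ h.mono (S.le C)) ▸ S.mem C _ h.2.2⟩

lemma div_mem (ht : LocEq (Finsupp.single S.E 1) (S.ξ C) t) (h : w ∈ M.X.O (S.ξ C))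
    (h' : w ∈ M.X.nu S.E.1) : w / t ∈ M.X.O (S.ξ C) := by
  by_cases h0 : w = 0
  · simp [h0]
  refine hartogs fun E hE => ?_
  rw [ord_div h0 ht.1, ← ht.eq hE]
  by_cases h1 : E = S.E
  · have := ord_pos h0 h'.1 h'.2
    rw [h1, Finsupp.single_eq_same]
    omega
  · simpa [Finsupp.single_eq_of_ne h1] using ord_nonneg (hE h)

lemma exists_eq (ht : LocEq (Finsupp.single S.E 1) (S.ξ C) t) (h : w ∈ M.X.O (S.ξ C)) :
    ∃ w' ∈ M.X.O (S.ξ C), w = algebraMap K F (S.γ.τ w) + t * w' :=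
  ⟨_, S.div_mem ht (sub_mem h (S.θ_mem (S.mem C _ h))) (S.sub_τ (S.le C h)),
    by rw [mul_div_cancel₀ _ ht.1, add_sub_cancel]⟩

end Sec

end Ell

end Pool.Agent.Lib.EL
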