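import Pool.Agent.Lib.MP_e39d36_ag.Sch4

open AlgebraicGeometry CategoryTheory Order Pool.Agent.Lib.MP_e39d36_ag
open Pool.Agent.Lib.MP_99f32e_ag hiding IsProjective

noncomputable section

namespace Pool.Agent.Lib.EL

attribute [local instance] Classical.propDecidable

section

variable {K F ι : Type} [Field K] [Field F] (o : K → ι → ℤ) (L : ι →₀ ℤ)

/-- `a` vanishes to order at least `n` along `C`. -/
def Ge (a : K) (C : ι) (n : ℤ) : Prop := a = 0 ∨ n ≤ o a C

/-- The curve `y ^ 2 = x ^ 3 + f x + g`. -/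
def Wc (f g : K) : WeierstrassCurve.Affine K := ⟨0, 0, 0, f, g⟩

variable {f g : K}

/-- The section meets the zero section over a prime divisor of the base. -/
def Meets : (Wc f g).Point → Prop
  | .zero => False
  | .some x _ _ => ∃ C, ¬Ge o x C (-2 * L C)

/-- The section is in Morrison-Park form. -/
def MP : (Wc f g).Point → Prop
  | .zero => True
  | .some x y _ => ∃ c, ∀ C, (Ge o x C (-2 * L C) → Ge o c C (-L C)) ∧
      (¬Ge o x C (-2 * L C) → Ge o ((y - c * x) ^ 2 / x) C (-4 * L C))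

/-- At most four sections whose differences generate the Mordell-Weil group and are in
Morrison-Park form; each meets at most one other, and four are pairwise disjoint. -/
def Gens {r : ℕ} (P : Fin (r + 1) → (Wc f g).Point) : Prop :=
  r ≤ 3 ∧ AddSubgroup.closure {a | ∃ i j, a = P j - P i} = ⊤ ∧ (∀ i j, MP o L (P j - P i)) ∧
    (∀ i j k, Meets o L (P j - P i) → Meets o L (P k - P i) → P j = P k) ∧
    (r = 3 → ∀ i j, ¬Meets o L (P j - P i))

/-- Finitely many effective divisors generate, up to multiples and linear equivalence, the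
effective divisors that do not contain a given prime divisor. -/
def MD : Prop := ∃ S : Set (ι →₀ ℤ), S.Finite ∧ (∀ G ∈ S, 0 ≤ G) ∧
  ∀ (C : ι) (M : ι →₀ ℤ), 0 ≤ M → M C = 0 → ∃ k : ℕ, 0 < k ∧ ∃ m : Multiset (ι →₀ ℤ),
    (∀ G ∈ m, G ∈ S ∧ G C = 0) ∧ ∃ φ : K, φ ≠ 0 ∧ ∀ E, k * M E + o φ E = m.sum E

/-- The ring generated by the image of `O` and two elements. -/
def Rg (θ : K →+* F) (O : Subring K) (a b : F) : Subring F := Subring.closure (θ '' O ∪ {a, b})

end

variable {X B : Scheme.{0}} [IsIntegral X] [IsIntegral B] [IsLocallyNoetherian X]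
  [IsLocallyNoetherian B]

/-- Order of vanishing along prime divisors. -/
def oB (B : Scheme.{0}) [IsIntegral B] [IsLocallyNoetherian B] (a : B.functionField) (C : PD B) :
    ℤ := B.ord a C.1

/-- Over points of codimension at most one `π` is the Weierstrass fibration
`y ^ 2 = x ^ 3 + f x + g` with `f`, `g` sections of `4 L`, `6 L`; no divisor is contracted and
the discriminant has a zero. -/
def IsWei (π : X ⟶ B) [IsDominant π] (L : PD B →₀ ℤ) (f g : B.functionField)
    (x y : X.functionField) : Prop :=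
  y ^ 2 = x ^ 3 + (pullFun π).hom f * x + (pullFun π).hom g ∧
  (∀ p : Polynomial B.functionField, p.eval₂ (pullFun π).hom x = 0 → p = 0) ∧
  4 * f ^ 3 + 27 * g ^ 2 ≠ 0 ∧ (∃ C, oB B (4 * f ^ 3 + 27 * g ^ 2) C + 12 * L C ≠ 0) ∧
  (∀ C, Ge (oB B) f C (-4 * L C) ∧ Ge (oB B) g C (-6 * L C)) ∧
  (∀ E : PD X, coheight (π E.1) ≤ 1) ∧
  ∀ ξ : X, coheight (π ξ) ≤ 1 → ∀ l, LocEq L (π ξ) l →
    LocOf (Rg (pullFun π).hom (OX (π ξ)) ((pullFun π).hom l ^ 2 * x) ((pullFun π).hom l ^ 3 * y))
      (OX ξ) ∨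
    LocOf (Rg (pullFun π).hom (OX (π ξ)) (x / ((pullFun π).hom l * y))
      (1 / ((pullFun π).hom l ^ 3 * y))) (OX ξ)

end Pool.Agent.Lib.EL
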